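import Mathlib

set_option autoImplicit false

namespace Pool.Agent.SSTW

open scoped RealInnerProductSpace InnerProduct
open InnerProductSpace

section eig

variable {K : Type*} [NormedAddCommGroup K] [InnerProductSpace ℝ K] [FiniteDimensional ℝ K]

/-- A symmetric operator has a unit eigenvector whose eigenvalue has the smallest absolute value;
it realizes the smallest dilation factor of the operator. -/
theorem exists_min_eig [Nontrivial K] (T : K →ₗ[ℝ] K) (hT : T.IsSymmetric) :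
    ∃ (z : K) (μ : ℝ), ‖z‖ = 1 ∧ T z = μ • z ∧ ∀ w, |μ| * ‖w‖ ≤ ‖T w‖ := by
  classical
  set m := Module.finrank ℝ K with hm
  have hmpos : 0 < m := Module.finrank_pos
  have : Nonempty (Fin m) := ⟨⟨0, hmpos⟩⟩
  set b := hT.eigenvectorBasis (hm.symm) with hb
  set μ : Fin m → ℝ := hT.eigenvalues hm.symm with hμ
  obtain ⟨i₀, hi₀⟩ := Finite.exists_min (fun i => |μ i|)
  refine ⟨b i₀, μ i₀, b.orthonormal.1 i₀, ?_, ?_⟩
  · exact hT.apply_eigenvectorBasis hm.symm i₀
  · intro w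
    have h1 : ‖T w‖ ^ 2 = ∑ i, (μ i * ⟪b i, w⟫) ^ 2 := by
      rw [← b.sum_sq_norm_inner_right (T w)]
      refine Finset.sum_congr rfl fun i _ => ?_
      have h2 : ⟪b i, T w⟫ = μ i * ⟪b i, w⟫ := by
        rw [← hT (b i) w, hT.apply_eigenvectorBasis hm.symm i]
        simp [real_inner_smul_left]
        rfl
      rw [h2, Real.norm_eq_abs, sq_abs]
    have h3 : ‖w‖ ^ 2 = ∑ i, ⟪b i, w⟫ ^ 2 := by
      rw [← b.sum_sq_norm_inner_right w]
      refine Finset.sum_congr rfl fun i _ => ?_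
      rw [Real.norm_eq_abs, sq_abs]
    have h4 : (|μ i₀| * ‖w‖) ^ 2 ≤ ‖T w‖ ^ 2 := by
      rw [h1, mul_pow, h3, Finset.mul_sum]
      refine Finset.sum_le_sum fun i _ => ?_
      rw [mul_pow, sq_abs]
      refine mul_le_mul_of_nonneg_right ?_ (sq_nonneg _)
      exact sq_le_sq.2 (hi₀ i)
    exact le_of_sq_le_sq h4 (norm_nonneg _)

end eig

section herm

variable {E : Type*} [NormedAddCommGroup E] [InnerProductSpace ℝ E] [CompleteSpace E]

/-- The Hermitization `[[0, M], [Mᵀ, 0]]` minus `s`. -/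
noncomputable def herm (M : E →L[ℝ] E) (s : ℝ) : WithLp 2 (E × E) →ₗ[ℝ] WithLp 2 (E × E) where
  toFun z := WithLp.toLp 2 (M z.snd - s • z.fst, ContinuousLinearMap.adjoint M z.fst - s • z.snd)
  map_add' z w := by
    apply WithLp.ofLp_injective
    apply Prod.ext <;> simp <;> abel
  map_smul' c z := by
    apply WithLp.ofLp_injective
    apply Prod.ext <;> simp [smul_sub, smul_comm c s]

@[simp] theorem herm_fst (M : E →L[ℝ] E) (s : ℝ) (z : WithLp 2 (E × E)) :
    (herm M s z).fst = M z.snd - s • z.fst := rfl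

@[simp] theorem herm_snd (M : E →L[ℝ] E) (s : ℝ) (z : WithLp 2 (E × E)) :
    (herm M s z).snd = ContinuousLinearMap.adjoint M z.fst - s • z.snd := rfl

theorem herm_norm_sq (M : E →L[ℝ] E) (s : ℝ) (z : WithLp 2 (E × E)) :
    ‖herm M s z‖ ^ 2 = ‖M z.snd - s • z.fst‖ ^ 2
      + ‖ContinuousLinearMap.adjoint M z.fst - s • z.snd‖ ^ 2 := by
  rw [WithLp.prod_norm_sq_eq_of_L2]; simp

theorem herm_sym (M : E →L[ℝ] E) (s : ℝ) : (herm M s).IsSymmetric := by
  intro z w
  have h1 : ⟪herm M s z, w⟫ = ⟪M z.snd - s • z.fst, w.fst⟫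
      + ⟪ContinuousLinearMap.adjoint M z.fst - s • z.snd, w.snd⟫ := rfl
  have h2 : ⟪z, herm M s w⟫ = ⟪z.fst, M w.snd - s • w.fst⟫
      + ⟪z.snd, ContinuousLinearMap.adjoint M w.fst - s • w.snd⟫ := rfl
  rw [h1, h2]
  simp only [inner_sub_left, inner_sub_right, real_inner_smul_left, real_inner_smul_right,
    ContinuousLinearMap.adjoint_inner_left, ContinuousLinearMap.adjoint_inner_right]
  ring

theorem herm_add (M H : E →L[ℝ] E) (s : ℝ) (z : WithLp 2 (E × E)) :
    herm (M + H) s z = herm M s z + herm H 0 z := by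
  apply WithLp.ofLp_injective
  apply Prod.ext
  · show (M + H) z.snd - s • z.fst = (M z.snd - s • z.fst) + (H z.snd - (0 : ℝ) • z.fst)
    simp; abel
  · show ContinuousLinearMap.adjoint (M + H) z.fst - s • z.snd
      = (ContinuousLinearMap.adjoint M z.fst - s • z.snd)
        + (ContinuousLinearMap.adjoint H z.fst - (0 : ℝ) • z.snd)
    simp; abel

theorem herm_zero_norm_le (H : E →L[ℝ] E) (z : WithLp 2 (E × E)) :
    ‖herm H 0 z‖ ≤ ‖H‖ * ‖z‖ := by
  refine le_of_sq_le_sq ?_ (by positivity)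
  rw [herm_norm_sq, mul_pow, WithLp.prod_norm_sq_eq_of_L2 z]
  have h1 : ‖H z.snd - (0 : ℝ) • z.fst‖ ≤ ‖H‖ * ‖z.snd‖ := by
    simpa using H.le_opNorm z.snd
  have h2 : ‖ContinuousLinearMap.adjoint H z.fst - (0 : ℝ) • z.snd‖ ≤ ‖H‖ * ‖z.fst‖ := by
    have := (ContinuousLinearMap.adjoint H).le_opNorm z.fst
    simpa using this
  have h3 := pow_le_pow_left₀ (norm_nonneg _) h1 2
  have h4 := pow_le_pow_left₀ (norm_nonneg _) h2 2
  nlinarith

/-- The distance from `s` to the spectrum of the Hermitization of `M`. -/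
noncomputable def hs (M : E →L[ℝ] E) (s : ℝ) : ℝ :=
  ⨅ z : Metric.sphere (0 : WithLp 2 (E × E)) 1, ‖herm M s z‖

theorem hs_le (M : E →L[ℝ] E) (s : ℝ) {z : WithLp 2 (E × E)} (hz : ‖z‖ = 1) :
    hs M s ≤ ‖herm M s z‖ := by
  have hb : BddBelow (Set.range fun z : Metric.sphere (0 : WithLp 2 (E × E)) 1 => ‖herm M s z‖) :=
    ⟨0, by rintro _ ⟨z, rfl⟩; exact norm_nonneg _⟩
  exact ciInf_le hb ⟨z, by simpa using hz⟩

theorem hs_nonneg (M : E →L[ℝ] E) (s : ℝ) : 0 ≤ hs M s :=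
  Real.iInf_nonneg fun _ => norm_nonneg _

variable [FiniteDimensional ℝ E]

theorem hs_exists [Nontrivial E] (M : E →L[ℝ] E) (s : ℝ) :
    ∃ (z : WithLp 2 (E × E)) (μ : ℝ), ‖z‖ = 1 ∧ herm M s z = μ • z ∧ hs M s = |μ| ∧
      ∀ w, |μ| * ‖w‖ ≤ ‖herm M s w‖ := by
  have : FiniteDimensional ℝ (WithLp 2 (E × E)) :=
    (WithLp.linearEquiv 2 ℝ (E × E)).symm.finiteDimensional
  have : Nontrivial (WithLp 2 (E × E)) := (WithLp.linearEquiv 2 ℝ (E × E)).toEquiv.nontrivial
  obtain ⟨z, μ, hz, he, hw⟩ := exists_min_eig (herm M s) (herm_sym M s)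
  refine ⟨z, μ, hz, he, le_antisymm ?_ ?_, hw⟩
  · have := hs_le M s hz
    rwa [he, norm_smul, hz, mul_one, Real.norm_eq_abs] at this
  · have : Nonempty (Metric.sphere (0 : WithLp 2 (E × E)) 1) := ⟨⟨z, by simpa using hz⟩⟩
    refine le_ciInf fun w => ?_
    have h1 := hw w
    have h2 : ‖(w : WithLp 2 (E × E))‖ = 1 := by simpa using w.2
    rwa [h2, mul_one] at h1

theorem hs_add_le [Nontrivial E] (M H : E →L[ℝ] E) (s : ℝ) : hs (M + H) s ≤ hs M s + ‖H‖ := by
  obtain ⟨z, μ, hz, he, hh, _⟩ := hs_exists M s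
  calc hs (M + H) s ≤ ‖herm (M + H) s z‖ := hs_le _ _ hz
    _ = ‖herm M s z + herm H 0 z‖ := by rw [herm_add]
    _ ≤ ‖herm M s z‖ + ‖herm H 0 z‖ := norm_add_le _ _
    _ ≤ hs M s + ‖H‖ := by
      have h1 : ‖herm M s z‖ = hs M s := by rw [he, norm_smul, hz, mul_one, hh, Real.norm_eq_abs]
      have h2 := herm_zero_norm_le H z
      rw [hz, mul_one] at h2
      linarith

theorem hs_continuous [Nontrivial E] (s : ℝ) : Continuous (fun M : E →L[ℝ] E => hs M s) := by
  have : LipschitzWith 1 (fun M : E →L[ℝ] E => hs M s) := by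
    refine LipschitzWith.of_dist_le_mul fun M M' => ?_
    rw [Real.dist_eq, dist_eq_norm, abs_le]
    have h1 := hs_add_le M (M' - M) s
    have h2 := hs_add_le M' (M - M') s
    rw [add_sub_cancel] at h1 h2
    rw [← norm_neg, neg_sub] at h1
    constructor <;> simp <;> linarith
  exact this.continuous

/-- The spectrum of the Hermitization. -/
def Spec (M : E →L[ℝ] E) : Set ℝ :=
  {l | ∃ x y : E, (x ≠ 0 ∨ y ≠ 0) ∧ M y = l • x ∧ ContinuousLinearMap.adjoint M x = l • y}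

theorem hs_le_of_mem_Spec {M : E →L[ℝ] E} {l : ℝ} (hl : l ∈ Spec M) (s : ℝ) :
    hs M s ≤ |l - s| := by
  obtain ⟨x, y, hxy, h1, h2⟩ := hl
  set z : WithLp 2 (E × E) := WithLp.toLp 2 (x, y) with hz
  have hz0 : z ≠ 0 := by
    intro h0
    have hx : x = 0 := by
      have := congrArg WithLp.fst h0
      simpa [hz] using this
    have hy : y = 0 := by
      have := congrArg WithLp.snd h0
      simpa [hz] using this
    rcases hxy with h | h
    · exact h hx
    · exact h hy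
  have hzn : 0 < ‖z‖ := norm_pos_iff.2 hz0
  have he : herm M s z = (l - s) • z := by
    apply WithLp.ofLp_injective
    apply Prod.ext
    · show M y - s • x = (l - s) • x
      rw [h1, sub_smul]
    · show ContinuousLinearMap.adjoint M x - s • y = (l - s) • y
      rw [h2, sub_smul]
  have h3 : ‖(‖z‖⁻¹ : ℝ) • z‖ = 1 := by
    rw [norm_smul, norm_inv, norm_norm, inv_mul_cancel₀ hzn.ne']
  have h4 := hs_le M s h3
  rwa [map_smul, he, smul_comm, norm_smul, h3, mul_one, Real.norm_eq_abs] at h4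

theorem exists_mem_Spec [Nontrivial E] (M : E →L[ℝ] E) (s : ℝ) :
    ∃ l ∈ Spec M, |l - s| = hs M s := by
  obtain ⟨z, μ, hz, he, hh, _⟩ := hs_exists M s
  refine ⟨s + μ, ⟨z.fst, z.snd, ?_, ?_, ?_⟩, ?_⟩
  · by_contra hcon
    push Not at hcon
    have : z = 0 := by
      apply WithLp.ofLp_injective
      exact Prod.ext hcon.1 hcon.2
    rw [this] at hz
    simp at hz
  · have := congrArg WithLp.fst he
    rw [herm_fst, WithLp.smul_fst, sub_eq_iff_eq_add] at this
    rw [this, add_smul, add_comm]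
  · have := congrArg WithLp.snd he
    rw [herm_snd, WithLp.smul_snd, sub_eq_iff_eq_add] at this
    rw [this, add_smul, add_comm]
  · rw [hh]; simp

theorem adjoint_ker_of_ker (M : E →L[ℝ] E) {y : E} (hy : y ≠ 0) (hM : M y = 0) :
    ∃ x : E, x ≠ 0 ∧ ContinuousLinearMap.adjoint M x = 0 := by
  by_contra hcon
  push Not at hcon
  have hinj : Function.Injective (ContinuousLinearMap.adjoint M) := by
    rw [injective_iff_map_eq_zero]
    intro x hx
    by_contra hne
    exact hcon x hne hx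
  have hsurj : Function.Surjective (ContinuousLinearMap.adjoint M) := by
    have := LinearMap.injective_iff_surjective (K := ℝ) (V := E)
      (f := (ContinuousLinearMap.adjoint M : E →ₗ[ℝ] E))
    exact this.1 hinj
  obtain ⟨x, hx⟩ := hsurj y
  have : ⟪y, y⟫ = 0 := by
    nth_rewrite 2 [← hx]
    rw [ContinuousLinearMap.adjoint_inner_right, hM, inner_zero_left]
  exact hy (inner_self_eq_zero.1 this)

/-- A singular pair of unit vectors realizing `hs`. -/
theorem hs_pair [Nontrivial E] (M : E →L[ℝ] E) (s : ℝ) :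
    ∃ (u v : E) (l : ℝ), ‖u‖ = 1 ∧ ‖v‖ = 1 ∧ M v = l • u ∧
      ContinuousLinearMap.adjoint M u = l • v ∧ |l - s| = hs M s := by
  obtain ⟨l, ⟨x, y, hxy, h1, h2⟩, hl⟩ := exists_mem_Spec M s
  have key : ∃ x y : E, x ≠ 0 ∧ y ≠ 0 ∧ M y = l • x ∧ ContinuousLinearMap.adjoint M x = l • y ∧
      ‖x‖ = ‖y‖ := by
    by_cases hl0 : l = 0
    · subst hl0
      have : (∃ x : E, x ≠ 0 ∧ ContinuousLinearMap.adjoint M x = 0) ∧ ∃ y : E, y ≠ 0 ∧ M y = 0 := by
        rcases hxy with h | h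
        · refine ⟨⟨x, h, by simpa using h2⟩, ?_⟩
          have := adjoint_ker_of_ker (ContinuousLinearMap.adjoint M) h (by simpa using h2)
          rwa [ContinuousLinearMap.adjoint_adjoint] at this
        · exact ⟨adjoint_ker_of_ker M h (by simpa using h1), ⟨y, h, by simpa using h1⟩⟩
      obtain ⟨⟨x', hx', hx0⟩, y', hy', hy0⟩ := this
      refine ⟨‖x'‖⁻¹ • x', ‖y'‖⁻¹ • y', by simpa using hx', by simpa using hy', ?_, ?_, ?_⟩
      · rw [map_smul, hy0]; simp
      · rw [map_smul, hx0]; simp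
      · rw [norm_smul, norm_smul, norm_inv, norm_inv, norm_norm, norm_norm,
          inv_mul_cancel₀ (norm_ne_zero_iff.2 hx'), inv_mul_cancel₀ (norm_ne_zero_iff.2 hy')]
    · have h3 : l * ‖x‖ ^ 2 = l * ‖y‖ ^ 2 := by
        have e1 : ⟪M y, x⟫ = l * ‖x‖ ^ 2 := by
          rw [h1, real_inner_smul_left, real_inner_self_eq_norm_sq]
        have e2 : ⟪M y, x⟫ = l * ‖y‖ ^ 2 := by
          rw [← ContinuousLinearMap.adjoint_inner_right, h2, real_inner_smul_right,
            real_inner_self_eq_norm_sq]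
        rw [← e1, e2]
      have h4 : ‖x‖ ^ 2 = ‖y‖ ^ 2 := mul_left_cancel₀ hl0 h3
      have h5 : ‖x‖ = ‖y‖ := by
        have := abs_eq_abs.2 (sq_eq_sq_iff_eq_or_eq_neg.1 h4)
        simpa using this
      have hx0 : x ≠ 0 := by
        rcases hxy with h | h
        · exact h
        · intro h0
          rw [h0, norm_zero] at h5
          exact h (norm_eq_zero.1 h5.symm)
      have hy0 : y ≠ 0 := by
        intro h0
        rw [h0, norm_zero] at h5
        exact hx0 (norm_eq_zero.1 h5)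
      exact ⟨x, y, hx0, hy0, h1, h2, h5⟩
  obtain ⟨x, y, hx, hy, h1, h2, h3⟩ := key
  refine ⟨‖x‖⁻¹ • x, ‖x‖⁻¹ • y, l, ?_, ?_, ?_, ?_, hl⟩
  · rw [norm_smul, norm_inv, norm_norm, inv_mul_cancel₀ (norm_ne_zero_iff.2 hx)]
  · rw [norm_smul, norm_inv, norm_norm, h3, inv_mul_cancel₀ (norm_ne_zero_iff.2 hy)]
  · rw [map_smul, h1, smul_comm]
  · rw [map_smul, h2, smul_comm]

/-- Quadratic upper bound for `hs` along rank one perturbations. -/
theorem hs_rankOne [Nontrivial E] (M : E →L[ℝ] E) (s : ℝ) (h0 : 0 < hs M s) :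
    ∃ (u v : E) (τ : ℝ), ‖u‖ = 1 ∧ ‖v‖ = 1 ∧ |τ| = 1 ∧ ∀ b r : E,
      hs (M + rankOne ℝ b r) s ≤ hs M s + τ * (⟪u, b⟫ * ⟪r, v⟫)
        + ‖b‖ ^ 2 * ‖r‖ ^ 2 / (2 * hs M s) := by
  obtain ⟨u, v, l, hu, hv, h1, h2, hl⟩ := hs_pair M s
  set η := hs M s with hη
  set μ := l - s with hμ
  have hμ0 : μ ≠ 0 := by
    intro h
    rw [h, abs_zero] at hl
    exact h0.ne hl
  refine ⟨u, v, μ / |μ|, hu, hv, ?_, ?_⟩
  · rw [abs_div, abs_abs, div_self (abs_ne_zero.2 hμ0)]
  · intro b r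
    set c : ℝ := (Real.sqrt 2)⁻¹ with hc
    have hc2 : c ^ 2 = 1 / 2 := by
      rw [hc, inv_pow, Real.sq_sqrt (by norm_num)]; norm_num
    set z : WithLp 2 (E × E) := WithLp.toLp 2 (c • u, c • v) with hz
    have hzn : ‖z‖ = 1 := by
      have : ‖z‖ ^ 2 = 1 := by
        rw [WithLp.prod_norm_sq_eq_of_L2]
        show ‖c • u‖ ^ 2 + ‖c • v‖ ^ 2 = 1
        rw [norm_smul, norm_smul, hu, hv, mul_one, Real.norm_eq_abs, sq_abs, hc2]; norm_num
      exact (pow_eq_one_iff_of_nonneg (norm_nonneg z) two_ne_zero).1 this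
    set a := ‖herm (M + rankOne ℝ b r) s z‖ with ha
    have hle : hs (M + rankOne ℝ b r) s ≤ a := hs_le _ _ hzn
    set q := ⟪u, b⟫ * ⟪r, v⟫ with hq
    have hadj : ContinuousLinearMap.adjoint (rankOne ℝ b r) = rankOne ℝ r b := by
      rw [adjoint_rankOne]
    have ha2 : a ^ 2 ≤ μ ^ 2 + 2 * μ * q + ‖b‖ ^ 2 * ‖r‖ ^ 2 := by
      have e1 : a ^ 2 = ‖c • (μ • u + ⟪r, v⟫ • b)‖ ^ 2 + ‖c • (μ • v + ⟪b, u⟫ • r)‖ ^ 2 := by
        rw [ha, herm_norm_sq]
        congr 3
        · show (M + rankOne ℝ b r) (c • v) - s • (c • u) = c • (μ • u + ⟪r, v⟫ • b)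
          rw [map_smul, add_apply, h1, rankOne_apply, hμ, sub_smul]
          module
        · show ContinuousLinearMap.adjoint (M + rankOne ℝ b r) (c • u) - s • (c • v)
            = c • (μ • v + ⟪b, u⟫ • r)
          rw [map_smul, map_add, add_apply, h2, hadj, rankOne_apply, hμ,
            sub_smul]
          module
      have e2 : ‖c • (μ • u + ⟪r, v⟫ • b)‖ ^ 2
          = 1 / 2 * (μ ^ 2 + 2 * μ * q + ⟪r, v⟫ ^ 2 * ‖b‖ ^ 2) := by
        rw [norm_smul, mul_pow, Real.norm_eq_abs, sq_abs, hc2, norm_add_sq_real, norm_smul,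
          norm_smul, hu, real_inner_smul_left, real_inner_smul_right, Real.norm_eq_abs,
          Real.norm_eq_abs, mul_pow, mul_pow, sq_abs, sq_abs, hq]
        ring
      have e3 : ‖c • (μ • v + ⟪b, u⟫ • r)‖ ^ 2
          = 1 / 2 * (μ ^ 2 + 2 * μ * q + ⟪b, u⟫ ^ 2 * ‖r‖ ^ 2) := by
        rw [norm_smul, mul_pow, Real.norm_eq_abs, sq_abs, hc2, norm_add_sq_real, norm_smul,
          norm_smul, hv, real_inner_smul_left, real_inner_smul_right, Real.norm_eq_abs,
          Real.norm_eq_abs, mul_pow, mul_pow, sq_abs, sq_abs, hq, real_inner_comm v r,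
          real_inner_comm u b]
        ring
      have e4 : ⟪r, v⟫ ^ 2 ≤ ‖r‖ ^ 2 := by
        have := abs_real_inner_le_norm r v
        rw [hv, mul_one] at this
        rw [← sq_abs]
        exact pow_le_pow_left₀ (abs_nonneg _) this 2
      have e5 : ⟪b, u⟫ ^ 2 ≤ ‖b‖ ^ 2 := by
        have := abs_real_inner_le_norm b u
        rw [hu, mul_one] at this
        rw [← sq_abs]
        exact pow_le_pow_left₀ (abs_nonneg _) this 2
      rw [e1, e2, e3]
      nlinarith [mul_le_mul_of_nonneg_right e4 (sq_nonneg ‖b‖),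
        mul_le_mul_of_nonneg_right e5 (sq_nonneg ‖r‖)]
    have hη2 : η ^ 2 = μ ^ 2 := by rw [← hl, sq_abs]
    have hfin : a ≤ η + μ / |μ| * q + ‖b‖ ^ 2 * ‖r‖ ^ 2 / (2 * η) := by
      have h3 : 2 * a * η ≤ a ^ 2 + η ^ 2 := by nlinarith [sq_nonneg (a - η)]
      have h4 : a * (2 * η) ≤ (η + μ / |μ| * q + ‖b‖ ^ 2 * ‖r‖ ^ 2 / (2 * η)) * (2 * η) := by
        have h5 : (η + μ / |μ| * q + ‖b‖ ^ 2 * ‖r‖ ^ 2 / (2 * η)) * (2 * η)
            = 2 * η ^ 2 + 2 * (μ / |μ| * η) * q + ‖b‖ ^ 2 * ‖r‖ ^ 2 := by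
          field_simp
        have h6 : μ / |μ| * η = μ := by
          rw [← hl]; field_simp
        rw [h5, h6]
        nlinarith
      exact le_of_mul_le_mul_right h4 (by positivity)
    exact hle.trans hfin

end herm

end Pool.Agent.SSTW
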