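import Mathlib

set_option autoImplicit false

namespace Pool.Agent.SSTW

open MeasureTheory Set

/-- If almost every level `t` in `(0, ε)` is attained at most `m` times by `φ` on a period, then the
total variation of `min φ ε` along a regular grid is at most `m ε`. -/
theorem tv_bound {φ : ℝ → ℝ} (hφ : Continuous φ) (h0 : ∀ θ, 0 ≤ φ θ) {ε : ℝ} (m : ℕ)
    {Bad : Set ℝ} (hBad : Bad.Countable)
    (hc : ∀ t ∈ Ioo (0 : ℝ) ε, t ∉ Bad →
      {θ ∈ Ico (0 : ℝ) (2 * Real.pi) | φ θ = t}.encard ≤ m) {N : ℕ} (hN : 0 < N) :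
    ∑ j ∈ Finset.range N,
      |min (φ (2 * Real.pi / N * (j + 1 : ℕ))) ε - min (φ (2 * Real.pi / N * j)) ε| ≤ m * max ε 0 := by
  classical
  have hN' : (0 : ℝ) < N := by exact_mod_cast hN
  set δ : ℝ := 2 * Real.pi / N with hδ
  have hδ0 : 0 < δ := by positivity
  set ψ : ℝ → ℝ := fun θ => min (φ θ) ε with hψ
  have hψc : Continuous ψ := hφ.min continuous_const
  set J : ℕ → Set ℝ := fun j => Ioo (min (ψ (δ * j)) (ψ (δ * (j + 1 : ℕ))))
    (max (ψ (δ * j)) (ψ (δ * (j + 1 : ℕ)))) with hJ
  have hvol : ∀ j, volume (J j) = ENNReal.ofReal |ψ (δ * (j + 1 : ℕ)) - ψ (δ * j)| := by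
    intro j
    rw [hJ]
    simp only [Real.volume_Ioo]
    congr 1
    rw [max_sub_min_eq_abs]
  have hroot : ∀ j : ℕ, ∀ t ∈ J j, ∃ x ∈ Ioo (δ * j) (δ * (j + 1 : ℕ)), φ x = t ∧ t < ε := by
    intro j t ht
    have hle : δ * j ≤ δ * (j + 1 : ℕ) := by
      push_cast; nlinarith
    have h1 : ∃ x ∈ Ioo (δ * j) (δ * (j + 1 : ℕ)), ψ x = t := by
      rcases le_total (ψ (δ * j)) (ψ (δ * (j + 1 : ℕ))) with h | h
      · have ht' : t ∈ Ioo (ψ (δ * j)) (ψ (δ * (j + 1 : ℕ))) := by
          simpa only [hJ, min_eq_left h, max_eq_right h] using ht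
        exact intermediate_value_Ioo hle hψc.continuousOn ht'
      · have ht' : t ∈ Ioo (ψ (δ * (j + 1 : ℕ))) (ψ (δ * j)) := by
          simpa only [hJ, min_eq_right h, max_eq_left h] using ht
        exact intermediate_value_Ioo' hle hψc.continuousOn ht'
    have hlt : t < ε := by
      have := ht.2
      simp only [hψ] at this
      rcases lt_max_iff.1 this with h | h
      · exact h.trans_le (min_le_right _ _)
      · exact h.trans_le (min_le_right _ _)
    obtain ⟨x, hx, hxt⟩ := h1
    refine ⟨x, hx, ?_, hlt⟩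
    simp only [hψ] at hxt
    rcases min_choice (φ x) ε with h | h
    · rw [h] at hxt; exact hxt
    · rw [h] at hxt; exact absurd hxt hlt.ne'
  have hpos : ∀ j : ℕ, ∀ t ∈ J j, 0 ≤ ε → 0 < t := by
    intro j t ht hε
    have := ht.1
    refine lt_of_le_of_lt ?_ this
    exact le_min (le_min (h0 _) hε) (le_min (h0 _) hε)
  -- the case of a nonpositive `ε`
  rcases le_or_gt ε 0 with hε | hε
  · have hz : ∀ θ, ψ θ = ε := fun θ => min_eq_right (hε.trans (h0 θ))
    have : ∑ j ∈ Finset.range N, |ψ (δ * (j + 1 : ℕ)) - ψ (δ * j)| = 0 := by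
      simp [hz]
    rw [this, max_eq_right hε]; simp
  rw [max_eq_left hε.le]
  -- pointwise count
  have hcount : ∀ t, t ∉ Bad → ∑ j ∈ Finset.range N, (J j).indicator (fun _ => (1 : ENNReal)) t
      ≤ (Ioo (0 : ℝ) ε).indicator (fun _ => (m : ENNReal)) t := by
    intro t htB
    have e1 : ∑ j ∈ Finset.range N, (J j).indicator (fun _ => (1 : ENNReal)) t
        = (((Finset.range N).filter (fun j => t ∈ J j)).card : ENNReal) := by
      simp only [Set.indicator_apply]
      rw [Finset.sum_ite]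
      simp
    rw [e1]
    by_cases hS : ((Finset.range N).filter (fun j => t ∈ J j)) = ∅
    · rw [hS]; simp
    · obtain ⟨j₀, hj₀⟩ := Finset.nonempty_iff_ne_empty.2 hS
      have hj₀' := (Finset.mem_filter.1 hj₀).2
      have htI : t ∈ Ioo (0 : ℝ) ε := ⟨hpos _ t hj₀' hε.le, (hroot _ t hj₀').choose_spec.2.2⟩
      rw [Set.indicator_of_mem htI]
      have hch : ∀ j : ℕ, ∃ x : ℝ, t ∈ J j → x ∈ Ioo (δ * j) (δ * (j + 1 : ℕ)) ∧ φ x = t := by
        intro j
        by_cases h : t ∈ J j
        · obtain ⟨x, hx, hxt, _⟩ := hroot j t h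
          exact ⟨x, fun _ => ⟨hx, hxt⟩⟩
        · exact ⟨0, fun h' => absurd h' h⟩
      choose g hg using hch
      have hinj : Set.InjOn g (((Finset.range N).filter (fun j => t ∈ J j) : Finset ℕ) : Set ℕ) := by
        intro i hi j hj hij
        have hi' := (hg i (Finset.mem_filter.1 (Finset.mem_coe.1 hi)).2).1
        have hj' := (hg j (Finset.mem_filter.1 (Finset.mem_coe.1 hj)).2).1
        rw [hij] at hi'
        by_contra hne
        rcases lt_or_gt_of_ne hne with h | h
        · have h2 : (i : ℝ) + 1 ≤ j := by exact_mod_cast h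
          have := hi'.2.trans_le (show δ * ((i + 1 : ℕ) : ℝ) ≤ δ * j by push_cast; nlinarith)
          exact absurd hj'.1 (not_lt.2 this.le)
        · have h2 : (j : ℝ) + 1 ≤ i := by exact_mod_cast h
          have := hj'.2.trans_le (show δ * ((j + 1 : ℕ) : ℝ) ≤ δ * i by push_cast; nlinarith)
          exact absurd hi'.1 (not_lt.2 this.le)
      have hsub : g '' (((Finset.range N).filter (fun j => t ∈ J j) : Finset ℕ) : Set ℕ)
          ⊆ {θ ∈ Ico (0 : ℝ) (2 * Real.pi) | φ θ = t} := by
        rintro _ ⟨j, hj, rfl⟩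
        have hj1 := Finset.mem_filter.1 (Finset.mem_coe.1 hj)
        have hj' := hg j hj1.2
        refine ⟨⟨?_, ?_⟩, hj'.2⟩
        · have : 0 ≤ δ * (j : ℝ) := by positivity
          exact this.trans hj'.1.1.le
        · refine hj'.1.2.trans_le ?_
          have h3 : ((j + 1 : ℕ) : ℝ) ≤ N := by
            exact_mod_cast Finset.mem_range.1 hj1.1
          calc δ * ((j + 1 : ℕ) : ℝ) ≤ δ * N := by gcongr
            _ = 2 * Real.pi := by rw [hδ]; field_simp
      have hle : ((((Finset.range N).filter (fun j => t ∈ J j)).card : ℕ) : ℕ∞) ≤ m := by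
        rw [← Set.encard_coe_eq_coe_finsetCard, ← hinj.encard_image]
        exact (Set.encard_le_encard hsub).trans (hc t htI htB)
      have hle' : ((Finset.range N).filter (fun j => t ∈ J j)).card ≤ m := by exact_mod_cast hle
      exact_mod_cast hle'
  have hJm : ∀ j, MeasurableSet (J j) := fun j => measurableSet_Ioo
  have hsum : ∑ j ∈ Finset.range N, ENNReal.ofReal |ψ (δ * (j + 1 : ℕ)) - ψ (δ * j)|
      ≤ ENNReal.ofReal (m * ε) := by
    calc ∑ j ∈ Finset.range N, ENNReal.ofReal |ψ (δ * (j + 1 : ℕ)) - ψ (δ * j)|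
        = ∑ j ∈ Finset.range N, ∫⁻ t, (J j).indicator (fun _ => (1 : ENNReal)) t := by
          refine Finset.sum_congr rfl fun j _ => ?_
          rw [← hvol, lintegral_indicator_const (hJm j)]; simp
      _ = ∫⁻ t, ∑ j ∈ Finset.range N, (J j).indicator (fun _ => (1 : ENNReal)) t := by
          rw [lintegral_finsetSum]
          exact fun j _ => measurable_const.indicator (hJm j)
      _ ≤ ∫⁻ t, (Ioo (0 : ℝ) ε).indicator (fun _ => (m : ENNReal)) t := by
          refine lintegral_mono_ae ?_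
          have : ∀ᵐ t : ℝ, t ∉ Bad := by
            rw [ae_iff]; simpa using hBad.measure_zero volume
          filter_upwards [this] with t ht using hcount t ht
      _ = ENNReal.ofReal (m * ε) := by
          rw [lintegral_indicator_const measurableSet_Ioo, Real.volume_Ioo, sub_zero,
            ENNReal.ofReal_mul (by positivity), ENNReal.ofReal_natCast]
  rw [← ENNReal.ofReal_sum_of_nonneg (fun _ _ => abs_nonneg _)] at hsum
  exact (ENNReal.ofReal_le_ofReal_iff (by positivity)).1 hsum

end Pool.Agent.SSTW
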