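import Pool.Agent.Lib.SSTW.Trig
import Pool.Agent.Lib.SSTW.TV
import Pool.Agent.Lib.SSTW.Herm

set_option autoImplicit false

namespace Pool.Agent.SSTW

open scoped RealInnerProductSpace InnerProduct
open InnerProductSpace Set

variable {E : Type*} [NormedAddCommGroup E] [InnerProductSpace ℝ E] [CompleteSpace E]
  [FiniteDimensional ℝ E]

/-- The curve of rank one perturbations `θ ↦ M + u ⊗ (cos θ a + sin θ b)`. -/
noncomputable def curve (M : E →L[ℝ] E) (u a b : E) (θ : ℝ) : E →L[ℝ] E :=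
  M + rankOne ℝ u (Real.cos θ • a + Real.sin θ • b)

theorem curve_continuous (M : E →L[ℝ] E) (u a b : E) : Continuous (curve M u a b) := by
  unfold curve
  refine continuous_const.add ?_
  have : Continuous fun θ : ℝ => Real.cos θ • a + Real.sin θ • b := by fun_prop
  exact (rankOne ℝ u).continuous.comp this

/-- All levels but countably many are attained at most four times in a period by the spectrum of
the Hermitization along the curve. -/
theorem curve_count (M : E →L[ℝ] E) {u : E} (hu : u ≠ 0) (a b : E) :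
    ∃ Bad : Set ℝ, Bad.Countable ∧ ∀ l, l ∉ Bad →
      {θ ∈ Ico (0 : ℝ) (2 * Real.pi) | l ∈ Spec (curve M u a b θ)}.encard ≤ 4 := by
  classical
  set β : E := ContinuousLinearMap.adjoint M u with hβ
  have hun : 0 < ‖u‖ := norm_pos_iff.2 hu
  set K : E →ₗ[ℝ] E := (ContinuousLinearMap.adjoint M ∘L M
    - (‖u‖ ^ 2)⁻¹ • rankOne ℝ β β : E →L[ℝ] E).toLinearMap with hK
  set Y : ℝ → E := fun θ => Real.cos θ • (‖u‖ • a) + Real.sin θ • (‖u‖ • b) + ‖u‖⁻¹ • β with hY
  set N : ℝ → (E →ₗ[ℝ] E) := fun θ => K + (rankOne ℝ (Y θ) (Y θ) : E →L[ℝ] E).toLinearMap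
    with hN
  have hKapp : ∀ v, K v = ContinuousLinearMap.adjoint M (M v)
      - (‖u‖ ^ 2)⁻¹ • (⟪β, v⟫ • β) := by
    intro v; rw [hK]; simp
  have hNapp : ∀ θ v, N θ v = K v + ⟪Y θ, v⟫ • Y θ := by
    intro θ v; rw [hN]; simp
  -- the operator `M_θᵀ M_θ`
  have hMM : ∀ θ v, ContinuousLinearMap.adjoint (curve M u a b θ) (curve M u a b θ v) = N θ v := by
    intro θ v
    set y : E := Real.cos θ • a + Real.sin θ • b with hy
    have hYy : Y θ = ‖u‖ • y + ‖u‖⁻¹ • β := by
      rw [hY, hy]; module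
    have h1 : curve M u a b θ v = M v + ⟪y, v⟫ • u := by
      show (M + rankOne ℝ u y) v = _
      rw [add_apply, rankOne_apply]
    have h2 : ∀ x, ContinuousLinearMap.adjoint (curve M u a b θ) x
        = ContinuousLinearMap.adjoint M x + ⟪u, x⟫ • y := by
      intro x
      show ContinuousLinearMap.adjoint (M + rankOne ℝ u y) x = _
      rw [map_add, add_apply, adjoint_rankOne, rankOne_apply]
    rw [h2, h1, hNapp, hKapp, hYy]
    clear_value y
    have h3 : ⟪u, M v⟫ = ⟪β, v⟫ := by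
      rw [hβ, ContinuousLinearMap.adjoint_inner_left]
    rw [map_add, map_smul, ← hβ, inner_add_right, real_inner_smul_right,
      real_inner_self_eq_norm_sq, h3, inner_add_left, real_inner_smul_left, real_inner_smul_left]
    have h4 : ‖u‖ * ‖u‖⁻¹ = 1 := mul_inv_cancel₀ hun.ne'
    have h5 : (‖u‖ * ⟪y, v⟫ + ‖u‖⁻¹ * ⟪β, v⟫) • (‖u‖ • y + ‖u‖⁻¹ • β)
        = (‖u‖ ^ 2 * ⟪y, v⟫ + (‖u‖ * ‖u‖⁻¹) * ⟪β, v⟫) • y
          + ((‖u‖ * ‖u‖⁻¹) * ⟪y, v⟫ + (‖u‖ ^ 2)⁻¹ * ⟪β, v⟫) • β := by
      rw [show (‖u‖ ^ 2)⁻¹ = ‖u‖⁻¹ * ‖u‖⁻¹ by rw [← mul_inv, sq]]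
      module
    rw [h5, h4]
    module
  -- the exceptional set
  set F : Set ℝ := {μ | Module.End.HasEigenvalue K μ} ∪ {μ | Module.End.HasEigenvalue (N 0) μ}
    with hF
  have hFfin : F.Finite := (Module.End.finite_hasEigenvalue K).union
    (Module.End.finite_hasEigenvalue (N 0))
  refine ⟨{0} ∪ {l | l ^ 2 ∈ F}, ?_, ?_⟩
  · refine (countable_singleton 0).union ?_
    have : {l : ℝ | l ^ 2 ∈ F} ⊆ (fun x => Real.sqrt x) '' F ∪ (fun x => - Real.sqrt x) '' F := by
      intro l hl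
      rcases le_total 0 l with h | h
      · left; exact ⟨l ^ 2, hl, Real.sqrt_sq h⟩
      · right
        refine ⟨l ^ 2, hl, ?_⟩
        show - Real.sqrt (l ^ 2) = l
        rw [Real.sqrt_sq_eq_abs, abs_of_nonpos h, neg_neg]
    exact ((hFfin.image _).union (hFfin.image _)).countable.mono this
  · intro l hl
    have hl0 : l ≠ 0 := fun h => hl (Or.inl h)
    have hlK : ¬ Module.End.HasEigenvalue K (l ^ 2) := fun h => hl (Or.inr (Or.inl h))
    have hlN : ¬ Module.End.HasEigenvalue (N 0) (l ^ 2) := fun h => hl (Or.inr (Or.inr h))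
    have hinj : Function.Injective (K - (l ^ 2) • (LinearMap.id : E →ₗ[ℝ] E)) := by
      rw [← LinearMap.ker_eq_bot]
      by_contra hne
      apply hlK
      rw [Module.End.hasEigenvalue_iff, Module.End.eigenspace_def]
      exact hne
    set R := (LinearEquiv.ofInjectiveEndo _ hinj).symm with hR
    have hRr : ∀ x, K (R x) - (l ^ 2) • R x = x := by
      intro x
      have := (LinearEquiv.ofInjectiveEndo _ hinj).apply_symm_apply x
      exact this
    have hRl : ∀ x, R (K x - (l ^ 2) • x) = x := by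
      intro x
      have := (LinearEquiv.ofInjectiveEndo _ hinj).symm_apply_apply x
      exact this
    -- the trigonometric polynomial
    set A : E := ‖u‖ • a with hA
    set B : E := ‖u‖ • b with hB
    set C : E := ‖u‖⁻¹ • β with hC
    have hf : ∀ θ, 1 + ⟪Y θ, R (Y θ)⟫ = trig (1 + ⟪C, R C⟫) (⟪A, R C⟫ + ⟪C, R A⟫)
        (⟪B, R C⟫ + ⟪C, R B⟫) ⟪A, R A⟫ (⟪A, R B⟫ + ⟪B, R A⟫) ⟪B, R B⟫ θ := by
      intro θ
      simp only [hY, trig, map_add, map_smul, inner_add_left, inner_add_right,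
        real_inner_smul_left, real_inner_smul_right]
      ring
    have hf0 : 1 + ⟪Y 0, R (Y 0)⟫ ≠ 0 := by
      intro h0
      apply hlN
      refine Module.End.hasEigenvalue_of_hasEigenvector (x := R (Y 0)) ⟨?_, ?_⟩
      · rw [Module.End.mem_eigenspace_iff, hNapp]
        have h1 : K (R (Y 0)) = (l ^ 2) • R (Y 0) + Y 0 := by
          have := hRr (Y 0)
          rw [sub_eq_iff_eq_add] at this
          rw [this, add_comm]
        rw [h1]
        have h2 : ⟪Y 0, R (Y 0)⟫ = -1 := by linarith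
        rw [h2]; module
      · intro hR0
        rw [hR0, inner_zero_right] at h0
        norm_num at h0
    rw [hf] at hf0
    refine (Set.encard_le_encard ?_).trans (trig_zeros _ _ _ _ _ _ hf0)
    rintro θ ⟨hθ, x, y, hxy, h1, h2⟩
    refine ⟨hθ, ?_⟩
    rw [← hf]
    have hy0 : y ≠ 0 := by
      intro hy
      rw [hy, map_zero] at h1
      have hx : x = 0 := by
        rcases smul_eq_zero.1 h1.symm with h | h
        · exact absurd h hl0
        · exact h
      rcases hxy with h | h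
      · exact h hx
      · exact h hy
    have h3 : N θ y = (l ^ 2) • y := by
      rw [← hMM, h1, map_smul, h2, smul_smul, sq]
    rw [hNapp] at h3
    have h4 : K y - (l ^ 2) • y = (-⟪Y θ, y⟫) • Y θ := by
      rw [← h3]; module
    have h5 : y = (-⟪Y θ, y⟫) • R (Y θ) := by
      have := hRl y
      rw [h4, map_smul] at this
      exact this.symm
    have h6 : ⟪Y θ, y⟫ ≠ 0 := by
      intro h
      rw [h, neg_zero, zero_smul] at h5
      exact hy0 h5
    have h7 : ⟪Y θ, y⟫ = -⟪Y θ, y⟫ * ⟪Y θ, R (Y θ)⟫ := by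
      nth_rewrite 1 [h5]
      rw [real_inner_smul_right]
    have h8 : ⟪Y θ, y⟫ * (1 + ⟪Y θ, R (Y θ)⟫) = 0 := by linarith
    rcases mul_eq_zero.1 h8 with h | h
    · exact absurd h h6
    · exact h

/-- Total variation of `min (hs ·) ε` along a period. -/
theorem curve_tv [Nontrivial E] (M : E →L[ℝ] E) {u : E} (hu : u ≠ 0) (a b : E) (s ε : ℝ)
    (hε : 0 ≤ ε) {N : ℕ} (hN : 0 < N) :
    ∑ j ∈ Finset.range N,
      |min (hs (curve M u a b (2 * Real.pi / N * (j + 1 : ℕ))) s) ε
        - min (hs (curve M u a b (2 * Real.pi / N * j)) s) ε| ≤ 8 * ε := by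
  obtain ⟨Bad, hBad, hcount⟩ := curve_count M hu a b
  have h := tv_bound (φ := fun θ => hs (curve M u a b θ) s)
    ((hs_continuous s).comp (curve_continuous M u a b)) (fun θ => hs_nonneg _ _) (ε := ε) 8
    (Bad := (fun l => l - s) '' Bad ∪ (fun l => s - l) '' Bad)
    ((hBad.image _).union (hBad.image _)) ?_ hN
  · rw [max_eq_left hε] at h
    exact_mod_cast h
  · intro t ht htB
    have h1 : s + t ∉ Bad := fun h => htB (Or.inl ⟨s + t, h, by ring⟩)
    have h2 : s - t ∉ Bad := fun h => htB (Or.inr ⟨s - t, h, by ring⟩)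
    have hsub : {θ ∈ Ico (0 : ℝ) (2 * Real.pi) | hs (curve M u a b θ) s = t}
        ⊆ {θ ∈ Ico (0 : ℝ) (2 * Real.pi) | s + t ∈ Spec (curve M u a b θ)}
          ∪ {θ ∈ Ico (0 : ℝ) (2 * Real.pi) | s - t ∈ Spec (curve M u a b θ)} := by
      rintro θ ⟨hθ, hθt⟩
      obtain ⟨l, hl, hls⟩ := exists_mem_Spec (curve M u a b θ) s
      rw [hθt] at hls
      rcases abs_eq ht.1.le |>.1 hls with h | h
      · left; refine ⟨hθ, ?_⟩
        rw [show s + t = l by linarith]; exact hl
      · right; refine ⟨hθ, ?_⟩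
        rw [show s - t = l by linarith]; exact hl
    calc _ ≤ _ := Set.encard_le_encard hsub
      _ ≤ _ := Set.encard_union_le _ _
      _ ≤ 4 + 4 := add_le_add (hcount _ h1) (hcount _ h2)
      _ = ((8 : ℕ) : ℕ∞) := by norm_num

end Pool.Agent.SSTW
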