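import Mathlib

/-!
# Definitions used in the statement
-/

set_option autoImplicit false

namespace Pool.Agent.SSTW

open MeasureTheory ProbabilityTheory

variable {n : ℕ}

/-- The law of an `n × n` matrix with independent standard Gaussian entries. -/
noncomputable def gaussMatrix (n : ℕ) : Measure (Fin n → Fin n → ℝ) :=
  Measure.pi fun _ => Measure.pi fun _ => gaussianReal 0 1

/-- The number of singular values of `M` in `[a, b]`, counted with multiplicity: the number of
roots `x` of the characteristic polynomial of `Mᵀ M`, counted with multiplicity, with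
`a ≤ √x ≤ b`. -/
noncomputable def singCount (M : Matrix (Fin n) (Fin n) ℝ) (a b : ℝ) : ℕ :=
  ((M.transpose * M).charpoly.roots.filter fun x => a ≤ Real.sqrt x ∧ Real.sqrt x ≤ b).card

/-- The mean of the Euclidean norm of `B⁻¹ z` for a standard Gaussian vector `z`. -/
noncomputable def meanInv (B : Matrix (Fin n) (Fin n) ℝ) : ℝ :=
  ∫ z, Real.sqrt (∑ i, (B⁻¹.mulVec z i) ^ 2) ∂(Measure.pi fun _ : Fin n => gaussianReal 0 1)

end Pool.Agent.SSTW
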