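import Pool.Agent.Lib.SSTW.Prob

set_option autoImplicit false
set_option maxHeartbeats 1000000

namespace Pool.Agent.SSTW

open scoped RealInnerProductSpace InnerProduct ENNReal
open InnerProductSpace Set MeasureTheory ProbabilityTheory

section spec

variable {V : Type*} [NormedAddCommGroup V] [InnerProductSpace ℝ V] [CompleteSpace V]
  [FiniteDimensional ℝ V]

theorem Spec_finite (M : V →L[ℝ] V) : (Spec M).Finite := by
  have : FiniteDimensional ℝ (WithLp 2 (V × V)) :=
    (WithLp.linearEquiv 2 ℝ (V × V)).symm.finiteDimensional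
  refine (Module.End.finite_hasEigenvalue (herm M 0)).subset ?_
  rintro l ⟨x, y, hxy, h1, h2⟩
  refine Module.End.hasEigenvalue_of_hasEigenvector (x := WithLp.toLp 2 (x, y)) ⟨?_, ?_⟩
  · rw [Module.End.mem_eigenspace_iff]
    apply WithLp.ofLp_injective
    apply Prod.ext
    · show M y - (0 : ℝ) • x = l • x
      rw [h1, zero_smul, sub_zero]
    · show ContinuousLinearMap.adjoint M x - (0 : ℝ) • y = l • y
      rw [h2, zero_smul, sub_zero]
  · intro h0
    have hx : x = 0 := by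
      have := congrArg WithLp.fst h0
      simpa using this
    have hy : y = 0 := by
      have := congrArg WithLp.snd h0
      simpa using this
    rcases hxy with h | h
    · exact h hx
    · exact h hy

variable [Nontrivial V]

theorem hs_lip_s (M : V →L[ℝ] V) (s s' : ℝ) : hs M s' ≤ hs M s + |s - s'| := by
  obtain ⟨l, hl, hls⟩ := exists_mem_Spec M s
  calc hs M s' ≤ |l - s'| := hs_le_of_mem_Spec hl s'
    _ = |(l - s) + (s - s')| := by ring_nf
    _ ≤ |l - s| + |s - s'| := abs_add_le _ _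
    _ = hs M s + |s - s'| := by rw [hls]

theorem hs_continuous2 : Continuous (fun p : (V →L[ℝ] V) × ℝ => hs p.1 p.2) := by
  have : LipschitzWith 2 (fun p : (V →L[ℝ] V) × ℝ => hs p.1 p.2) := by
    refine LipschitzWith.of_dist_le_mul fun p q => ?_
    have h1 : ∀ p q : (V →L[ℝ] V) × ℝ, hs p.1 p.2 ≤ hs q.1 q.2 + 2 * dist p q := by
      intro p q
      have e1 := hs_add_le q.1 (p.1 - q.1) p.2
      rw [add_sub_cancel] at e1
      have e2 := hs_lip_s q.1 q.2 p.2
      have e3 : ‖p.1 - q.1‖ ≤ dist p q := by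
        rw [← dist_eq_norm]; exact le_max_left _ _
      have e4 : |q.2 - p.2| ≤ dist p q := by
        rw [abs_sub_comm, ← Real.dist_eq]; exact le_max_right _ _
      linarith
    rw [Real.dist_eq, abs_le]
    have h2 := h1 p q
    have h3 := h1 q p
    rw [dist_comm q p] at h3
    constructor
    · show -((2 : ℝ) * dist p q) ≤ _
      linarith
    · show _ ≤ (2 : ℝ) * dist p q
      linarith
  exact this.continuous

theorem mem_Spec_of_hs_eq_zero {M : V →L[ℝ] V} {s : ℝ} (h : hs M s = 0) : s ∈ Spec M := by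
  obtain ⟨l, hl, hls⟩ := exists_mem_Spec M s
  rw [h, abs_eq_zero, sub_eq_zero] at hls
  rw [← hls]; exact hl

/-- For small `ε` the set of levels which are `ε`-close to the spectrum has the full measure. -/
theorem vol_lower (M : V →L[ℝ] V) (a b : ℝ) : ∃ ε₀ : ℝ, 0 < ε₀ ∧ ∀ ε : ℝ, 0 < ε → ε ≤ ε₀ →
    ((Spec M ∩ Ioo a b).encard : ℝ≥0∞) * ENNReal.ofReal (2 * ε)
      ≤ volume {s | s ∈ Ioo a b ∧ 0 < hs M s ∧ hs M s < ε} := by
  classical
  rcases le_or_gt b a with hab | hab
  · refine ⟨1, one_pos, fun ε _ _ => ?_⟩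
    rw [Ioo_eq_empty (not_lt.2 hab)]
    simp
  have hfin : (Spec M ∩ Ioo a b).Finite := (Spec_finite M).inter_of_left _
  set F : Finset ℝ := hfin.toFinset with hF
  have hmemF : ∀ l, l ∈ F ↔ l ∈ Spec M ∧ l ∈ Ioo a b := by
    intro l; rw [hF, Set.Finite.mem_toFinset]; rfl
  set F' : Set ℝ := (Spec M ∩ Ioo a b) ∪ {a, b} with hF'
  have hF'fin : F'.Finite := hfin.union ((finite_singleton b).insert a)
  have hF'nt : F'.Nontrivial :=
    ⟨a, Or.inr (by simp), b, Or.inr (by simp), hab.ne⟩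
  have hD : 0 < F'.infsep := (Set.Finite.infsep_pos_iff_nontrivial hF'fin).2 hF'nt
  have hsep : ∀ x ∈ F', ∀ y ∈ F', x ≠ y → F'.infsep ≤ dist x y := by
    intro x hx y hy hxy
    exact Set.infsep_le_dist_of_mem hx hy hxy
  refine ⟨F'.infsep / 2, by positivity, fun ε hε hεD => ?_⟩
  set U : Set ℝ := ⋃ l ∈ F, Ioo (l - ε) (l + ε) with hU
  -- measure of the union
  have hdisj : Set.PairwiseDisjoint (↑F) (fun l : ℝ => Ioo (l - ε) (l + ε)) := by
    intro l hl l' hl' hne
    have h1 := hsep l (Or.inl ((hmemF l).1 hl)) l' (Or.inl ((hmemF l').1 hl')) hne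
    rw [Real.dist_eq] at h1
    rw [Function.onFun, Set.disjoint_left]
    intro s hs hs'
    rcases abs_cases (l - l') with h2 | h2 <;> linarith [hs.1, hs.2, hs'.1, hs'.2]
  have hvolU : volume U = ((Spec M ∩ Ioo a b).encard : ℝ≥0∞) * ENNReal.ofReal (2 * ε) := by
    rw [hU, measure_biUnion_finset hdisj fun _ _ => measurableSet_Ioo]
    have h1 : ∀ l ∈ F, volume (Ioo (l - ε) (l + ε)) = ENNReal.ofReal (2 * ε) := by
      intro l _
      rw [Real.volume_Ioo]; congr 1; ring
    rw [Finset.sum_congr rfl h1, Finset.sum_const, nsmul_eq_mul]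
    congr 1
    rw [Set.Finite.encard_eq_coe_toFinset_card hfin]
    rfl
  have hsub : U \ Spec M ⊆ {s | s ∈ Ioo a b ∧ 0 < hs M s ∧ hs M s < ε} := by
    rintro s ⟨hsU, hsS⟩
    rw [hU, mem_iUnion₂] at hsU
    obtain ⟨l, hl, hsl⟩ := hsU
    have hlm := (hmemF l).1 hl
    have ha := hsep l (Or.inl hlm) a (Or.inr (by simp)) hlm.2.1.ne'
    have hb := hsep l (Or.inl hlm) b (Or.inr (by simp)) hlm.2.2.ne
    rw [Real.dist_eq, abs_of_pos (by linarith [hlm.2.1])] at ha
    rw [Real.dist_eq, abs_of_neg (by linarith [hlm.2.2])] at hb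
    refine ⟨⟨by linarith [hsl.1], by linarith [hsl.2]⟩, ?_, ?_⟩
    · refine lt_of_le_of_ne (hs_nonneg M s) fun h => hsS (mem_Spec_of_hs_eq_zero h.symm)
    · refine (hs_le_of_mem_Spec hlm.1 s).trans_lt ?_
      rw [abs_lt]; constructor <;> linarith [hsl.1, hsl.2]
  calc ((Spec M ∩ Ioo a b).encard : ℝ≥0∞) * ENNReal.ofReal (2 * ε) = volume U := hvolU.symm
    _ = volume (U \ Spec M) := (measure_sdiff_null ((Spec_finite M).measure_zero volume)).symm
    _ ≤ _ := measure_mono hsub

end spec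

variable {n : ℕ} [NeZero n]

theorem prob_bound_pos (A B Binv : (EE n) →L[ℝ] (EE n)) (hB : ∀ z, B (Binv z) = z) (s : ℝ) {ε : ℝ}
    (hε : 0 < ε) :
    muG n {G | 0 < hs (Mop A B G) s ∧ hs (Mop A B G) s < ε} ≤ ENNReal.ofReal (2 * ε * K0 Binv) := by
  set S : ℕ → Set (Fin n → EE n) := fun k =>
    {G | ε / (k + 2) < hs (Mop A B G) s ∧ hs (Mop A B G) s < ε} with hS
  have hmono : Monotone S := by
    intro i j hij G hG
    refine ⟨lt_of_le_of_lt ?_ hG.1, hG.2⟩
    have : (i : ℝ) ≤ j := by exact_mod_cast hij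
    gcongr
  have hun : {G : Fin n → EE n | 0 < hs (Mop A B G) s ∧ hs (Mop A B G) s < ε} ⊆ ⋃ k, S k := by
    rintro G ⟨h1, h2⟩
    obtain ⟨k, hk⟩ := exists_nat_gt (ε / hs (Mop A B G) s)
    refine mem_iUnion.2 ⟨k, ?_, h2⟩
    rw [div_lt_iff₀ (by positivity)]
    rw [div_lt_iff₀ h1] at hk
    nlinarith
  refine (measure_mono hun).trans ?_
  rw [hmono.measure_iUnion]
  refine iSup_le fun k => ?_
  have h3 := prob_bound A B Binv hB s (η := ε / (k + 2)) (ε := ε) (by positivity) (by
    rw [div_lt_iff₀ (by positivity)]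
    have : (0 : ℝ) ≤ k := Nat.cast_nonneg k
    nlinarith)
  rw [← ofReal_measureReal]
  exact ENNReal.ofReal_le_ofReal h3

theorem hs_Mop_continuous2 (A B : (EE n) →L[ℝ] (EE n)) :
    Continuous fun p : (Fin n → EE n) × ℝ => hs (Mop A B p.1) p.2 := by
  have h1 : Continuous fun p : (Fin n → EE n) × ℝ => (Mop A B p.1, p.2) :=
    ((Mop_continuous A B).comp continuous_fst).prodMk continuous_snd
  have h2 := (hs_continuous2 (V := EE n)).comp h1
  exact h2

/-- The set of pairs (matrix, level) with the level close to the spectrum. -/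
def DD (A B : (EE n) →L[ℝ] (EE n)) (a b ε : ℝ) : Set ((Fin n → EE n) × ℝ) :=
  {p | p.2 ∈ Ioo a b ∧ 0 < hs (Mop A B p.1) p.2 ∧ hs (Mop A B p.1) p.2 < ε}

theorem DD_measurable (A B : (EE n) →L[ℝ] (EE n)) (a b ε : ℝ) : MeasurableSet (DD A B a b ε) := by
  have hcont := hs_Mop_continuous2 A B
  have h1 : MeasurableSet {p : (Fin n → EE n) × ℝ | p.2 ∈ Ioo a b} :=
    measurable_snd measurableSet_Ioo
  have h2 : MeasurableSet {p : (Fin n → EE n) × ℝ | 0 < hs (Mop A B p.1) p.2} :=
    measurableSet_lt measurable_const hcont.measurable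
  have h3 : MeasurableSet {p : (Fin n → EE n) × ℝ | hs (Mop A B p.1) p.2 < ε} :=
    measurableSet_lt hcont.measurable measurable_const
  exact h1.inter (h2.inter h3)

theorem DD_prod (A B Binv : (EE n) →L[ℝ] (EE n)) (hB : ∀ z, B (Binv z) = z) (a b : ℝ) {ε : ℝ}
    (hε : 0 < ε) : ((muG n).prod volume) (DD A B a b ε)
      ≤ ENNReal.ofReal (2 * ε * K0 Binv) * ENNReal.ofReal (b - a) := by
  rw [Measure.prod_apply_symm (DD_measurable A B a b ε)]
  calc ∫⁻ s, muG n ((fun G => (G, s)) ⁻¹' DD A B a b ε)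
      ≤ ∫⁻ s, (Ioo a b).indicator (fun _ => ENNReal.ofReal (2 * ε * K0 Binv)) s := by
        refine lintegral_mono fun s => ?_
        by_cases hs' : s ∈ Ioo a b
        · rw [indicator_of_mem hs']
          refine (measure_mono ?_).trans (prob_bound_pos A B Binv hB s hε)
          intro G hG
          exact hG.2
        · rw [indicator_of_notMem hs']
          have : (fun G : Fin n → EE n => (G, s)) ⁻¹' DD A B a b ε = ∅ := by
            refine eq_empty_of_forall_notMem fun G hG => hs' hG.1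
          rw [this]; simp
    _ = _ := by
        rw [lintegral_indicator_const measurableSet_Ioo, Real.volume_Ioo]

/-- The expected number of points of the spectrum of the Hermitization in an open interval. -/
theorem count_open (A B Binv : (EE n) →L[ℝ] (EE n)) (hB : ∀ z, B (Binv z) = z) (a b : ℝ) :
    ∫⁻ G, ((Spec (Mop A B G) ∩ Ioo a b).encard : ℝ≥0∞) ∂(muG n)
      ≤ ENNReal.ofReal (K0 Binv) * ENNReal.ofReal (b - a) := by
  set e : ℕ → ℝ := fun k => 1 / ((k : ℝ) + 1) with he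
  have he0 : ∀ k, 0 < e k := fun k => by positivity
  have hne : ∀ k, ENNReal.ofReal (2 * e k) ≠ 0 := fun k => by
    have := he0 k
    simp only [ne_eq, ENNReal.ofReal_eq_zero, not_le]; positivity
  set f : ℕ → (Fin n → EE n) → ℝ≥0∞ := fun k G =>
    (ENNReal.ofReal (2 * e k))⁻¹ * volume (Prod.mk G ⁻¹' DD A B a b (e k)) with hf
  have hfm : ∀ k, Measurable (f k) := fun k =>
    (measurable_measure_prodMk_left (DD_measurable A B a b (e k))).const_mul _
  have hfint : ∀ k, ∫⁻ G, f k G ∂(muG n) ≤ ENNReal.ofReal (K0 Binv) * ENNReal.ofReal (b - a) := by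
    intro k
    have h1 : ∫⁻ G, f k G ∂(muG n)
        = (ENNReal.ofReal (2 * e k))⁻¹ * ((muG n).prod volume) (DD A B a b (e k)) := by
      rw [Measure.prod_apply (DD_measurable A B a b (e k)), ← lintegral_const_mul _
        (measurable_measure_prodMk_left (DD_measurable A B a b (e k)))]
    rw [h1]
    calc (ENNReal.ofReal (2 * e k))⁻¹ * ((muG n).prod volume) (DD A B a b (e k))
        ≤ (ENNReal.ofReal (2 * e k))⁻¹ *
          (ENNReal.ofReal (2 * e k * K0 Binv) * ENNReal.ofReal (b - a)) :=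
          mul_le_mul_right (DD_prod A B Binv hB a b (he0 k)) _
      _ = ENNReal.ofReal (K0 Binv) * ENNReal.ofReal (b - a) := by
          have h2 : ENNReal.ofReal (2 * e k * K0 Binv)
              = ENNReal.ofReal (2 * e k) * ENNReal.ofReal (K0 Binv) :=
            ENNReal.ofReal_mul (by have := he0 k; positivity)
          rw [h2, ← mul_assoc, ← mul_assoc,
            ENNReal.inv_mul_cancel (hne k) ENNReal.ofReal_ne_top, one_mul]
  have hpt : ∀ G : Fin n → EE n, ((Spec (Mop A B G) ∩ Ioo a b).encard : ℝ≥0∞)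
      ≤ Filter.liminf (fun k => f k G) Filter.atTop := by
    intro G
    obtain ⟨ε₀, hε₀, hlow⟩ := vol_lower (Mop A B G) a b
    refine Filter.le_liminf_of_le (by isBoundedDefault) ?_
    have hev : ∀ᶠ k : ℕ in Filter.atTop, e k ≤ ε₀ := by
      have : Filter.Tendsto e Filter.atTop (nhds 0) := tendsto_one_div_add_atTop_nhds_zero_nat
      filter_upwards [this.eventually (gt_mem_nhds hε₀)] with k hk using hk.le
    filter_upwards [hev] with k hk
    have h4 := hlow (e k) (he0 k) hk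
    show ((Spec (Mop A B G) ∩ Ioo a b).encard : ℝ≥0∞)
      ≤ (ENNReal.ofReal (2 * e k))⁻¹ * volume (Prod.mk G ⁻¹' DD A B a b (e k))
    rw [← ENNReal.div_eq_inv_mul, ENNReal.le_div_iff_mul_le (Or.inl (hne k))
      (Or.inl ENNReal.ofReal_ne_top)]
    exact h4
  calc ∫⁻ G, ((Spec (Mop A B G) ∩ Ioo a b).encard : ℝ≥0∞) ∂(muG n)
      ≤ ∫⁻ G, Filter.liminf (fun k => f k G) Filter.atTop ∂(muG n) := lintegral_mono hpt
    _ ≤ Filter.liminf (fun k => ∫⁻ G, f k G ∂(muG n)) Filter.atTop := lintegral_liminf_le hfm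
    _ ≤ ENNReal.ofReal (K0 Binv) * ENNReal.ofReal (b - a) := by
      refine Filter.liminf_le_of_le (by isBoundedDefault) ?_
      intro c hc
      obtain ⟨k, hk⟩ := hc.exists
      exact hk.trans (hfint k)

/-- The same for a closed interval. -/
theorem count_closed (A B Binv : (EE n) →L[ℝ] (EE n)) (hB : ∀ z, B (Binv z) = z) (a b : ℝ) :
    ∫⁻ G, ((Spec (Mop A B G) ∩ Icc a b).encard : ℝ≥0∞) ∂(muG n)
      ≤ ENNReal.ofReal (K0 Binv) * ENNReal.ofReal (b - a) := by
  have h1 : ∀ k : ℕ, ∫⁻ G, ((Spec (Mop A B G) ∩ Icc a b).encard : ℝ≥0∞) ∂(muG n)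
      ≤ ENNReal.ofReal (K0 Binv) * ENNReal.ofReal (b - a + 2 * (1 / ((k : ℝ) + 1))) := by
    intro k
    have hk : (0 : ℝ) < 1 / ((k : ℝ) + 1) := by positivity
    refine le_trans (lintegral_mono fun G => ?_)
      ((count_open A B Binv hB (a - 1 / ((k : ℝ) + 1)) (b + 1 / ((k : ℝ) + 1))).trans
        (le_of_eq ?_))
    · have : Spec (Mop A B G) ∩ Icc a b ⊆ Spec (Mop A B G)
          ∩ Ioo (a - 1 / ((k : ℝ) + 1)) (b + 1 / ((k : ℝ) + 1)) := by
        refine inter_subset_inter_right _ fun x hx => ⟨by linarith [hx.1], by linarith [hx.2]⟩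
      exact ENat.toENNReal_le.2 (Set.encard_le_encard this)
    · congr 2; ring
  have hlim : Filter.Tendsto (fun k : ℕ =>
      ENNReal.ofReal (K0 Binv) * ENNReal.ofReal (b - a + 2 * (1 / ((k : ℝ) + 1))))
      Filter.atTop (nhds (ENNReal.ofReal (K0 Binv) * ENNReal.ofReal (b - a))) := by
    refine ENNReal.Tendsto.const_mul ?_ (Or.inr ENNReal.ofReal_ne_top)
    refine ENNReal.tendsto_ofReal ?_
    have := tendsto_one_div_add_atTop_nhds_zero_nat (𝕜 := ℝ)
    have h2 := (this.const_mul 2).const_add (b - a)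
    simpa using h2
  exact ge_of_tendsto' hlim h1

end Pool.Agent.SSTW
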