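import Mathlib

set_option autoImplicit false

namespace Pool.Agent.SSTW

open scoped RealInnerProductSpace InnerProduct
open InnerProductSpace Set MeasureTheory ProbabilityTheory

/-- Euclidean space. -/
abbrev EE (n : ℕ) : Type := EuclideanSpace ℝ (Fin n)

variable {n : ℕ}

/-- The law of `(G, g)`: `G` has `n` rows, `g` is one more independent row; all rows are standard
Gaussian vectors. -/
noncomputable def PP (n : ℕ) : Measure ((Fin n → EE n) × EE n) :=
  (Measure.pi fun _ : Fin n => stdGaussian (EE n)).prod (stdGaussian (EE n))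

noncomputable instance : IsProbabilityMeasure (PP n) := by unfold PP; infer_instance

/-- The combination of the rows with coefficients `w`. -/
noncomputable def rowL (w : EE n) : ((Fin n → EE n) × EE n) →L[ℝ] EE n :=
  ∑ i, w i • ((ContinuousLinearMap.proj i : (Fin n → EE n) →L[ℝ] EE n) ∘L
    ContinuousLinearMap.fst ℝ (Fin n → EE n) (EE n))

@[simp] theorem rowL_apply (w : EE n) (ω : (Fin n → EE n) × EE n) :
    rowL w ω = ∑ i, w i • ω.1 i := by
  simp [rowL]

/-- The increment of the `w`-row. -/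
noncomputable def incL (w : EE n) (θ : ℝ) : ((Fin n → EE n) × EE n) →L[ℝ] EE n :=
  (Real.cos θ - 1) • rowL w + Real.sin θ • ContinuousLinearMap.snd ℝ (Fin n → EE n) (EE n)

@[simp] theorem incL_apply (w : EE n) (θ : ℝ) (ω : (Fin n → EE n) × EE n) :
    incL w θ ω = (Real.cos θ - 1) • (∑ i, w i • ω.1 i) + Real.sin θ • ω.2 := by
  simp [incL]

/-- The rotation of the `w`-row against the extra row. -/
noncomputable def rotL (w : EE n) (θ : ℝ) :
    ((Fin n → EE n) × EE n) →L[ℝ] ((Fin n → EE n) × EE n) :=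
  (ContinuousLinearMap.pi fun i =>
    (ContinuousLinearMap.proj i : (Fin n → EE n) →L[ℝ] EE n) ∘L
      ContinuousLinearMap.fst ℝ (Fin n → EE n) (EE n) + w i • incL w θ).prod
    (-Real.sin θ • rowL w + Real.cos θ • ContinuousLinearMap.snd ℝ (Fin n → EE n) (EE n))

theorem rotL_fst (w : EE n) (θ : ℝ) (ω : (Fin n → EE n) × EE n) (i : Fin n) :
    (rotL w θ ω).1 i = ω.1 i + w i • incL w θ ω := by
  simp [rotL]

theorem rotL_snd (w : EE n) (θ : ℝ) (ω : (Fin n → EE n) × EE n) :
    (rotL w θ ω).2 = -Real.sin θ • (∑ i, w i • ω.1 i) + Real.cos θ • ω.2 := by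
  simp [rotL]

theorem sum_sq_eq_one {w : EE n} (hw : ‖w‖ = 1) : ∑ i, w i ^ 2 = 1 := by
  rw [← EuclideanSpace.real_norm_sq_eq, hw, one_pow]

theorem rowL_rotL {w : EE n} (hw : ‖w‖ = 1) (θ : ℝ) (ω : (Fin n → EE n) × EE n) :
    ∑ i, w i • (rotL w θ ω).1 i
      = Real.cos θ • (∑ i, w i • ω.1 i) + Real.sin θ • ω.2 := by
  simp only [rotL_fst, smul_add, Finset.sum_add_distrib, smul_smul, ← Finset.sum_smul]
  have h : ∑ i, w i * w i = 1 := by
    simpa [sq] using sum_sq_eq_one hw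
  rw [h, incL_apply]
  module

theorem rotL_rotL {w : EE n} (hw : ‖w‖ = 1) (θ θ' : ℝ) (ω : (Fin n → EE n) × EE n) :
    rotL w θ' (rotL w θ ω) = rotL w (θ + θ') ω := by
  have h1 := rowL_rotL hw θ ω
  refine Prod.ext ?_ ?_
  · funext i
    rw [rotL_fst, rotL_fst, rotL_fst, incL_apply, incL_apply, incL_apply, h1, rotL_snd,
      Real.cos_add, Real.sin_add]
    module
  · rw [rotL_snd, rotL_snd, h1, rotL_snd, Real.cos_add, Real.sin_add]
    module

theorem rotL_zero (w : EE n) (ω : (Fin n → EE n) × EE n) : rotL w 0 ω = ω := by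
  refine Prod.ext ?_ ?_
  · funext i
    rw [rotL_fst, incL_apply]; simp
  · rw [rotL_snd]; simp

theorem charFunDual_PP (L : StrongDual ℝ ((Fin n → EE n) × EE n)) :
    charFunDual (PP n) L = Complex.exp (-((∑ i, ‖(L.comp (.inl ℝ (Fin n → EE n) (EE n))).comp
      (.single ℝ (fun _ => EE n) i)‖ ^ 2 + ‖L.comp (.inr ℝ (Fin n → EE n) (EE n))‖ ^ 2 : ℝ) : ℂ) / 2)
      := by
  rw [PP, charFunDual_prod, charFunDual_pi]
  simp_rw [charFunDual_stdGaussian]
  rw [← Complex.exp_sum, ← Complex.exp_add]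
  congr 1
  push_cast
  rw [← Finset.sum_div, Finset.sum_neg_distrib]
  ring

theorem rotL_measurePreserving {w : EE n} (hw : ‖w‖ = 1) (θ : ℝ) :
    MeasurePreserving (rotL w θ) (PP n) (PP n) := by
  refine ⟨(rotL w θ).continuous.measurable, ?_⟩
  apply Measure.ext_of_charFunDual
  funext L
  rw [charFunDual_map, charFunDual_PP, charFunDual_PP]
  congr 3
  norm_cast
  -- Riesz representers
  set a : Fin n → EE n := fun i => (toDual ℝ (EE n)).symm
    ((L.comp (.inl ℝ (Fin n → EE n) (EE n))).comp (.single ℝ (fun _ => EE n) i)) with ha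
  set a' : EE n := (toDual ℝ (EE n)).symm (L.comp (.inr ℝ (Fin n → EE n) (EE n))) with ha'
  have hai : ∀ i v, L (Pi.single i v, 0) = ⟪a i, v⟫ := by
    intro i v
    rw [ha]
    simp [toDual_symm_apply]
  have ha2 : ∀ v, L (0, v) = ⟪a', v⟫ := by
    intro v
    rw [ha']
    simp [toDual_symm_apply]
  have hL : ∀ ω : (Fin n → EE n) × EE n, L ω = ∑ i, ⟪a i, ω.1 i⟫ + ⟪a', ω.2⟫ := by
    intro ω
    have h1 : ω = (∑ i, (Pi.single i (ω.1 i) : Fin n → EE n), 0) + (0, ω.2) := by
      refine Prod.ext ?_ ?_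
      · simp [Finset.univ_sum_single]
      · simp
    have h2 : ((∑ i, (Pi.single i (ω.1 i) : Fin n → EE n), 0) : (Fin n → EE n) × EE n)
        = ∑ i, ((Pi.single i (ω.1 i) : Fin n → EE n), (0 : EE n)) := by
      refine Prod.ext ?_ ?_
      · simp [Prod.fst_sum]
      · simp [Prod.snd_sum]
    conv_lhs => rw [h1]
    rw [map_add, h2, map_sum, ha2]
    simp_rw [hai]
  set α : EE n := ∑ i, w i • a i with hα
  set c := Real.cos θ with hc
  set s := Real.sin θ with hs
  have e1 : ∀ i, ((L.comp (rotL w θ)).comp (.inl ℝ (Fin n → EE n) (EE n))).comp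
      (.single ℝ (fun _ => EE n) i) = innerSL ℝ (a i + w i • ((c - 1) • α - s • a')) := by
    intro i
    ext v
    have h1 : ((((L.comp (rotL w θ)).comp (.inl ℝ (Fin n → EE n) (EE n))).comp
      (.single ℝ (fun _ => EE n) i)) v) = L (rotL w θ (Pi.single i v, 0)) := rfl
    rw [h1, hL, innerSL_apply_apply]
    have h2 : ∑ j, w j • (Pi.single i v : Fin n → EE n) j = w i • v := by
      rw [Finset.sum_eq_single i]
      · simp
      · intro j _ hj; simp [Pi.single_eq_of_ne hj]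
      · simp
    have h3 : ∑ j, ⟪a j, (Pi.single i v : Fin n → EE n) j⟫ = ⟪a i, v⟫ := by
      rw [Finset.sum_eq_single i]
      · simp
      · intro j _ hj; simp [Pi.single_eq_of_ne hj]
      · simp
    have h4 : ∀ r : EE n, ∑ j, ⟪a j, w j • r⟫ = ⟪α, r⟫ := by
      intro r
      rw [hα, sum_inner]
      exact Finset.sum_congr rfl fun j _ => by
        rw [real_inner_smul_left, real_inner_smul_right]
    simp only [rotL_fst, rotL_snd, incL_apply, inner_add_right, Finset.sum_add_distrib, h4, h3, h2,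
      smul_zero, add_zero]
    simp only [inner_add_left, inner_sub_left, real_inner_smul_left, real_inner_smul_right,
      inner_add_right, inner_zero_right]
    ring
  have e2 : (L.comp (rotL w θ)).comp (.inr ℝ (Fin n → EE n) (EE n)) = innerSL ℝ (s • α + c • a') := by
    ext v
    have h1 : ((L.comp (rotL w θ)).comp (.inr ℝ (Fin n → EE n) (EE n))) v
      = L (rotL w θ (0, v)) := rfl
    rw [h1, hL, innerSL_apply_apply]
    have h4 : ∀ r : EE n, ∑ j, ⟪a j, w j • r⟫ = ⟪α, r⟫ := by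
      intro r
      rw [hα, sum_inner]
      exact Finset.sum_congr rfl fun j _ => by
        rw [real_inner_smul_left, real_inner_smul_right]
    simp only [rotL_fst, rotL_snd, incL_apply, Pi.zero_apply, smul_zero, Finset.sum_const_zero,
      zero_add]
    rw [h4]
    simp only [inner_add_left, real_inner_smul_left, real_inner_smul_right]
    ring
  have e3 : ∀ i, ‖(L.comp (.inl ℝ (Fin n → EE n) (EE n))).comp (.single ℝ (fun _ => EE n) i)‖
      = ‖a i‖ := fun i => (LinearIsometryEquiv.norm_map _ _).symm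
  have e4 : ‖L.comp (.inr ℝ (Fin n → EE n) (EE n))‖ = ‖a'‖ := (LinearIsometryEquiv.norm_map _ _).symm
  simp only [e1, e2, e3, e4, innerSL_apply_norm]
  -- the norm identity
  set r : EE n := (c - 1) • α - s • a' with hr
  have h5 : ∑ i, ‖a i + w i • r‖ ^ 2 = ∑ i, ‖a i‖ ^ 2 + 2 * ⟪α, r⟫ + ‖r‖ ^ 2 := by
    have h6 : ∀ i, ‖a i + w i • r‖ ^ 2 = ‖a i‖ ^ 2 + 2 * ⟪w i • a i, r⟫ + w i ^ 2 * ‖r‖ ^ 2 := by
      intro i
      rw [norm_add_sq_real, norm_smul, mul_pow, Real.norm_eq_abs, sq_abs, real_inner_smul_left,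
        real_inner_smul_right]
    rw [Finset.sum_congr rfl fun i _ => h6 i, Finset.sum_add_distrib, Finset.sum_add_distrib,
      ← Finset.mul_sum, ← sum_inner, ← hα, ← Finset.sum_mul, sum_sq_eq_one hw, one_mul]
  rw [h5]
  have hcs : s ^ 2 = 1 - c ^ 2 := by
    rw [hc, hs, Real.sin_sq]
  have h7 : ‖r‖ ^ 2 = (c - 1) ^ 2 * ‖α‖ ^ 2 - 2 * ((c - 1) * s * ⟪α, a'⟫) + s ^ 2 * ‖a'‖ ^ 2 := by
    rw [hr, norm_sub_sq_real, norm_smul, norm_smul, mul_pow, mul_pow, Real.norm_eq_abs,
      Real.norm_eq_abs, sq_abs, sq_abs, real_inner_smul_left, real_inner_smul_right]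
    ring
  have h8 : ⟪α, r⟫ = (c - 1) * ‖α‖ ^ 2 - s * ⟪α, a'⟫ := by
    rw [hr, inner_sub_right, real_inner_smul_right, real_inner_smul_right,
      real_inner_self_eq_norm_sq]
  have h9 : ‖s • α + c • a'‖ ^ 2 = s ^ 2 * ‖α‖ ^ 2 + 2 * (s * c * ⟪α, a'⟫) + c ^ 2 * ‖a'‖ ^ 2 := by
    rw [norm_add_sq_real, norm_smul, norm_smul, mul_pow, mul_pow, Real.norm_eq_abs,
      Real.norm_eq_abs, sq_abs, sq_abs, real_inner_smul_left, real_inner_smul_right]
    ring
  rw [h7, h8, h9, hcs]
  ring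

end Pool.Agent.SSTW
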