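import Pool.Agent.Lib.SSTW.Count
import Pool.Agent.Lib.SSTW.Gauss

set_option autoImplicit false

namespace Pool.Agent.SSTW

open scoped RealInnerProductSpace InnerProduct
open InnerProductSpace Set MeasureTheory ProbabilityTheory

variable {n : ℕ}

/-- The operator whose matrix has the rows `G i`. -/
noncomputable def Lop (G : Fin n → EE n) : (EE n) →L[ℝ] (EE n) :=
  ∑ i, rankOne ℝ (EuclideanSpace.single i (1 : ℝ)) (G i)

/-- `A + B G`. -/
noncomputable def Mop (A B : (EE n) →L[ℝ] (EE n)) (G : Fin n → EE n) : (EE n) →L[ℝ] (EE n) :=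
  A + B ∘L Lop G

theorem Lop_apply (G : Fin n → EE n) (v : EE n) (i : Fin n) : Lop G v i = ⟪G i, v⟫ := by
  simp [Lop, Finset.sum_apply, Pi.single_apply]

theorem Lop_add_rankOne (G : Fin n → EE n) (w r : EE n) :
    Lop (fun i => G i + w i • r) = Lop G + rankOne ℝ w r := by
  ext v i
  rw [add_apply, PiLp.add_apply, Lop_apply, Lop_apply, rankOne_apply, inner_add_left,
    real_inner_smul_left]
  simp
  ring

theorem Mop_add_rankOne (A B : (EE n) →L[ℝ] (EE n)) (G : Fin n → EE n) (w r : EE n) :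
    Mop A B (fun i => G i + w i • r) = Mop A B G + rankOne ℝ (B w) r := by
  unfold Mop
  rw [Lop_add_rankOne, ContinuousLinearMap.comp_add, add_assoc]
  congr 2
  ext v i
  simp

theorem Mop_continuous (A B : (EE n) →L[ℝ] (EE n)) : Continuous (Mop A B) := by
  unfold Mop Lop
  refine continuous_const.add ?_
  refine (ContinuousLinearMap.compL ℝ (EE n) (EE n) (EE n) B).continuous.comp ?_
  refine continuous_finsetSum _ fun i _ => ?_
  exact (rankOne ℝ (EuclideanSpace.single i (1 : ℝ))).continuous.comp (continuous_apply i)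

theorem Mop_rot (A B : (EE n) →L[ℝ] (EE n)) (w : EE n) (θ : ℝ) (ω : (Fin n → EE n) × EE n) :
    Mop A B (rotL w θ ω).1 = Mop A B ω.1 + rankOne ℝ (B w) (incL w θ ω) := by
  rw [← Mop_add_rankOne]
  rfl

theorem Mop_curve (A B : (EE n) →L[ℝ] (EE n)) (w : EE n) (θ : ℝ) (ω : (Fin n → EE n) × EE n) :
    Mop A B (rotL w θ ω).1
      = curve (Mop A B ω.1 - rankOne ℝ (B w) (∑ i, w i • ω.1 i)) (B w) (∑ i, w i • ω.1 i) ω.2 θ := by
  rw [Mop_rot, curve, incL_apply]
  set y := ∑ i, w i • ω.1 i with hy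
  rw [sub_smul, one_smul, map_add, map_sub, map_add]
  abel

/-- The truncated distance as a function on the probability space. -/
noncomputable def XX (A B : (EE n) →L[ℝ] (EE n)) (s ε : ℝ) (G : Fin n → EE n) : ℝ :=
  min (hs (Mop A B G) s) ε

variable [NeZero n]

instance : Nontrivial (EE n) := by
  have : Nonempty (Fin n) := ⟨0⟩
  infer_instance

theorem XX_continuous (A B : (EE n) →L[ℝ] (EE n)) (s ε : ℝ) : Continuous (XX A B s ε) :=
  ((hs_continuous s).comp (Mop_continuous A B)).min continuous_const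

theorem XX_nonneg (A B : (EE n) →L[ℝ] (EE n)) (s : ℝ) {ε : ℝ} (hε : 0 ≤ ε) (G : Fin n → EE n) :
    0 ≤ XX A B s ε G := le_min (hs_nonneg _ _) hε

theorem XX_le (A B : (EE n) →L[ℝ] (EE n)) (s ε : ℝ) (G : Fin n → EE n) : XX A B s ε G ≤ ε :=
  min_le_right _ _

theorem integrable_of_bdd {Ω : Type*} [MeasurableSpace Ω] {μ : Measure Ω} [IsFiniteMeasure μ]
    {f : Ω → ℝ} (hf : AEStronglyMeasurable f μ) {C : ℝ} (hC : ∀ x, |f x| ≤ C) : Integrable f μ :=
  Integrable.of_bound hf C (Filter.Eventually.of_forall hC)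

theorem flow_bound (A B : (EE n) →L[ℝ] (EE n)) {w : EE n} (hw : ‖w‖ = 1) (hB : B w ≠ 0) (s : ℝ)
    {ε : ℝ} (hε : 0 ≤ ε) {N : ℕ} (hN : 0 < N) :
    N * ∫ ω, |XX A B s ε (rotL w (2 * Real.pi / N) ω).1 - XX A B s ε ω.1| ∂(PP n) ≤ 8 * ε := by
  set δ : ℝ := 2 * Real.pi / N with hδ
  have hXc : Continuous fun ω : (Fin n → EE n) × EE n => XX A B s ε ω.1 :=
    (XX_continuous A B s ε).comp continuous_fst
  have hbd : ∀ θ θ' : ℝ, ∀ ω : (Fin n → EE n) × EE n,
      |XX A B s ε (rotL w θ ω).1 - XX A B s ε (rotL w θ' ω).1| ≤ ε := by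
    intro θ θ' ω
    have h1 := XX_nonneg A B s hε (rotL w θ ω).1
    have h2 := XX_nonneg A B s hε (rotL w θ' ω).1
    have h3 := XX_le A B s ε (rotL w θ ω).1
    have h4 := XX_le A B s ε (rotL w θ' ω).1
    rw [abs_le]; constructor <;> linarith
  have hcont : ∀ θ : ℝ, Continuous fun ω : (Fin n → EE n) × EE n => XX A B s ε (rotL w θ ω).1 :=
    fun θ => hXc.comp (rotL w θ).continuous
  have hstat : ∀ j : ℕ, ∫ ω, |XX A B s ε (rotL w (δ * (j + 1 : ℕ)) ω).1
      - XX A B s ε (rotL w (δ * j) ω).1| ∂(PP n)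
      = ∫ ω, |XX A B s ε (rotL w δ ω).1 - XX A B s ε ω.1| ∂(PP n) := by
    intro j
    have hmp := rotL_measurePreserving hw (δ * j)
    have h1 : ∫ ω, |XX A B s ε (rotL w δ ω).1 - XX A B s ε ω.1| ∂(PP n)
        = ∫ ω, |XX A B s ε (rotL w δ ω).1 - XX A B s ε ω.1| ∂((PP n).map (rotL w (δ * j))) := by
      rw [hmp.map_eq]
    have hc : Continuous fun ω : (Fin n → EE n) × EE n =>
        |XX A B s ε (rotL w δ ω).1 - XX A B s ε ω.1| := ((hcont δ).sub hXc).abs
    rw [h1, integral_map hmp.measurable.aemeasurable hc.aestronglyMeasurable]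
    refine integral_congr_ae (Filter.Eventually.of_forall fun ω => ?_)
    show |XX A B s ε (rotL w (δ * (j + 1 : ℕ)) ω).1 - XX A B s ε (rotL w (δ * j) ω).1|
      = |XX A B s ε (rotL w δ (rotL w (δ * j) ω)).1 - XX A B s ε (rotL w (δ * j) ω).1|
    rw [rotL_rotL hw]
    congr 5
    push_cast; ring_nf
  have hsum : (N : ℝ) * ∫ ω, |XX A B s ε (rotL w δ ω).1 - XX A B s ε ω.1| ∂(PP n)
      = ∫ ω, ∑ j ∈ Finset.range N, |XX A B s ε (rotL w (δ * (j + 1 : ℕ)) ω).1
      - XX A B s ε (rotL w (δ * j) ω).1| ∂(PP n) := by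
    rw [integral_finsetSum]
    · simp_rw [hstat]
      simp
    · intro j _
      exact integrable_of_bdd (((hcont _).sub (hcont _)).abs).aestronglyMeasurable
        (C := ε) (fun ω => by rw [abs_abs]; exact hbd _ _ ω)
  rw [hsum]
  have hpt : ∀ ω : (Fin n → EE n) × EE n, ∑ j ∈ Finset.range N,
      |XX A B s ε (rotL w (δ * (j + 1 : ℕ)) ω).1 - XX A B s ε (rotL w (δ * j) ω).1| ≤ 8 * ε := by
    intro ω
    simp only [XX, Mop_curve]
    exact curve_tv _ hB _ _ s ε hε hN
  calc _ ≤ ∫ _ω : (Fin n → EE n) × EE n, 8 * ε ∂(PP n) := by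
        refine integral_mono ?_ (integrable_const _) hpt
        refine integrable_finsetSum _ fun j _ => ?_
        exact integrable_of_bdd (((hcont _).sub (hcont _)).abs).aestronglyMeasurable
          (C := ε) (fun ω => by rw [abs_abs]; exact hbd _ _ ω)
    _ = 8 * ε := by simp

/-- Half of the variation is negative. -/
theorem flow_bound_pos (A B : (EE n) →L[ℝ] (EE n)) {w : EE n} (hw : ‖w‖ = 1) (hB : B w ≠ 0) (s : ℝ)
    {ε : ℝ} (hε : 0 ≤ ε) {N : ℕ} (hN : 0 < N) :
    N * ∫ ω, max (XX A B s ε ω.1 - XX A B s ε (rotL w (2 * Real.pi / N) ω).1) 0 ∂(PP n)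
      ≤ 4 * ε := by
  have h := flow_bound A B hw hB s hε hN
  set δ : ℝ := 2 * Real.pi / N with hδ
  have hXc : Continuous fun ω : (Fin n → EE n) × EE n => XX A B s ε ω.1 :=
    (XX_continuous A B s ε).comp continuous_fst
  have hXr : Continuous fun ω : (Fin n → EE n) × EE n => XX A B s ε (rotL w δ ω).1 :=
    hXc.comp (rotL w δ).continuous
  have hmp := rotL_measurePreserving hw δ
  have hb1 : ∀ G : Fin n → EE n, |XX A B s ε G| ≤ ε := fun G => by
    rw [abs_of_nonneg (XX_nonneg A B s hε G)]; exact XX_le A B s ε G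
  have hi1 : Integrable (fun ω : (Fin n → EE n) × EE n => XX A B s ε ω.1) (PP n) :=
    integrable_of_bdd hXc.aestronglyMeasurable (C := ε) fun ω => hb1 _
  have hi2 : Integrable (fun ω : (Fin n → EE n) × EE n => XX A B s ε (rotL w δ ω).1) (PP n) :=
    integrable_of_bdd hXr.aestronglyMeasurable (C := ε) fun ω => hb1 _
  have heq : ∫ ω, XX A B s ε (rotL w δ ω).1 ∂(PP n) = ∫ ω, XX A B s ε ω.1 ∂(PP n) := by
    conv_rhs => rw [← hmp.map_eq]
    rw [integral_map hmp.measurable.aemeasurable hXc.aestronglyMeasurable]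
  have hmax : ∀ ω : (Fin n → EE n) × EE n,
      max (XX A B s ε ω.1 - XX A B s ε (rotL w δ ω).1) 0
      = (1 / 2) * |XX A B s ε (rotL w δ ω).1 - XX A B s ε ω.1|
        + (1 / 2) * (XX A B s ε ω.1 - XX A B s ε (rotL w δ ω).1) := by
    intro ω
    rcases le_total (XX A B s ε ω.1) (XX A B s ε (rotL w δ ω).1) with h1 | h1
    · rw [max_eq_right (by linarith), abs_of_nonneg (by linarith)]; ring
    · rw [max_eq_left (by linarith), abs_of_nonpos (by linarith)]; ring
  simp_rw [hmax]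
  have hA : Integrable (fun ω : (Fin n → EE n) × EE n =>
      (1 / 2) * |XX A B s ε (rotL w δ ω).1 - XX A B s ε ω.1|) (PP n) :=
    (hi2.sub hi1).abs.const_mul _
  have hC : Integrable (fun ω : (Fin n → EE n) × EE n =>
      (1 / 2) * (XX A B s ε ω.1 - XX A B s ε (rotL w δ ω).1)) (PP n) :=
    (hi1.sub hi2).const_mul _
  rw [integral_add hA hC,
    integral_const_mul, integral_const_mul, integral_sub hi1 hi2, heq, sub_self, mul_zero, add_zero]
  linarith

end Pool.Agent.SSTW
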