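import Mathlib

set_option autoImplicit false

namespace Pool.Agent.SSTW

open scoped RealInnerProductSpace InnerProduct
open InnerProductSpace Set MeasureTheory ProbabilityTheory

/-- The mean absolute value of a standard Gaussian variable. -/
noncomputable def kap : ℝ := 2 * (Real.sqrt (2 * Real.pi))⁻¹

theorem kap_sq : kap ^ 2 = 2 / Real.pi := by
  unfold kap
  rw [mul_pow, inv_pow, Real.sq_sqrt (by positivity)]
  field_simp

theorem integral_abs_gaussian : ∫ x, |x| ∂(gaussianReal 0 1) = kap := by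
  rw [integral_gaussianReal_eq_integral_smul (by norm_num)]
  have h1 : ∀ x : ℝ, gaussianPDFReal 0 1 x • |x|
      = (fun y : ℝ => (Real.sqrt (2 * Real.pi))⁻¹ * (y ^ (1 : ℝ) * Real.exp (-(1 / 2) * y ^ (2 : ℝ))))
        |x| := by
    intro x
    simp only [gaussianPDFReal, NNReal.coe_one, mul_one, sub_zero, smul_eq_mul, Real.rpow_one]
    rw [show |x| ^ (2 : ℝ) = x ^ 2 by
      rw [show (2 : ℝ) = ((2 : ℕ) : ℝ) by norm_num, Real.rpow_natCast, sq_abs]]
    rw [show -x ^ 2 / 2 = -(1 / 2) * x ^ 2 by ring]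
    ring
  rw [integral_congr_ae (Filter.Eventually.of_forall h1),
    integral_comp_abs (f := fun y : ℝ =>
      (Real.sqrt (2 * Real.pi))⁻¹ * (y ^ (1 : ℝ) * Real.exp (-(1 / 2) * y ^ (2 : ℝ)))),
    integral_const_mul,
    integral_rpow_mul_exp_neg_mul_rpow (by norm_num) (by norm_num) (by norm_num)]
  have h2 : ((1 : ℝ) / 2) ^ (-((1 : ℝ) + 1) / 2) = 2 := by
    rw [show (-((1 : ℝ) + 1) / 2) = -1 by norm_num, Real.rpow_neg_one]; norm_num
  rw [h2, show ((1 : ℝ) + 1) / 2 = 1 by norm_num, Real.Gamma_one]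
  unfold kap
  ring

variable {V : Type*} [NormedAddCommGroup V] [InnerProductSpace ℝ V] [FiniteDimensional ℝ V]
  [MeasurableSpace V] [BorelSpace V]

theorem map_inner_stdGaussian {u : V} (hu : ‖u‖ = 1) :
    (stdGaussian V).map (fun z => ⟪u, z⟫) = gaussianReal 0 1 := by
  have h := IsGaussian.map_eq_gaussianReal (μ := stdGaussian V) (innerSL ℝ u)
  rw [integral_strongDual_stdGaussian, variance_dual_stdGaussian, innerSL_apply_norm, hu] at h
  have h2 : (fun z => ⟪u, z⟫) = (innerSL ℝ u : V → ℝ) := by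
    funext z; simp
  rw [h2, h]
  simp

theorem integral_abs_inner {u : V} (hu : ‖u‖ = 1) :
    ∫ z, |⟪u, z⟫| ∂(stdGaussian V) = kap := by
  rw [← integral_abs_gaussian, ← map_inner_stdGaussian hu, integral_map]
  · exact (by fun_prop : Measurable fun z : V => ⟪u, z⟫).aemeasurable
  · exact continuous_abs.aestronglyMeasurable

theorem integral_inner_zero (u : V) : ∫ z, ⟪u, z⟫ ∂(stdGaussian V) = 0 := by
  have := integral_strongDual_stdGaussian (E := V) (innerSL ℝ u)
  simpa using this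

theorem integrable_inner (u : V) : Integrable (fun z => ⟪u, z⟫) (stdGaussian V) := by
  have := IsGaussian.integrable_dual (stdGaussian V) (innerSL ℝ u)
  simpa using this

/-- The mean of the positive part of the product. -/
theorem integral_pos_part {u v : V} (hu : ‖u‖ = 1) (hv : ‖v‖ = 1) {τ : ℝ} (hτ : |τ| = 1)
    {c : ℝ} (hc : 0 ≤ c) :
    ∫ g, ∫ z, max (c * (-τ * (⟪u, z⟫ * ⟪g, v⟫))) 0 ∂(stdGaussian V) ∂(stdGaussian V)
      = c / Real.pi := by
  have h1 : ∀ g z : V, max (c * (-τ * (⟪u, z⟫ * ⟪g, v⟫))) 0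
      = (c / 2 * |⟪g, v⟫|) * |⟪u, z⟫| + (-(c / 2) * τ * ⟪g, v⟫) * ⟪u, z⟫ := by
    intro g z
    have h2 : |c * (-τ * (⟪u, z⟫ * ⟪g, v⟫))| = c * (|⟪u, z⟫| * |⟪g, v⟫|) := by
      rw [abs_mul, abs_mul, abs_mul, abs_neg, hτ, one_mul, abs_of_nonneg hc]
    have h3 : max (c * (-τ * (⟪u, z⟫ * ⟪g, v⟫))) 0
        = (|c * (-τ * (⟪u, z⟫ * ⟪g, v⟫))| + c * (-τ * (⟪u, z⟫ * ⟪g, v⟫))) / 2 := by
      rcases le_total (c * (-τ * (⟪u, z⟫ * ⟪g, v⟫))) 0 with h | h
      · rw [max_eq_right h, abs_of_nonpos h]; ring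
      · rw [max_eq_left h, abs_of_nonneg h]; ring
    rw [h3, h2]; ring
  have h4 : ∀ g : V, ∫ z, max (c * (-τ * (⟪u, z⟫ * ⟪g, v⟫))) 0 ∂(stdGaussian V)
      = c / 2 * kap * |⟪v, g⟫| := by
    intro g
    simp_rw [h1]
    rw [integral_add ((integrable_inner u).abs.const_mul _) ((integrable_inner u).const_mul _),
      integral_const_mul, integral_const_mul, integral_abs_inner hu, integral_inner_zero,
      real_inner_comm g v]
    ring
  simp_rw [h4]
  rw [integral_const_mul, integral_abs_inner hv]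
  have := kap_sq
  rw [show c / 2 * kap * kap = c / 2 * kap ^ 2 by ring, this]
  field_simp

end Pool.Agent.SSTW
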