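import Pool.Agent.Lib.SSTW.Flow
import Pool.Agent.Lib.SSTW.Kappa

set_option autoImplicit false

namespace Pool.Agent.SSTW

open scoped RealInnerProductSpace InnerProduct
open InnerProductSpace Set MeasureTheory ProbabilityTheory

variable {n : ℕ}

/-- The unit vector in the direction of `B⁻¹ z`. -/
noncomputable def wz (Binv : (EE n) →L[ℝ] (EE n)) (z : EE n) : EE n := ‖Binv z‖⁻¹ • Binv z

/-- The rotated truncated distance. -/
noncomputable def XR (A B : (EE n) →L[ℝ] (EE n)) (s ε δ : ℝ) (w : EE n) (ω : (Fin n → EE n) × EE n) : ℝ :=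
  XX A B s ε (rotL w δ ω).1

/-- The weighted negative variation. -/
noncomputable def Phi (A B Binv : (EE n) →L[ℝ] (EE n)) (s ε δ : ℝ) (ω : (Fin n → EE n) × EE n)
    (z : EE n) : ℝ :=
  ‖Binv z‖ * max (XX A B s ε ω.1 - XR A B s ε δ (wz Binv z) ω) 0

theorem wz_measurable (Binv : (EE n) →L[ℝ] (EE n)) : Measurable (wz Binv) := by
  unfold wz
  exact (Binv.continuous.norm.measurable.inv).smul Binv.continuous.measurable

theorem rot_continuous (δ : ℝ) :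
    Continuous fun q : (EE n) × ((Fin n → EE n) × EE n) => (rotL q.1 δ q.2).1 := by
  refine continuous_pi fun i => ?_
  simp only [rotL_fst, incL_apply]
  fun_prop

theorem integrable_norm_std : Integrable (fun z : EE n => ‖z‖) (stdGaussian (EE n)) := by
  have h : Integrable (fun z : EE n => (id z : EE n)) (stdGaussian (EE n)) :=
    IsGaussian.integrable_id
  exact h.norm

theorem integrable_sq_std : Integrable (fun g : EE n => (1 + ‖g‖) ^ 2) (stdGaussian (EE n)) := by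
  have h1 : MemLp (fun g : EE n => ‖g‖) 2 (stdGaussian (EE n)) := by
    have := (IsGaussian.memLp_two_id (μ := stdGaussian (EE n))).norm
    exact this
  have h2 : MemLp (fun _ : EE n => (1 : ℝ)) 2 (stdGaussian (EE n)) := memLp_const 1
  exact (h2.add h1).integrable_sq

theorem integrable_sq_G : Integrable (fun G : Fin n → EE n => (1 + ∑ i, ‖G i‖) ^ 2)
    (Measure.pi fun _ : Fin n => stdGaussian (EE n)) := by
  have h1 : ∀ i : Fin n, MemLp (fun G : Fin n → EE n => ‖G i‖) 2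
      (Measure.pi fun _ : Fin n => stdGaussian (EE n)) := by
    intro i
    have h0 : MemLp (fun g : EE n => ‖g‖) 2 (stdGaussian (EE n)) := by
      have := (IsGaussian.memLp_two_id (μ := stdGaussian (EE n))).norm
      exact this
    exact h0.comp_measurePreserving
      (measurePreserving_eval (fun _ : Fin n => stdGaussian (EE n)) i)
  have h2 : MemLp (fun _ : Fin n → EE n => (1 : ℝ)) 2
      (Measure.pi fun _ : Fin n => stdGaussian (EE n)) := memLp_const 1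
  have h3 : MemLp (fun G : Fin n → EE n => ∑ i, ‖G i‖) 2
      (Measure.pi fun _ : Fin n => stdGaussian (EE n)) :=
    memLp_finsetSum _ fun i _ => h1 i
  exact (h2.add h3).integrable_sq

theorem norm_rowsum_le {w : EE n} (hw : ‖w‖ = 1) (G : Fin n → EE n) :
    ‖∑ i, w i • G i‖ ≤ ∑ i, ‖G i‖ := by
  refine (norm_sum_le _ _).trans (Finset.sum_le_sum fun i _ => ?_)
  rw [norm_smul]
  have h1 : ‖w i‖ ≤ 1 := by
    rw [← hw]; exact PiLp.norm_apply_le w i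
  calc ‖w i‖ * ‖G i‖ ≤ 1 * ‖G i‖ := by gcongr
    _ = ‖G i‖ := one_mul _

/-- The elementary inequality behind `phi_lower`. -/
theorem key_real {ρ h η δ R gn zn Bn bw rn uz yv gv uB rv c1 si τ X X' : ℝ} (hρ : 0 < ρ)
    (hη : 0 < η) (hh : η < h) (hR : 0 ≤ R) (hgn : 0 ≤ gn) (hzn : 0 ≤ zn)
    (hbw : 0 ≤ bw) (hbB : bw ≤ Bn) (hρb : ρ * bw = zn) (hrn : 0 ≤ rn)
    (hrn' : rn ≤ δ * ((1 + R) * (1 + gn))) (huz : |uz| ≤ zn) (hyv : |yv| ≤ R) (hc : 0 ≤ c1)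
    (hc' : c1 ≤ δ ^ 2 / 2) (hρu : ρ * uB = uz) (hrv : rv = -c1 * yv + si * gv) (hτ : |τ| = 1)
    (hX : X = h) (hX' : X' ≤ h + τ * (uB * rv) + bw ^ 2 * rn ^ 2 / (2 * h)) :
    si * (-τ * (uz * gv)) - δ ^ 2 * ((1 / 2 + Bn / (2 * η)) * (1 + R) ^ 2 * ((1 + gn) ^ 2 * zn))
      ≤ ρ * (X - X') := by
  have hh0 : 0 < h := hη.trans hh
  have hBn : 0 ≤ Bn := hbw.trans hbB
  have hrn2 : rn ^ 2 ≤ δ ^ 2 * ((1 + R) ^ 2 * (1 + gn) ^ 2) := by
    have := pow_le_pow_left₀ hrn hrn' 2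
    calc rn ^ 2 ≤ (δ * ((1 + R) * (1 + gn))) ^ 2 := this
      _ = _ := by ring
  have e1 : ρ * (-(τ * (uB * rv)) - bw ^ 2 * rn ^ 2 / (2 * h)) ≤ ρ * (X - X') := by
    refine mul_le_mul_of_nonneg_left ?_ hρ.le
    rw [hX]; linarith
  have e2 : ρ * (-(τ * (uB * rv)) - bw ^ 2 * rn ^ 2 / (2 * h))
      = si * (-τ * (uz * gv)) + τ * uz * (c1 * yv) - zn * bw * rn ^ 2 / (2 * h) := by
    rw [hrv, ← hρu, ← hρb]; ring
  have e3 : -(zn * (δ ^ 2 / 2 * R)) ≤ τ * uz * (c1 * yv) := by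
    have h3 : |τ * uz * (c1 * yv)| ≤ zn * (δ ^ 2 / 2 * R) := by
      rw [abs_mul, abs_mul, abs_mul, hτ, one_mul, abs_of_nonneg hc]
      gcongr
    exact (abs_le.1 h3).1
  have e4 : zn * bw * rn ^ 2 / (2 * h)
      ≤ zn * Bn * (δ ^ 2 * ((1 + R) ^ 2 * (1 + gn) ^ 2)) / (2 * η) := by
    gcongr
  have e5 : zn * (δ ^ 2 / 2 * R) ≤ δ ^ 2 * (1 / 2 * (1 + R) ^ 2 * ((1 + gn) ^ 2 * zn)) := by
    have h6 : R ≤ (1 + R) ^ 2 * (1 + gn) ^ 2 := by
      have h7 : 1 ≤ (1 + gn) ^ 2 := by nlinarith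
      have h8 : R ≤ (1 + R) ^ 2 := by nlinarith
      calc R ≤ (1 + R) ^ 2 * 1 := by linarith
        _ ≤ (1 + R) ^ 2 * (1 + gn) ^ 2 := by gcongr
    calc zn * (δ ^ 2 / 2 * R) ≤ zn * (δ ^ 2 / 2 * ((1 + R) ^ 2 * (1 + gn) ^ 2)) := by gcongr
      _ = _ := by ring
  have e6 : δ ^ 2 * ((1 / 2 + Bn / (2 * η)) * (1 + R) ^ 2 * ((1 + gn) ^ 2 * zn))
      = δ ^ 2 * (1 / 2 * (1 + R) ^ 2 * ((1 + gn) ^ 2 * zn))
      + zn * Bn * (δ ^ 2 * ((1 + R) ^ 2 * (1 + gn) ^ 2)) / (2 * η) := by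
    ring
  refine le_trans ?_ e1
  rw [e2, e6]
  linarith

variable [NeZero n]

theorem phi_nonneg (A B Binv : (EE n) →L[ℝ] (EE n)) (s ε δ : ℝ) (ω : (Fin n → EE n) × EE n)
    (z : EE n) : 0 ≤ Phi A B Binv s ε δ ω z :=
  mul_nonneg (norm_nonneg _) (le_max_right _ _)

theorem phi_le (A B Binv : (EE n) →L[ℝ] (EE n)) (s : ℝ) {ε : ℝ} (hε : 0 ≤ ε) (δ : ℝ)
    (ω : (Fin n → EE n) × EE n) (z : EE n) : Phi A B Binv s ε δ ω z ≤ ‖Binv z‖ * ε := by
  refine mul_le_mul_of_nonneg_left ?_ (norm_nonneg _)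
  refine max_le ?_ hε
  have h1 : 0 ≤ XR A B s ε δ (wz Binv z) ω := XX_nonneg A B s hε (rotL (wz Binv z) δ ω).1
  have h2 := XX_le A B s ε ω.1
  linarith

theorem XR_measurable (A B : (EE n) →L[ℝ] (EE n)) (s ε δ : ℝ) : 
    Measurable fun q : (EE n) × ((Fin n → EE n) × EE n) => XR A B s ε δ q.1 q.2 := by
  have h1 := (XX_continuous A B s ε).measurable
  have h2 := (rot_continuous (n := n) δ).measurable
  exact h1.comp h2

theorem XR_measurable' (A B Binv : (EE n) →L[ℝ] (EE n)) (s ε δ : ℝ) : 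
    Measurable fun p : ((Fin n → EE n) × EE n) × EE n => XR A B s ε δ (wz Binv p.2) p.1 := by
  have h4 : Measurable fun p : ((Fin n → EE n) × EE n) × EE n => (wz Binv p.2, p.1) :=
    ((wz_measurable Binv).comp measurable_snd).prodMk measurable_fst
  have h5 := Measurable.comp (g := fun q : (EE n) × ((Fin n → EE n) × EE n) =>
    XR A B s ε δ q.1 q.2) (XR_measurable A B s ε δ) h4
  exact h5

theorem phi_measurable (A B Binv : (EE n) →L[ℝ] (EE n)) (s ε δ : ℝ) :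
    Measurable fun p : ((Fin n → EE n) × EE n) × EE n => Phi A B Binv s ε δ p.1 p.2 := by
  unfold Phi
  have h7 := XR_measurable' A B Binv s ε δ
  have h6 : Measurable fun p : ((Fin n → EE n) × EE n) × EE n => XX A B s ε p.1.1 :=
    (XX_continuous A B s ε).measurable.comp (measurable_fst.comp measurable_fst)
  have h8 : Measurable fun p : ((Fin n → EE n) × EE n) × EE n => ‖Binv p.2‖ :=
    (Binv.continuous.norm.measurable).comp measurable_snd
  exact h8.mul ((h6.sub h7).max measurable_const)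

/-- The pointwise lower bound. -/
theorem phi_lower (A B Binv : (EE n) →L[ℝ] (EE n)) (hB : ∀ z, B (Binv z) = z) (s : ℝ) {η ε : ℝ}
    (hη : 0 < η) {G : Fin n → EE n} (h1 : η < hs (Mop A B G) s) (h2 : hs (Mop A B G) s < ε) :
    ∃ (u v : EE n) (τ : ℝ), ‖u‖ = 1 ∧ ‖v‖ = 1 ∧ |τ| = 1 ∧ ∀ δ : ℝ, 0 ≤ δ → δ ≤ 2 → ∀ g z : EE n,
      max (Real.sin δ * (-τ * (⟪u, z⟫ * ⟪g, v⟫))) 0
        - δ ^ 2 * ((1 / 2 + ‖B‖ / (2 * η)) * (1 + ∑ i, ‖G i‖) ^ 2 * ((1 + ‖g‖) ^ 2 * ‖z‖))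
      ≤ Phi A B Binv s ε δ (G, g) z := by
  have hpos : 0 < hs (Mop A B G) s := hη.trans h1
  obtain ⟨u, v, τ, hu, hv, hτ, hup⟩ := hs_rankOne (Mop A B G) s hpos
  refine ⟨u, v, τ, hu, hv, hτ, ?_⟩
  intro δ hδ0 hδ2 g z
  have hR0 : 0 ≤ ∑ i, ‖G i‖ := Finset.sum_nonneg fun _ _ => norm_nonneg _
  have hB0 : 0 ≤ ‖B‖ := norm_nonneg B
  have hg0 : 0 ≤ ‖g‖ := norm_nonneg g
  have hz0' : 0 ≤ ‖z‖ := norm_nonneg z
  have hphi0 : 0 ≤ Phi A B Binv s ε δ (G, g) z := phi_nonneg A B Binv s ε δ (G, g) z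
  rcases le_or_gt (Real.sin δ * (-τ * (⟪u, z⟫ * ⟪g, v⟫))) 0 with hq | hq
  · rw [max_eq_right hq]
    refine le_trans ?_ hphi0
    generalize (∑ i, ‖G i‖) = R at hR0 ⊢
    generalize ‖B‖ = Bn at hB0 ⊢
    generalize ‖g‖ = gn at hg0 ⊢
    generalize ‖z‖ = zn at hz0' ⊢
    have : 0 ≤ δ ^ 2 * ((1 / 2 + Bn / (2 * η)) * (1 + R) ^ 2 * ((1 + gn) ^ 2 * zn)) := by
      positivity
    linarith
  rw [max_eq_left hq.le]
  -- the direction is not degenerate
  have hz0 : Binv z ≠ 0 := by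
    intro h0
    have hz : z = 0 := by rw [← hB z, h0, map_zero]
    rw [hz, inner_zero_right] at hq
    simp at hq
  have hρ : 0 < ‖Binv z‖ := norm_pos_iff.2 hz0
  have hwn : ‖wz Binv z‖ = 1 := by
    rw [wz, norm_smul, norm_inv, norm_norm, inv_mul_cancel₀ hρ.ne']
  have hBw : ‖Binv z‖ • B (wz Binv z) = z := by
    rw [wz, map_smul, hB, smul_smul, mul_inv_cancel₀ hρ.ne', one_smul]
  have hry : incL (wz Binv z) δ (G, g)
      = (Real.cos δ - 1) • (∑ i, (wz Binv z) i • G i) + Real.sin δ • g := incL_apply _ _ _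
  have hyR : ‖∑ i, (wz Binv z) i • G i‖ ≤ ∑ i, ‖G i‖ := norm_rowsum_le hwn G
  have hX : XX A B s ε G = hs (Mop A B G) s := min_eq_left h2.le
  have hX' : XR A B s ε δ (wz Binv z) (G, g) ≤ hs (Mop A B G) s
      + τ * (⟪u, B (wz Binv z)⟫ * ⟪incL (wz Binv z) δ (G, g), v⟫)
      + ‖B (wz Binv z)‖ ^ 2 * ‖incL (wz Binv z) δ (G, g)‖ ^ 2 / (2 * hs (Mop A B G) s) := by
    have h3 := hup (B (wz Binv z)) (incL (wz Binv z) δ (G, g))
    have h4 := Mop_rot A B (wz Binv z) δ (G, g)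
    calc XR A B s ε δ (wz Binv z) (G, g)
        ≤ hs (Mop A B (rotL (wz Binv z) δ (G, g)).1) s := min_le_left _ _
      _ = hs (Mop A B G + rankOne ℝ (B (wz Binv z)) (incL (wz Binv z) δ (G, g))) s := by rw [h4]
      _ ≤ _ := h3
  have hcos : 1 - Real.cos δ ≤ δ ^ 2 / 2 := by
    have := Real.one_sub_sq_div_two_le_cos (x := δ); linarith
  have hcos0 : 0 ≤ 1 - Real.cos δ := by linarith [Real.cos_le_one δ]
  have hsin : |Real.sin δ| ≤ δ := by
    rw [abs_le]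
    constructor
    · have h2 : (2 : ℝ) ≤ Real.pi := by linarith [Real.pi_gt_three]
      have := Real.sin_nonneg_of_nonneg_of_le_pi hδ0 (hδ2.trans h2); linarith
    · exact Real.sin_le hδ0
  have hrn : ‖incL (wz Binv z) δ (G, g)‖ ≤ δ * ((1 + ∑ i, ‖G i‖) * (1 + ‖g‖)) := by
    rw [hry]
    have h5 : ‖(Real.cos δ - 1) • (∑ i, (wz Binv z) i • G i) + Real.sin δ • g‖
        ≤ (1 - Real.cos δ) * ‖∑ i, (wz Binv z) i • G i‖ + |Real.sin δ| * ‖g‖ := by
      refine (norm_add_le _ _).trans (le_of_eq ?_)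
      rw [norm_smul, norm_smul, Real.norm_eq_abs, Real.norm_eq_abs, abs_sub_comm,
            abs_of_nonneg hcos0]
    refine h5.trans ?_
    generalize (∑ i, ‖G i‖) = R at hR0 hyR ⊢
    have hy0 : 0 ≤ ‖∑ i, (wz Binv z) i • G i‖ := norm_nonneg _
    generalize ‖∑ i, (wz Binv z) i • G i‖ = yn at hyR hy0 ⊢
    generalize ‖g‖ = gn at hg0 ⊢
    generalize Real.cos δ = c at hcos hcos0 ⊢
    generalize |Real.sin δ| = si at hsin ⊢
    have h6 : (1 - c) * yn ≤ δ * R := by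
      have : 1 - c ≤ δ := by nlinarith
      exact mul_le_mul this hyR hy0 hδ0
    have h7 : si * gn ≤ δ * gn := mul_le_mul_of_nonneg_right hsin hg0
    nlinarith [mul_nonneg hδ0 (mul_nonneg hR0 hg0)]
  have hinner : ⟪incL (wz Binv z) δ (G, g), v⟫
      = -(1 - Real.cos δ) * ⟪∑ i, (wz Binv z) i • G i, v⟫ + Real.sin δ * ⟪g, v⟫ := by
    rw [hry, inner_add_left, real_inner_smul_left, real_inner_smul_left]
    ring
  have huz : ‖Binv z‖ * ⟪u, B (wz Binv z)⟫ = ⟪u, z⟫ := by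
    rw [← real_inner_smul_right, hBw]
  have hBwn : ‖Binv z‖ * ‖B (wz Binv z)‖ = ‖z‖ := by
    rw [← norm_norm (Binv z), ← norm_smul, hBw]
  have hBwle : ‖B (wz Binv z)‖ ≤ ‖B‖ := by
    have := B.le_opNorm (wz Binv z); rwa [hwn, mul_one] at this
  have h4 : |⟪u, z⟫| ≤ ‖z‖ := by
    have := abs_real_inner_le_norm u z; rwa [hu, one_mul] at this
  have h5 : |⟪∑ i, (wz Binv z) i • G i, v⟫| ≤ ∑ i, ‖G i‖ := by
    have := abs_real_inner_le_norm (∑ i, (wz Binv z) i • G i) v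
    rw [hv, mul_one] at this
    exact this.trans hyR
  have hmain := key_real hρ hη h1 hR0 hg0 hz0' (norm_nonneg _) hBwle hBwn (norm_nonneg _) hrn h4 h5
    hcos0 hcos huz hinner hτ hX hX'
  refine hmain.trans ?_
  exact mul_le_mul_of_nonneg_left (le_max_left _ _) hρ.le

end Pool.Agent.SSTW
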