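import Pool.Agent.Lib.SSTW.Expect
import Pool.Agent.Lib.SSTW.Defs

set_option autoImplicit false
set_option maxHeartbeats 1000000

namespace Pool.Agent.SSTW

open scoped RealInnerProductSpace InnerProduct ENNReal
open InnerProductSpace Set MeasureTheory ProbabilityTheory

variable {n : ℕ}

/-- `l` is a singular value of `M`. -/
def IsSingVal (M : Matrix (Fin n) (Fin n) ℝ) (l : ℝ) : Prop :=
  0 ≤ l ∧ (M.transpose * M - (l ^ 2) • (1 : Matrix (Fin n) (Fin n) ℝ)).det = 0

/-- The operator of a matrix. -/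
noncomputable abbrev op (M : Matrix (Fin n) (Fin n) ℝ) : EE n →L[ℝ] EE n :=
  Matrix.toEuclideanCLM (𝕜 := ℝ) M

theorem op_apply (M : Matrix (Fin n) (Fin n) ℝ) (v : EE n) (i : Fin n) :
    op M v i = M.mulVec v.ofLp i := by
  rw [op, Matrix.ofLp_toEuclideanCLM]

theorem adjoint_op (M : Matrix (Fin n) (Fin n) ℝ) :
    ContinuousLinearMap.adjoint (op M) = op M.transpose := by
  rw [← ContinuousLinearMap.star_eq_adjoint, op, ← map_star, Matrix.star_eq_conjTranspose,
    Matrix.conjTranspose_eq_transpose_of_trivial]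

theorem norm_toLp_sq (v : Fin n → ℝ) : ‖(WithLp.toLp 2 v : EE n)‖ ^ 2 = ∑ i, v i ^ 2 := by
  rw [EuclideanSpace.real_norm_sq_eq]

theorem norm_op_sq (M : Matrix (Fin n) (Fin n) ℝ) (v : Fin n → ℝ) :
    ‖op M (WithLp.toLp 2 v)‖ ^ 2 = ∑ i, (M.mulVec v i) ^ 2 := by
  rw [EuclideanSpace.real_norm_sq_eq]
  simp only [op_apply]

/-- Rows of a matrix as vectors. -/
def rows (G : Fin n → Fin n → ℝ) : Fin n → EE n := fun i => WithLp.toLp 2 (G i)

theorem Lop_rows (G : Fin n → Fin n → ℝ) : Lop (rows G) = op (Matrix.of G) := by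
  ext v i
  rw [Lop_apply, op_apply, Matrix.mulVec, dotProduct]
  simp only [rows, PiLp.inner_apply, Matrix.of_apply]
  refine Finset.sum_congr rfl fun j _ => ?_
  simp [mul_comm]

theorem Mop_rows (A B : Matrix (Fin n) (Fin n) ℝ) (G : Fin n → Fin n → ℝ) :
    Mop (op A) (op B) (rows G) = op (A + B * Matrix.of G) := by
  rw [Mop, Lop_rows, op, op, op, op, map_add, map_mul]
  rfl

theorem rows_measurePreserving : MeasurePreserving (rows (n := n)) (gaussMatrix n) (muG n) := by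
  have h : MeasurePreserving (WithLp.toLp 2 : (Fin n → ℝ) → EE n)
      (Measure.pi fun _ : Fin n => gaussianReal 0 1) (stdGaussian (EE n)) :=
    ⟨by fun_prop, map_pi_eq_stdGaussian⟩
  exact measurePreserving_pi _ _ fun _ => h

theorem rows_emb : MeasurableEmbedding (rows (n := n)) := by
  have := (MeasurableEquiv.piCongrRight fun _ : Fin n =>
    MeasurableEquiv.toLp 2 (Fin n → ℝ)).measurableEmbedding
  exact this

theorem Spec_neg {M : EE n →L[ℝ] EE n} {l : ℝ} (h : l ∈ Spec M) : -l ∈ Spec M := by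
  obtain ⟨x, y, hxy, h1, h2⟩ := h
  refine ⟨x, -y, ?_, ?_, ?_⟩
  · rcases hxy with h | h
    · exact Or.inl h
    · exact Or.inr (neg_ne_zero.2 h)
  · rw [map_neg, h1, neg_smul]
  · rw [h2, smul_neg, neg_smul, neg_neg]

theorem mem_Spec_of_isSingVal {M : Matrix (Fin n) (Fin n) ℝ} {l : ℝ} (h : IsSingVal M l) :
    l ∈ Spec (op M) := by
  obtain ⟨_, hdet⟩ := h
  obtain ⟨v, hv, hMv⟩ := Matrix.exists_mulVec_eq_zero_iff.2 hdet
  rw [Matrix.sub_mulVec, sub_eq_zero, Matrix.smul_mulVec, Matrix.one_mulVec,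
    ← Matrix.mulVec_mulVec] at hMv
  set y : EE n := WithLp.toLp 2 v with hy
  have hy0 : y ≠ 0 := by
    intro h0
    apply hv
    have := congrArg WithLp.ofLp h0
    simpa [hy] using this
  have h1 : op M.transpose (op M y) = (l ^ 2) • y := by
    ext i
    rw [op_apply]
    have : (op M y).ofLp = M.mulVec v := by
      funext j; rw [op_apply]
    rw [this, hMv]
    simp [hy]
  by_cases hl : l = 0
  · subst hl
    refine ⟨0, y, Or.inr hy0, ?_, by simp⟩
    have h2 : ⟪op M y, op M y⟫ = 0 := by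
      rw [← ContinuousLinearMap.adjoint_inner_right, adjoint_op, h1]
      simp
    rw [inner_self_eq_zero.1 h2]; simp
  · refine ⟨l⁻¹ • op M y, y, Or.inr hy0, ?_, ?_⟩
    · rw [smul_smul, mul_inv_cancel₀ hl, one_smul]
    · rw [map_smul, adjoint_op, h1, smul_smul]
      congr 1
      field_simp

variable [NeZero n]

theorem count_matrix (A B : Matrix (Fin n) (Fin n) ℝ) (hB : B.det ≠ 0) {a b : ℝ} :
    ∫⁻ G, ({l | l ∈ Icc a b ∧ IsSingVal (A + B * Matrix.of G) l}.encard : ℝ≥0∞) ∂(gaussMatrix n)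
      ≤ ENNReal.ofReal (K0 (op B⁻¹)) * ENNReal.ofReal (b - a) := by
  have hBB : ∀ z, op B (op B⁻¹ z) = z := by
    intro z
    have h1 : op B (op B⁻¹ z) = (op B * op B⁻¹) z := rfl
    have h2 : op B * op B⁻¹ = 1 := by
      rw [op, op, ← map_mul, Matrix.mul_nonsing_inv _ (isUnit_iff_ne_zero.2 hB), map_one]
    rw [h1, h2]; rfl
  have h1 := count_closed (op A) (op B) (op B⁻¹) hBB a b
  rw [← rows_measurePreserving.lintegral_comp_emb rows_emb] at h1
  refine le_trans (lintegral_mono fun G => ?_) h1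
  rw [Mop_rows]
  refine ENat.toENNReal_le.2 (Set.encard_le_encard ?_)
  rintro l ⟨hl, hs⟩
  exact ⟨mem_Spec_of_isSingVal hs, hl⟩

/-- The tail bound for the smallest singular value. -/
theorem small_matrix (A B : Matrix (Fin n) (Fin n) ℝ) (hB : B.det ≠ 0) {t : ℝ} (ht : 0 ≤ t) :
    gaussMatrix n {G | ∃ v : Fin n → ℝ, ∑ i, v i ^ 2 = 1 ∧
      ∑ i, ((A + B * Matrix.of G).mulVec v i) ^ 2 ≤ t ^ 2}
      ≤ ENNReal.ofReal (K0 (op B⁻¹)) * ENNReal.ofReal t := by
  have hBB : ∀ z, op B (op B⁻¹ z) = z := by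
    intro z
    have h1 : op B (op B⁻¹ z) = (op B * op B⁻¹) z := rfl
    have h2 : op B * op B⁻¹ = 1 := by
      rw [op, op, ← map_mul, Matrix.mul_nonsing_inv _ (isUnit_iff_ne_zero.2 hB), map_one]
    rw [h1, h2]; rfl
  have h1 := count_closed (op A) (op B) (op B⁻¹) hBB 0 t
  rw [sub_zero] at h1
  refine le_trans ?_ h1
  set S : Set (Fin n → EE n) := {G | hs (Mop (op A) (op B) G) 0 ≤ t} with hS
  have hSm : MeasurableSet S :=
    measurableSet_le ((hs_continuous 0).comp (Mop_continuous (op A) (op B))).measurable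
      measurable_const
  have h2 : gaussMatrix n {G | ∃ v : Fin n → ℝ, ∑ i, v i ^ 2 = 1 ∧
      ∑ i, ((A + B * Matrix.of G).mulVec v i) ^ 2 ≤ t ^ 2} ≤ muG n S := by
    rw [← rows_measurePreserving.measure_preimage hSm.nullMeasurableSet]
    refine measure_mono ?_
    rintro G ⟨v, hv, hMv⟩
    show hs (Mop (op A) (op B) (rows G)) 0 ≤ t
    rw [Mop_rows]
    set z : WithLp 2 (EE n × EE n) := WithLp.toLp 2 (0, WithLp.toLp 2 v) with hz
    have hzn : ‖z‖ = 1 := by
      have : ‖z‖ ^ 2 = 1 := by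
        rw [WithLp.prod_norm_sq_eq_of_L2]
        show ‖(0 : EE n)‖ ^ 2 + ‖(WithLp.toLp 2 v : EE n)‖ ^ 2 = 1
        rw [norm_zero, norm_toLp_sq, hv]; norm_num
      exact (pow_eq_one_iff_of_nonneg (norm_nonneg z) two_ne_zero).1 this
    refine (hs_le _ _ hzn).trans ?_
    refine le_of_sq_le_sq ?_ ht
    rw [herm_norm_sq]
    show ‖op (A + B * Matrix.of G) (WithLp.toLp 2 v) - (0 : ℝ) • (0 : EE n)‖ ^ 2
      + ‖ContinuousLinearMap.adjoint (op (A + B * Matrix.of G)) (0 : EE n)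
        - (0 : ℝ) • (WithLp.toLp 2 v : EE n)‖ ^ 2 ≤ t ^ 2
    rw [map_zero, zero_smul, zero_smul, sub_zero, sub_zero, norm_zero, norm_op_sq]
    simpa using hMv
  refine h2.trans ?_
  rw [← lintegral_indicator_one hSm]
  refine lintegral_mono fun G => ?_
  by_cases hG : G ∈ S
  · rw [indicator_of_mem hG]
    obtain ⟨l, hl, hlt⟩ := exists_mem_Spec (Mop (op A) (op B) G) 0
    rw [sub_zero] at hlt
    have hlt' : |l| ≤ t := by rw [hlt]; exact hG
    have hne : (Spec (Mop (op A) (op B) G) ∩ Icc 0 t).Nonempty := by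
      rcases le_total 0 l with h | h
      · exact ⟨l, hl, h, by rwa [abs_of_nonneg h] at hlt'⟩
      · exact ⟨-l, Spec_neg hl, by linarith, by rwa [abs_of_nonpos h] at hlt'⟩
    have h3 : (1 : ℕ∞) ≤ (Spec (Mop (op A) (op B) G) ∩ Icc 0 t).encard :=
      Set.one_le_encard_iff_nonempty.2 hne
    have h4 := ENat.toENNReal_le.2 h3
    simpa using h4
  · rw [indicator_of_notMem hG]; exact zero_le

omit [NeZero n] in
theorem K0_eq (B : Matrix (Fin n) (Fin n) ℝ) : K0 (op B⁻¹) = meanInv B := by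
  unfold K0 meanInv
  rw [← map_pi_eq_stdGaussian, integral_map (by fun_prop)
    (op B⁻¹).continuous.norm.aestronglyMeasurable]
  refine integral_congr_ae (Filter.Eventually.of_forall fun z => ?_)
  show ‖op B⁻¹ (WithLp.toLp 2 z)‖ = Real.sqrt (∑ i, (B⁻¹.mulVec z i) ^ 2)
  rw [← norm_op_sq, Real.sqrt_sq (norm_nonneg _)]

omit [NeZero n] in
theorem integral_inner_sq (a : EE n) : ∫ z, ⟪a, z⟫ ^ 2 ∂(stdGaussian (EE n)) = ‖a‖ ^ 2 := by
  have h1 := variance_dual_stdGaussian (E := EE n) (innerSL ℝ a)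
  rw [innerSL_apply_norm] at h1
  rw [← h1, variance_of_integral_eq_zero]
  · simp
  · exact (innerSL ℝ a).continuous.aemeasurable
  · exact integral_strongDual_stdGaussian (innerSL ℝ a)

omit [NeZero n] in
theorem meanInv_le (B : Matrix (Fin n) (Fin n) ℝ) :
    meanInv B ≤ Real.sqrt (∑ i, ∑ j, (B⁻¹ i j) ^ 2) := by
  rw [← K0_eq]
  have h0 : MemLp (fun z : EE n => ‖op B⁻¹ z‖) 2 (stdGaussian (EE n)) := by
    have h1 : MemLp (fun z : EE n => ‖op B⁻¹‖ * ‖z‖) 2 (stdGaussian (EE n)) := by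
      have := (IsGaussian.memLp_two_id (μ := stdGaussian (EE n))).norm
      exact MemLp.const_mul this _
    refine h1.mono (op B⁻¹).continuous.norm.aestronglyMeasurable ?_
    refine Filter.Eventually.of_forall fun z => ?_
    rw [norm_norm, Real.norm_eq_abs, abs_of_nonneg (by positivity)]
    exact (op B⁻¹).le_opNorm z
  have h1 : K0 (op B⁻¹) ^ 2 ≤ ∫ z, ‖op B⁻¹ z‖ ^ 2 ∂(stdGaussian (EE n)) := by
    have h2 := variance_nonneg (fun z : EE n => ‖op B⁻¹ z‖) (stdGaussian (EE n))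
    rw [variance_eq_sub h0] at h2
    have h3 : ∫ z, ‖op B⁻¹ z‖ ^ 2 ∂(stdGaussian (EE n))
      = (stdGaussian (EE n))[(fun z : EE n => ‖op B⁻¹ z‖) ^ 2] := rfl
    rw [h3]
    have h4 : K0 (op B⁻¹) = (stdGaussian (EE n))[fun z : EE n => ‖op B⁻¹ z‖] := rfl
    rw [h4]
    linarith
  have h2 : ∫ z, ‖op B⁻¹ z‖ ^ 2 ∂(stdGaussian (EE n)) = ∑ i, ∑ j, (B⁻¹ i j) ^ 2 := by
    have h3 : ∀ z : EE n, ‖op B⁻¹ z‖ ^ 2 = ∑ i, ⟪(WithLp.toLp 2 (B⁻¹ i) : EE n), z⟫ ^ 2 := by
      intro z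
      rw [EuclideanSpace.real_norm_sq_eq]
      refine Finset.sum_congr rfl fun i _ => ?_
      rw [op_apply, Matrix.mulVec, dotProduct, PiLp.inner_apply]
      congr 1
      refine Finset.sum_congr rfl fun j _ => ?_
      simp [mul_comm]
    simp_rw [h3]
    rw [integral_finsetSum]
    · refine Finset.sum_congr rfl fun i _ => ?_
      rw [integral_inner_sq, norm_toLp_sq]
    · intro i _
      have : MemLp (fun z : EE n => ⟪(WithLp.toLp 2 (B⁻¹ i) : EE n), z⟫) 2
          (stdGaussian (EE n)) := by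
        have := IsGaussian.memLp_dual (stdGaussian (EE n))
          (innerSL ℝ (WithLp.toLp 2 (B⁻¹ i) : EE n)) 2 (by norm_num)
        simpa using this
      exact this.integrable_sq
  rw [h2] at h1
  exact Real.le_sqrt_of_sq_le h1

end Pool.Agent.SSTW
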