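import Pool.Agent.Lib.SSTW.Sharp

set_option autoImplicit false
set_option maxHeartbeats 1000000

namespace Pool.Agent.SSTW

open scoped RealInnerProductSpace InnerProduct ENNReal
open InnerProductSpace Set MeasureTheory ProbabilityTheory

variable {n : ℕ}

section spec

variable {V : Type*} [NormedAddCommGroup V] [InnerProductSpace ℝ V] [CompleteSpace V]

theorem Spec_neg' {M : V →L[ℝ] V} {l : ℝ} (h : l ∈ Spec M) : -l ∈ Spec M := by
  obtain ⟨x, y, hxy, h1, h2⟩ := h
  refine ⟨x, -y, ?_, ?_, ?_⟩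
  · rcases hxy with h | h
    · exact Or.inl h
    · exact Or.inr (neg_ne_zero.2 h)
  · rw [map_neg, h1, neg_smul]
  · rw [h2, smul_neg, neg_smul, neg_neg]

end spec

variable [NeZero n]

/-- Tail bound for the smallest singular value in terms of `hs`. -/
theorem tail_hs (A B Binv : (EE n) →L[ℝ] (EE n)) (hB : ∀ z, B (Binv z) = z) (t : ℝ) :
    muG n {G | hs (Mop A B G) 0 ≤ t} ≤ ENNReal.ofReal (K0 Binv * t) := by
  have h1 := count_closed A B Binv hB 0 t
  rw [sub_zero, ← ENNReal.ofReal_mul (K0_nonneg Binv)] at h1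
  refine le_trans ?_ h1
  set S : Set (Fin n → EE n) := {G | hs (Mop A B G) 0 ≤ t} with hS
  have hSm : MeasurableSet S :=
    measurableSet_le ((hs_continuous 0).comp (Mop_continuous A B)).measurable measurable_const
  rw [← lintegral_indicator_one hSm]
  refine lintegral_mono fun G => ?_
  by_cases hG : G ∈ S
  · rw [indicator_of_mem hG]
    obtain ⟨l, hl, hlt⟩ := exists_mem_Spec (Mop A B G) 0
    rw [sub_zero] at hlt
    have hlt' : |l| ≤ t := by rw [hlt]; exact hG
    have hne : (Spec (Mop A B G) ∩ Icc 0 t).Nonempty := by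
      rcases le_total 0 l with h | h
      · exact ⟨l, hl, h, by rwa [abs_of_nonneg h] at hlt'⟩
      · exact ⟨-l, Spec_neg' hl, by linarith, by rwa [abs_of_nonpos h] at hlt'⟩
    have h3 : (1 : ℕ∞) ≤ (Spec (Mop A B G) ∩ Icc 0 t).encard :=
      Set.one_le_encard_iff_nonempty.2 hne
    have h4 := ENat.toENNReal_le.2 h3
    simpa using h4
  · rw [indicator_of_notMem hG]; exact zero_le

theorem hs_Mop_measurable (A B : (EE n) →L[ℝ] (EE n)) (s : ℝ) :
    Measurable fun G : Fin n → EE n => hs (Mop A B G) s :=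
  ((hs_continuous s).comp (Mop_continuous A B)).measurable

/-- Lower bound for the mean of the truncated smallest singular value. -/
theorem mean_XX_lower (A B Binv : (EE n) →L[ℝ] (EE n)) (hB : ∀ z, B (Binv z) = z) {ε : ℝ}
    (hε : 0 ≤ ε) : ε - K0 Binv * ε ^ 2 / 2 ≤ ∫ G, XX A B 0 ε G ∂(muG n) := by
  set h : (Fin n → EE n) → ℝ := fun G => hs (Mop A B G) 0 with hh
  have hm : Measurable h := hs_Mop_measurable A B 0
  have h0 : ∀ G, 0 ≤ h G := fun G => hs_nonneg _ _
  set f : (Fin n → EE n) → ℝ := fun G => max (ε - h G) 0 with hf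
  have hfm : Measurable f := (measurable_const.sub hm).max measurable_const
  have hf0 : ∀ G, 0 ≤ f G := fun G => le_max_right _ _
  have hfε : ∀ G, f G ≤ ε := fun G => max_le (by have := h0 G; linarith) hε
  have hfi : Integrable f (muG n) := integrable_of_bdd hfm.aestronglyMeasurable (C := ε)
    fun G => by rw [abs_of_nonneg (hf0 G)]; exact hfε G
  have hX : ∀ G, XX A B 0 ε G = ε - f G := by
    intro G
    show min (h G) ε = ε - max (ε - h G) 0
    rcases le_total (h G) ε with h1 | h1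
    · rw [min_eq_left h1, max_eq_left (by linarith)]; ring
    · rw [min_eq_right h1, max_eq_right (by linarith)]; ring
  have h1 : ∫ G, XX A B 0 ε G ∂(muG n) = ε - ∫ G, f G ∂(muG n) := by
    simp_rw [hX]
    rw [integral_sub (integrable_const _) hfi]
    simp
  have h2 : ∫⁻ G, ENNReal.ofReal (f G) ∂(muG n) ≤ ENNReal.ofReal (K0 Binv * ε ^ 2 / 2) := by
    rw [lintegral_eq_lintegral_meas_le (muG n) (Filter.Eventually.of_forall hf0) hfm.aemeasurable]
    have h3 : ∀ t ∈ Ioi (0 : ℝ), muG n {G | t ≤ f G}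
        ≤ (Iic ε).indicator (fun t => ENNReal.ofReal (K0 Binv * (ε - t))) t := by
      intro t ht
      by_cases htε : t ∈ Iic ε
      · rw [indicator_of_mem htε]
        refine (measure_mono ?_).trans (tail_hs A B Binv hB (ε - t))
        intro G hG
        have hG' : t ≤ max (ε - h G) 0 := hG
        show h G ≤ ε - t
        rcases le_max_iff.1 hG' with h4 | h4
        · linarith
        · exact absurd ht (not_lt.2 h4)
      · rw [indicator_of_notMem htε]
        have : {G | t ≤ f G} = (∅ : Set (Fin n → EE n)) := by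
          refine eq_empty_of_forall_notMem fun G hG => htε ?_
          exact le_trans hG (hfε G)
        rw [this]; simp
    refine (setLIntegral_mono' measurableSet_Ioi h3).trans ?_
    rw [lintegral_indicator measurableSet_Iic, Measure.restrict_restrict measurableSet_Iic,
      Iic_inter_Ioi]
    have h5 : ∫⁻ t in Ioc 0 ε, ENNReal.ofReal (K0 Binv * (ε - t))
        = ENNReal.ofReal (∫ t in Ioc 0 ε, K0 Binv * (ε - t)) := by
      rw [ofReal_integral_eq_lintegral_ofReal]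
      · exact (by fun_prop : Continuous fun t : ℝ => K0 Binv * (ε - t)).integrableOn_Ioc
      · refine (ae_restrict_iff' measurableSet_Ioc).2 (Filter.Eventually.of_forall fun t ht => ?_)
        have := K0_nonneg Binv
        exact mul_nonneg this (by linarith [ht.2])
    have h6 : ∫ t in (0 : ℝ)..ε, (ε - t) = ε ^ 2 / 2 := by
      have h7 : IntervalIntegrable (fun t : ℝ => t) volume 0 ε :=
        continuous_id.intervalIntegrable _ _
      rw [intervalIntegral.integral_sub intervalIntegrable_const h7,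
        intervalIntegral.integral_const, integral_id]
      simp only [smul_eq_mul]
      ring
    rw [h5, ← intervalIntegral.integral_of_le hε, intervalIntegral.integral_const_mul, h6,
      mul_div_assoc]
  have h3 : ∫ G, f G ∂(muG n) ≤ K0 Binv * ε ^ 2 / 2 := by
    rw [integral_eq_lintegral_of_nonneg_ae (Filter.Eventually.of_forall hf0)
      hfm.aestronglyMeasurable]
    refine ENNReal.toReal_le_of_le_ofReal ?_ h2
    have := K0_nonneg Binv
    positivity
  rw [h1]; linarith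

theorem psi_integrable (A B Binv : (EE n) →L[ℝ] (EE n)) (s : ℝ) {ε : ℝ} (hε : 0 ≤ ε) (δ : ℝ) :
    Integrable (fun p : ((Fin n → EE n) × EE n) × EE n => Psi A B Binv s ε δ p.1 p.2)
      ((PP n).prod (stdGaussian (EE n))) := by
  have h1 : Integrable (fun p : ((Fin n → EE n) × EE n) × EE n => ‖Binv p.2‖ * ε)
      ((PP n).prod (stdGaussian (EE n))) := by
    have := (K0_integrable Binv).comp_snd (PP n)
    exact this.mul_const ε
  refine h1.mono' (psi_measurable A B Binv s ε δ).aestronglyMeasurable ?_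
  refine Filter.Eventually.of_forall fun p => ?_
  rw [Real.norm_eq_abs, abs_of_nonneg (psi_nonneg _ _ _ _ _ _ _ _)]
  exact psi_le A B Binv s hε δ p.1 p.2

attribute [local irreducible] Psi in
theorem psi_integrable' (A B Binv : (EE n) →L[ℝ] (EE n)) (s : ℝ) {ε : ℝ} (hε : 0 ≤ ε) (δ : ℝ)
    (G : Fin n → EE n) :
    Integrable (fun p : (EE n) × (EE n) => Psi A B Binv s ε δ (G, p.1) p.2)
      ((stdGaussian (EE n)).prod (stdGaussian (EE n))) := by
  have h1 : Integrable (fun p : (EE n) × (EE n) => ‖Binv p.2‖ * ε)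
      ((stdGaussian (EE n)).prod (stdGaussian (EE n))) := by
    have := (K0_integrable Binv).comp_snd (stdGaussian (EE n))
    exact this.mul_const ε
  have h2 : Measurable fun p : (EE n) × (EE n) => (((G, p.1), p.2) : ((Fin n → EE n) × EE n) × EE n) :=
    (measurable_const.prodMk measurable_fst).prodMk measurable_snd
  have h3 : Measurable fun p : (EE n) × (EE n) => Psi A B Binv s ε δ (G, p.1) p.2 := by
    have h4 := Measurable.comp
      (g := fun p : ((Fin n → EE n) × EE n) × EE n => Psi A B Binv s ε δ p.1 p.2)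
      (psi_measurable A B Binv s ε δ) h2
    exact h4
  refine h1.mono' h3.aestronglyMeasurable ?_
  refine Filter.Eventually.of_forall fun p => ?_
  rw [Real.norm_eq_abs, abs_of_nonneg (psi_nonneg _ _ _ _ _ _ _ _)]
  exact psi_le A B Binv s hε δ (G, p.1) p.2

/-- The lower bound of the weighted variation. -/
theorem psi_lower (B Binv : (EE n) →L[ℝ] (EE n)) {ε : ℝ}
    (hε : 0 ≤ ε) {m : ℕ} (hm : 0 < m) :
    K0 Binv * (∫ ω, XX 0 B 0 ε ω.1 ∂(PP n)
      - ‖B‖ * (∫ ω, (∑ i, ‖ω.1 i‖ + ‖ω.2‖) ∂(PP n)) * (Real.pi / m))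
    ≤ m * ∫ p, Psi 0 B Binv 0 ε (Real.pi / m) p.1 p.2 ∂((PP n).prod (stdGaussian (EE n))) := by
  rw [integral_prod_symm _ (psi_integrable 0 B Binv 0 hε _)]
  set c : ℝ := ∫ ω, XX 0 B 0 ε ω.1 ∂(PP n)
      - ‖B‖ * (∫ ω, (∑ i, ‖ω.1 i‖ + ‖ω.2‖) ∂(PP n)) * (Real.pi / m) with hc
  have h0 : K0 Binv * c = ∫ z, ‖Binv z‖ * c ∂(stdGaussian (EE n)) := by
    rw [integral_mul_const]; rfl
  rw [h0, ← integral_const_mul]
  refine integral_mono ((K0_integrable Binv).mul_const _)
    ((psi_integrable 0 B Binv 0 hε _).integral_prod_right.const_mul _) fun z => ?_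
  show ‖Binv z‖ * c ≤ m * ∫ ω, Psi 0 B Binv 0 ε (Real.pi / m) ω z ∂(PP n)
  unfold Psi
  rw [integral_const_mul]
  by_cases hz : Binv z = 0
  · rw [hz, norm_zero]; simp
  have hwn : ‖wz Binv z‖ = 1 := by
    rw [wz, norm_smul, norm_inv, norm_norm, inv_mul_cancel₀ (norm_ne_zero_iff.2 hz)]
  have h2 := flow_lower_pos B hwn hε hm
  calc ‖Binv z‖ * c ≤ ‖Binv z‖ * (m * ∫ ω, max (XX 0 B 0 ε (rotL (wz Binv z) (Real.pi / m) ω).1
        - XX 0 B 0 ε ω.1) 0 ∂(PP n)) := mul_le_mul_of_nonneg_left h2 (norm_nonneg _)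
    _ = _ := by
      unfold XR
      ring

theorem psi_upper_int (A B Binv : (EE n) →L[ℝ] (EE n)) (hB : ∀ z, B (Binv z) = z) (s : ℝ) {η ε : ℝ}
    (hη : 0 < η) (hηε : η < ε) {δ : ℝ} (hδ0 : 0 ≤ δ) (hδ2 : δ ≤ 2) {κ : ℝ} (hκ : 0 < κ)
    (G : Fin n → EE n) :
    ∫ g, ∫ z, Psi A B Binv s ε δ (G, g) z ∂(stdGaussian (EE n)) ∂(stdGaussian (EE n))
    ≤ {G | η < hs (Mop A B G) s ∧ hs (Mop A B G) s < ε}.indicator
        (fun _ => Real.sin δ / Real.pi) G
      + δ ^ 2 * ((1 / 2 + ‖B‖ / (2 * η)) *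
        (∫ p : (EE n) × (EE n), (1 + ‖p.1‖) ^ 2 * ‖p.2‖
          ∂((stdGaussian (EE n)).prod (stdGaussian (EE n))))) * (1 + ∑ i, ‖G i‖) ^ 2
      + δ * (∫ p : (EE n) × (EE n), (1 + ‖p.1‖) * ‖p.2‖
          ∂((stdGaussian (EE n)).prod (stdGaussian (EE n)))) *
        (κ * (1 + ∑ i, ‖G i‖) ^ 2 + {G | hs (Mop A B G) s ≤ η}.indicator (fun _ => κ⁻¹) G) := by
  classical
  set m : ℝ := ∫ p : (EE n) × (EE n), (1 + ‖p.1‖) ^ 2 * ‖p.2‖
    ∂((stdGaussian (EE n)).prod (stdGaussian (EE n))) with hm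
  set m2 : ℝ := ∫ p : (EE n) × (EE n), (1 + ‖p.1‖) * ‖p.2‖
    ∂((stdGaussian (EE n)).prod (stdGaussian (EE n))) with hm2
  have hm0 : 0 ≤ m := integral_nonneg fun p => by positivity
  have hm20 : 0 ≤ m2 := integral_nonneg fun p => by positivity
  have hsin : 0 ≤ Real.sin δ := by
    have h2 : (2 : ℝ) ≤ Real.pi := by linarith [Real.pi_gt_three]
    exact Real.sin_nonneg_of_nonneg_of_le_pi hδ0 (hδ2.trans h2)
  have hC0 : 0 ≤ (1 / 2 + ‖B‖ / (2 * η)) :=
    add_nonneg (by norm_num) (div_nonneg (norm_nonneg _) (by linarith))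
  have hR0 : 0 ≤ ∑ i, ‖G i‖ := Finset.sum_nonneg fun _ _ => norm_nonneg _
  have hT1 : 0 ≤ {G | η < hs (Mop A B G) s ∧ hs (Mop A B G) s < ε}.indicator
        (fun _ => Real.sin δ / Real.pi) G :=
    indicator_nonneg (fun _ _ => div_nonneg hsin Real.pi_pos.le) _
  have hT2 : 0 ≤ δ ^ 2 * ((1 / 2 + ‖B‖ / (2 * η)) * m) * (1 + ∑ i, ‖G i‖) ^ 2 :=
    mul_nonneg (mul_nonneg (sq_nonneg _) (mul_nonneg hC0 hm0)) (sq_nonneg _)
  have hκ1 : 0 ≤ {G | hs (Mop A B G) s ≤ η}.indicator (fun _ => κ⁻¹) G :=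
    indicator_nonneg (fun _ _ => (inv_pos.2 hκ).le) _
  have hT3 : 0 ≤ δ * m2 * (κ * (1 + ∑ i, ‖G i‖) ^ 2
      + {G | hs (Mop A B G) s ≤ η}.indicator (fun _ => κ⁻¹) G) :=
    mul_nonneg (mul_nonneg hδ0 hm20) (add_nonneg (mul_nonneg hκ.le (sq_nonneg _)) hκ1)
  obtain ⟨c1, c2, c3⟩ := psi_upper A B Binv hB s ε G δ hδ0 hδ2
  rcases le_or_gt ε (hs (Mop A B G) s) with hbig | hsmall
  · have h1 : ∫ g, ∫ z, Psi A B Binv s ε δ (G, g) z ∂(stdGaussian (EE n)) ∂(stdGaussian (EE n))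
        = 0 := by
      simp_rw [c1 hbig]
      simp
    rw [h1]
    exact add_nonneg (add_nonneg hT1 hT2) hT3
  rw [← integral_prod (fun p : (EE n) × (EE n) => Psi A B Binv s ε δ (G, p.1) p.2)
      (psi_integrable' A B Binv s (hη.trans hηε).le δ G)]
  rcases le_or_gt (hs (Mop A B G) s) η with hlow | hmid
  · -- close to zero
    have hi : Integrable (fun p : (EE n) × (EE n) => (1 + ‖p.1‖) * ‖p.2‖)
        ((stdGaussian (EE n)).prod (stdGaussian (EE n))) :=
      ((integrable_const _).add integrable_norm_std).mul_prod integrable_norm_std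
    have h1 : ∫ p : (EE n) × (EE n), Psi A B Binv s ε δ (G, p.1) p.2
        ∂((stdGaussian (EE n)).prod (stdGaussian (EE n)))
        ≤ δ * (1 + ∑ i, ‖G i‖) * m2 := by
      rw [hm2, ← integral_const_mul]
      exact integral_mono (psi_integrable' A B Binv s (hη.trans hηε).le δ G) (hi.const_mul _)
        fun p => c2 p.1 p.2
    have h2 : (1 + ∑ i, ‖G i‖) ≤ κ * (1 + ∑ i, ‖G i‖) ^ 2
        + {G | hs (Mop A B G) s ≤ η}.indicator (fun _ => κ⁻¹) G := by
      have h3 : {G | hs (Mop A B G) s ≤ η}.indicator (fun _ => κ⁻¹) G = κ⁻¹ :=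
        indicator_of_mem (by exact hlow) _
      rw [h3]
      generalize (1 + ∑ i, ‖G i‖) = x at *
      have h4 : κ * κ⁻¹ = 1 := mul_inv_cancel₀ hκ.ne'
      have h5 : 0 < κ⁻¹ := inv_pos.2 hκ
      have h6 : 0 ≤ κ⁻¹ * (κ * x - 1) ^ 2 := mul_nonneg h5.le (sq_nonneg _)
      have h7 : κ⁻¹ * (κ * x - 1) ^ 2 = κ * x ^ 2 - 2 * x + κ⁻¹ := by
        field_simp; ring
      have h8 : 0 ≤ κ * x ^ 2 + κ⁻¹ := add_nonneg (mul_nonneg hκ.le (sq_nonneg _)) h5.le
      rw [h7] at h6
      linarith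
    have h4 : δ * (1 + ∑ i, ‖G i‖) * m2 ≤ δ * m2 * (κ * (1 + ∑ i, ‖G i‖) ^ 2
        + {G | hs (Mop A B G) s ≤ η}.indicator (fun _ => κ⁻¹) G) := by
      calc δ * (1 + ∑ i, ‖G i‖) * m2 = δ * m2 * (1 + ∑ i, ‖G i‖) := by ring
        _ ≤ _ := mul_le_mul_of_nonneg_left h2 (mul_nonneg hδ0 hm20)
    linarith
  · -- the main part
    obtain ⟨u, v, τ, hu, hv, hτ, hup⟩ := c3 η hη hmid hsmall
    have hi0 : Integrable (fun p : (EE n) × (EE n) => ‖p.1‖ * ‖p.2‖)
        ((stdGaussian (EE n)).prod (stdGaussian (EE n))) :=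
      integrable_norm_std.mul_prod integrable_norm_std
    have hc1 : Continuous fun p : (EE n) × (EE n) =>
        max (Real.sin δ * (τ * (⟪u, p.2⟫ * ⟪p.1, v⟫))) 0 := by fun_prop
    have hi1 : Integrable (fun p : (EE n) × (EE n) =>
        max (Real.sin δ * (τ * (⟪u, p.2⟫ * ⟪p.1, v⟫))) 0)
        ((stdGaussian (EE n)).prod (stdGaussian (EE n))) := by
      refine (hi0.const_mul |Real.sin δ|).mono' hc1.aestronglyMeasurable ?_
      refine Filter.Eventually.of_forall fun p => ?_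
      rw [Real.norm_eq_abs, abs_of_nonneg (le_max_right _ _)]
      refine max_le ?_ (by positivity)
      refine (le_abs_self _).trans ?_
      rw [abs_mul, abs_mul, hτ, one_mul, abs_mul]
      have h4 : |⟪u, p.2⟫| ≤ ‖p.2‖ := by
        have := abs_real_inner_le_norm u p.2; rwa [hu, one_mul] at this
      have h5 : |⟪p.1, v⟫| ≤ ‖p.1‖ := by
        have := abs_real_inner_le_norm p.1 v; rwa [hv, mul_one] at this
      refine mul_le_mul_of_nonneg_left ?_ (abs_nonneg _)
      rw [mul_comm (‖p.1‖)]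
      exact mul_le_mul h4 h5 (abs_nonneg _) (norm_nonneg _)
    have hi2 : Integrable (fun p : (EE n) × (EE n) => (1 + ‖p.1‖) ^ 2 * ‖p.2‖)
        ((stdGaussian (EE n)).prod (stdGaussian (EE n))) :=
      integrable_sq_std.mul_prod integrable_norm_std
    have hi3 : Integrable (fun p : (EE n) × (EE n) =>
        δ ^ 2 * ((1 / 2 + ‖B‖ / (2 * η)) * (1 + ∑ i, ‖G i‖) ^ 2 * ((1 + ‖p.1‖) ^ 2 * ‖p.2‖)))
        ((stdGaussian (EE n)).prod (stdGaussian (EE n))) :=
      (hi2.const_mul _).const_mul _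
    have h6 : ∫ p, Psi A B Binv s ε δ (G, p.1) p.2 ∂((stdGaussian (EE n)).prod (stdGaussian (EE n)))
        ≤ ∫ p, (max (Real.sin δ * (τ * (⟪u, p.2⟫ * ⟪p.1, v⟫))) 0
        + δ ^ 2 * ((1 / 2 + ‖B‖ / (2 * η)) * (1 + ∑ i, ‖G i‖) ^ 2 * ((1 + ‖p.1‖) ^ 2 * ‖p.2‖)))
        ∂((stdGaussian (EE n)).prod (stdGaussian (EE n))) :=
      integral_mono (psi_integrable' A B Binv s (hη.trans hηε).le δ G) (hi1.add hi3)
        fun p => hup p.1 p.2
    refine h6.trans ?_
    have hmem : {G | η < hs (Mop A B G) s ∧ hs (Mop A B G) s < ε}.indicator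
        (fun _ => Real.sin δ / Real.pi) G = Real.sin δ / Real.pi :=
      indicator_of_mem (by exact ⟨hmid, hsmall⟩) _
    rw [hmem, integral_add hi1 hi3, integral_const_mul, integral_const_mul, ← hm,
      integral_prod _ hi1]
    have hτ' : |-τ| = 1 := by rw [abs_neg, hτ]
    have h7 := integral_pos_part hu hv hτ' hsin
    rw [neg_neg] at h7
    rw [h7]
    have h8 : δ ^ 2 * ((1 / 2 + ‖B‖ / (2 * η)) * (1 + ∑ i, ‖G i‖) ^ 2 * m)
        = δ ^ 2 * ((1 / 2 + ‖B‖ / (2 * η)) * m) * (1 + ∑ i, ‖G i‖) ^ 2 := by ring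
    rw [h8]
    linarith

/-- The matching lower bound. -/
theorem prob_lower (B Binv : (EE n) →L[ℝ] (EE n)) (hB : ∀ z, B (Binv z) = z) {ε : ℝ}
    (hε : 0 < ε) :
    K0 Binv * ∫ G, XX 0 B 0 ε G ∂(muG n) ≤ (muG n).real {G | hs (Mop 0 B G) 0 < ε} := by
  classical
  set m1 : ℝ := ∫ p : (EE n) × (EE n), (1 + ‖p.1‖) ^ 2 * ‖p.2‖
    ∂((stdGaussian (EE n)).prod (stdGaussian (EE n))) with hm1
  set m2 : ℝ := ∫ p : (EE n) × (EE n), (1 + ‖p.1‖) * ‖p.2‖
    ∂((stdGaussian (EE n)).prod (stdGaussian (EE n))) with hm2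
  set m3 : ℝ := ∫ G : Fin n → EE n, (1 + ∑ i, ‖G i‖) ^ 2 ∂(muG n) with hm3
  set m4 : ℝ := ∫ ω, (∑ i, ‖ω.1 i‖ + ‖ω.2‖) ∂(PP n) with hm4
  have hm20 : 0 ≤ m2 := integral_nonneg fun p => by positivity
  have hm30 : 0 ≤ m3 := integral_nonneg fun p => sq_nonneg _
  have hm10 : 0 ≤ m1 := integral_nonneg fun p => by positivity
  have hpi := Real.pi_pos
  have hEX : ∫ ω, XX 0 B 0 ε ω.1 ∂(PP n) = ∫ G, XX 0 B 0 ε G ∂(muG n) := by
    have h1 : Integrable (fun ω : (Fin n → EE n) × EE n => XX 0 B 0 ε ω.1)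
        ((muG n).prod (stdGaussian (EE n))) :=
      integrable_of_bdd (((XX_continuous 0 B 0 ε).comp continuous_fst).aestronglyMeasurable)
        (C := ε) fun ω => by
          rw [abs_of_nonneg (XX_nonneg 0 B 0 hε.le _)]; exact XX_le 0 B 0 ε ω.1
    have h2 : ∫ ω, XX 0 B 0 ε ω.1 ∂(PP n)
        = ∫ G, ∫ _g : EE n, XX 0 B 0 ε G ∂(stdGaussian (EE n)) ∂(muG n) := integral_prod _ h1
    rw [h2]; simp
  set EX : ℝ := ∫ G, XX 0 B 0 ε G ∂(muG n) with hEXdef
  -- for every small parameter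
  have key : ∀ κ : ℝ, 0 < κ → κ ^ 2 < ε →
      K0 Binv * EX ≤ (muG n).real {G | hs (Mop 0 B G) 0 < ε}
        + Real.pi * m2 * (m3 + K0 Binv) * κ := by
    intro κ hκ hκε
    set η : ℝ := κ ^ 2 with hη
    have hη0 : 0 < η := by positivity
    set S : Set (Fin n → EE n) := {G | η < hs (Mop 0 B G) 0 ∧ hs (Mop 0 B G) 0 < ε} with hS
    set T : Set (Fin n → EE n) := {G | hs (Mop 0 B G) 0 ≤ η} with hT
    have hSm : MeasurableSet S := event_measurable 0 B 0 η ε
    have hTm : MeasurableSet T := measurableSet_le (hs_Mop_measurable 0 B 0) measurable_const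
    have hPT : (muG n).real T ≤ K0 Binv * η := by
      refine ENNReal.toReal_le_of_le_ofReal (mul_nonneg (K0_nonneg _) hη0.le) ?_
      exact tail_hs 0 B Binv hB η
    have hPS : (muG n).real S ≤ (muG n).real {G | hs (Mop 0 B G) 0 < ε} :=
      measureReal_mono (fun G hG => hG.2)
    set C : ℝ := (1 / 2 + ‖B‖ / (2 * η)) * m1 with hC
    have keyN : ∀ N : ℕ, 2 ≤ N → K0 Binv * EX ≤ (muG n).real S
        + Real.pi * m2 * (κ * m3 + κ⁻¹ * (muG n).real T)
        + (K0 Binv * (‖B‖ * m4 * Real.pi) + Real.pi ^ 2 * (C * m3)) / N := by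
      intro N hN
      have hN0 : 0 < N := by omega
      have hN' : (2 : ℝ) ≤ N := by exact_mod_cast hN
      have hNp : (0 : ℝ) < N := by linarith
      set δ : ℝ := Real.pi / N with hδ
      have hδ0 : 0 < δ := by positivity
      have hδ2 : δ ≤ 2 := by
        rw [hδ, div_le_iff₀ hNp]
        linarith [Real.pi_lt_d2]
      have hlo := psi_lower B Binv hε.le hN0
      rw [← hδ, hEX, ← hm4] at hlo
      have hint := psi_integrable 0 B Binv 0 hε.le δ
      rw [integral_prod _ hint] at hlo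
      have hF : Integrable (fun ω : (Fin n → EE n) × EE n =>
          ∫ z, Psi 0 B Binv 0 ε δ ω z ∂(stdGaussian (EE n))) ((muG n).prod (stdGaussian (EE n))) :=
        hint.integral_prod_left
      have hup : ∫ ω, (∫ z, Psi 0 B Binv 0 ε δ ω z ∂(stdGaussian (EE n))) ∂(PP n)
          ≤ (muG n).real S * (Real.sin δ / Real.pi) + δ ^ 2 * C * m3
            + δ * m2 * (κ * m3 + κ⁻¹ * (muG n).real T) := by
        have h1 : ∫ ω, (∫ z, Psi 0 B Binv 0 ε δ ω z ∂(stdGaussian (EE n))) ∂(PP n)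
            = ∫ G, ∫ g, ∫ z, Psi 0 B Binv 0 ε δ (G, g) z ∂(stdGaussian (EE n)) ∂(stdGaussian (EE n))
              ∂(muG n) := integral_prod _ hF
        rw [h1]
        have i1 : Integrable (fun G : Fin n → EE n => S.indicator (fun _ => Real.sin δ / Real.pi) G)
            (muG n) := (integrable_const _).indicator hSm
        have i2 : Integrable (fun G : Fin n → EE n => δ ^ 2 * C * (1 + ∑ i, ‖G i‖) ^ 2)
            (muG n) := integrable_sq_G.const_mul _
        have i3 : Integrable (fun G : Fin n → EE n => κ * (1 + ∑ i, ‖G i‖) ^ 2) (muG n) :=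
          integrable_sq_G.const_mul _
        have i4 : Integrable (fun G : Fin n → EE n => T.indicator (fun _ => κ⁻¹) G)
            (muG n) := (integrable_const _).indicator hTm
        have i5 : Integrable (fun G : Fin n → EE n => δ * m2 *
            (κ * (1 + ∑ i, ‖G i‖) ^ 2 + T.indicator (fun _ => κ⁻¹) G)) (muG n) :=
          (i3.add i4).const_mul _
        have h3 : ∫ G, (S.indicator (fun _ => Real.sin δ / Real.pi) G
            + δ ^ 2 * C * (1 + ∑ i, ‖G i‖) ^ 2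
            + δ * m2 * (κ * (1 + ∑ i, ‖G i‖) ^ 2 + T.indicator (fun _ => κ⁻¹) G)) ∂(muG n)
            = (muG n).real S * (Real.sin δ / Real.pi) + δ ^ 2 * C * m3
            + δ * m2 * (κ * m3 + κ⁻¹ * (muG n).real T) := by
          have i12 : Integrable (fun G : Fin n → EE n =>
            S.indicator (fun _ => Real.sin δ / Real.pi) G + δ ^ 2 * C * (1 + ∑ i, ‖G i‖) ^ 2)
            (muG n) := i1.add i2
          rw [integral_add i12 i5]
          have e1 : ∫ G, (S.indicator (fun _ => Real.sin δ / Real.pi) G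
            + δ ^ 2 * C * (1 + ∑ i, ‖G i‖) ^ 2) ∂(muG n)
            = (muG n).real S * (Real.sin δ / Real.pi) + δ ^ 2 * C * m3 := by
            rw [integral_add i1 i2, integral_indicator hSm, setIntegral_const,
              integral_const_mul, smul_eq_mul]
          have e2 : ∫ G, δ * m2 * (κ * (1 + ∑ i, ‖G i‖) ^ 2 + T.indicator (fun _ => κ⁻¹) G) ∂(muG n)
            = δ * m2 * (κ * m3 + κ⁻¹ * (muG n).real T) := by
            rw [integral_const_mul, integral_add i3 i4, integral_const_mul,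
              integral_indicator hTm, setIntegral_const, smul_eq_mul, mul_comm κ⁻¹]
          rw [e1, e2]
        rw [← h3]
        refine integral_mono hF.integral_prod_left ((i1.add i2).add i5) fun G => ?_
        exact psi_upper_int 0 B Binv hB 0 hη0 hκε hδ0.le hδ2 hκ G
      have hsin : Real.sin δ ≤ δ := Real.sin_le hδ0.le
      have hP0 : 0 ≤ (muG n).real S := measureReal_nonneg
      set P : ℝ := (muG n).real S with hP
      set Q : ℝ := (muG n).real T with hQ
      have h4 : K0 Binv * (EX - ‖B‖ * m4 * δ) ≤ N * (P * (δ / Real.pi) + δ ^ 2 * C * m3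
            + δ * m2 * (κ * m3 + κ⁻¹ * Q)) := by
        refine hlo.trans (mul_le_mul_of_nonneg_left ?_ hNp.le)
        refine hup.trans ?_
        have : P * (Real.sin δ / Real.pi) ≤ P * (δ / Real.pi) := by gcongr
        linarith
      have h6 : N * (P * (δ / Real.pi) + δ ^ 2 * C * m3 + δ * m2 * (κ * m3 + κ⁻¹ * Q))
          = P + Real.pi * m2 * (κ * m3 + κ⁻¹ * Q) + Real.pi ^ 2 * (C * m3) / N := by
        rw [hδ]; field_simp; ring
      have h7 : K0 Binv * (EX - ‖B‖ * m4 * δ)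
          = K0 Binv * EX - K0 Binv * (‖B‖ * m4 * Real.pi) / N := by
        rw [hδ]; field_simp
      rw [h6, h7] at h4
      rw [add_div]
      linarith
    have hlim : Filter.Tendsto (fun N : ℕ => (muG n).real S
        + Real.pi * m2 * (κ * m3 + κ⁻¹ * (muG n).real T)
        + (K0 Binv * (‖B‖ * m4 * Real.pi) + Real.pi ^ 2 * (C * m3)) / N) Filter.atTop
        (nhds ((muG n).real S + Real.pi * m2 * (κ * m3 + κ⁻¹ * (muG n).real T) + 0)) :=
      tendsto_const_nhds.add (tendsto_const_div_atTop_nhds_zero_nat _)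
    rw [add_zero] at hlim
    have h8 : K0 Binv * EX ≤ (muG n).real S + Real.pi * m2 * (κ * m3 + κ⁻¹ * (muG n).real T) := by
      refine ge_of_tendsto hlim ?_
      filter_upwards [Filter.eventually_ge_atTop 2] with N hN using keyN N hN
    have h9 : κ * m3 + κ⁻¹ * (muG n).real T ≤ (m3 + K0 Binv) * κ := by
      have h10 : κ⁻¹ * (muG n).real T ≤ κ⁻¹ * (K0 Binv * η) :=
        mul_le_mul_of_nonneg_left hPT (inv_pos.2 hκ).le
      have h11 : κ⁻¹ * (K0 Binv * η) = K0 Binv * κ := by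
        rw [hη]; field_simp
      rw [h11] at h10
      linarith
    have h12 : Real.pi * m2 * (κ * m3 + κ⁻¹ * (muG n).real T)
        ≤ Real.pi * m2 * ((m3 + K0 Binv) * κ) :=
      mul_le_mul_of_nonneg_left h9 (mul_nonneg hpi.le hm20)
    linarith
  have hlim : Filter.Tendsto (fun κ : ℝ => (muG n).real {G | hs (Mop 0 B G) 0 < ε}
        + Real.pi * m2 * (m3 + K0 Binv) * κ) (nhdsWithin 0 (Ioi 0))
        (nhds ((muG n).real {G | hs (Mop 0 B G) 0 < ε} + Real.pi * m2 * (m3 + K0 Binv) * 0)) := by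
    refine Filter.Tendsto.mono_left ?_ nhdsWithin_le_nhds
    exact (Continuous.tendsto (by fun_prop) 0)
  rw [mul_zero, add_zero] at hlim
  refine ge_of_tendsto hlim ?_
  have hev : ∀ᶠ κ : ℝ in nhdsWithin 0 (Ioi 0), κ ^ 2 < ε := by
    have h1 : Filter.Tendsto (fun κ : ℝ => κ ^ 2) (nhdsWithin 0 (Ioi 0)) (nhds (0 ^ 2)) :=
      Filter.Tendsto.mono_left (Continuous.tendsto (by fun_prop) 0) nhdsWithin_le_nhds
    rw [zero_pow two_ne_zero] at h1
    exact h1.eventually (gt_mem_nhds hε)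
  filter_upwards [hev, self_mem_nhdsWithin] with κ h1 h2 using key κ h2 h1

/-- Two-sided estimate in the centred case. -/
theorem prob_lower' (B Binv : (EE n) →L[ℝ] (EE n)) (hB : ∀ z, B (Binv z) = z) {ε : ℝ}
    (hε : 0 ≤ ε) :
    ENNReal.ofReal (K0 Binv * ε - (K0 Binv * ε) ^ 2 / 2) ≤ muG n {G | hs (Mop 0 B G) 0 ≤ ε} := by
  rcases hε.eq_or_lt with h | h
  · rw [← h]; simp
  have h1 := prob_lower B Binv hB h
  have h2 := mean_XX_lower 0 B Binv hB h.le
  have h3 : K0 Binv * (ε - K0 Binv * ε ^ 2 / 2) ≤ (muG n).real {G | hs (Mop 0 B G) 0 < ε} :=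
    (mul_le_mul_of_nonneg_left h2 (K0_nonneg _)).trans h1
  have h4 : K0 Binv * ε - (K0 Binv * ε) ^ 2 / 2 = K0 Binv * (ε - K0 Binv * ε ^ 2 / 2) := by ring
  rw [h4]
  refine (ENNReal.ofReal_le_ofReal h3).trans ?_
  rw [ofReal_measureReal]
  exact measure_mono fun G (hG : hs (Mop 0 B G) 0 < ε) => hG.le

end Pool.Agent.SSTW
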