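import Pool.Agent.Lib.SSTW.Simple
import Pool.Agent.Lib.SSTW.Sharp2

set_option autoImplicit false
set_option maxHeartbeats 1000000

namespace Pool.Agent.SSTW

open scoped RealInnerProductSpace InnerProduct ENNReal
open InnerProductSpace Set MeasureTheory ProbabilityTheory

variable {n : ℕ}

/-- The expected number of singular values, counted with multiplicity. -/
theorem count_mult [NeZero n] (A B : Matrix (Fin n) (Fin n) ℝ) (hB : B.det ≠ 0) (a b : ℝ) :
    ∫⁻ G, (singCount (A + B * Matrix.of G) a b : ℝ≥0∞) ∂(gaussMatrix n)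
      ≤ ENNReal.ofReal ((b - a) * meanInv B) := by
  have hK : 0 ≤ K0 (op B⁻¹) := integral_nonneg fun _ => norm_nonneg _
  have h1 := count_matrix A B hB (a := a) (b := b)
  rw [← ENNReal.ofReal_mul hK, K0_eq, mul_comm] at h1
  refine le_trans (lintegral_mono_ae ?_) h1
  filter_upwards [ae_nodup A B hB] with G hG
  have h2 := ENat.toENNReal_le.2 (singCount_le hG a b)
  simpa using h2

/-- The smallest singular value in terms of `hs`. -/
theorem exists_of_hs_le [NeZero n] (M : Matrix (Fin n) (Fin n) ℝ) {t : ℝ}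
    (h : hs (op M) 0 ≤ t) :
    ∃ v : Fin n → ℝ, ∑ i, v i ^ 2 = 1 ∧ ∑ i, (M.mulVec v i) ^ 2 ≤ t ^ 2 := by
  obtain ⟨u, v, l, hu, hv, h1, _, h3⟩ := hs_pair (op M) 0
  refine ⟨v.ofLp, ?_, ?_⟩
  · rw [← norm_toLp_sq, WithLp.toLp_ofLp, hv, one_pow]
  · rw [← norm_op_sq, WithLp.toLp_ofLp, h1, norm_smul, hu, mul_one, Real.norm_eq_abs]
    rw [sub_zero] at h3
    rw [h3]
    exact pow_le_pow_left₀ (hs_nonneg _ _) h 2

/-- The lower bound for the smallest singular value of the centred matrix. -/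
theorem small_lower (B : Matrix (Fin n) (Fin n) ℝ) (hB : B.det ≠ 0) {t : ℝ} (ht : 0 ≤ t) :
    ENNReal.ofReal (t * meanInv B - (t * meanInv B) ^ 2 / 2)
      ≤ gaussMatrix n {G | ∃ v : Fin n → ℝ, ∑ i, v i ^ 2 = 1 ∧
        ∑ i, ((B * Matrix.of G).mulVec v i) ^ 2 ≤ t ^ 2} := by
  rcases Nat.eq_zero_or_pos n with h0 | h0
  · subst h0
    have : meanInv B = 0 := by simp [meanInv]
    rw [this]; simp
  have : NeZero n := ⟨h0.ne'⟩
  have hBB : ∀ z, op B (op B⁻¹ z) = z := by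
    intro z
    have h1 : op B (op B⁻¹ z) = (op B * op B⁻¹) z := rfl
    have h2 : op B * op B⁻¹ = 1 := by
      rw [op, op, ← map_mul, Matrix.mul_nonsing_inv _ (isUnit_iff_ne_zero.2 hB), map_one]
    rw [h1, h2]; rfl
  have h1 := prob_lower' (op B) (op B⁻¹) hBB ht
  rw [K0_eq, mul_comm (meanInv B) t] at h1
  refine h1.trans ?_
  have hSm : MeasurableSet {G : Fin n → EE n | hs (Mop 0 (op B) G) 0 ≤ t} :=
    measurableSet_le (hs_Mop_measurable 0 (op B) 0) measurable_const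
  rw [← rows_measurePreserving.measure_preimage hSm.nullMeasurableSet]
  refine measure_mono fun G hG => ?_
  have hG' : hs (Mop 0 (op B) (rows G)) 0 ≤ t := hG
  have h2 : Mop 0 (op B) (rows G) = op (B * Matrix.of G) := by
    have := Mop_rows (0 : Matrix (Fin n) (Fin n) ℝ) B G
    rwa [zero_add, op, map_zero] at this
  rw [h2] at hG'
  exact exists_of_hs_le _ hG'

theorem integral_abs_inner' (a : EE n) : ∫ z, |⟪a, z⟫| ∂(stdGaussian (EE n)) = ‖a‖ * kap := by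
  by_cases ha : a = 0
  · subst ha; simp
  have hn : ‖a‖ ≠ 0 := norm_ne_zero_iff.2 ha
  have hu : ‖(‖a‖⁻¹ • a : EE n)‖ = 1 := by
    rw [norm_smul, norm_inv, norm_norm, inv_mul_cancel₀ hn]
  rw [← integral_abs_inner hu, ← integral_const_mul]
  refine integral_congr_ae (Filter.Eventually.of_forall fun z => ?_)
  show |⟪a, z⟫| = ‖a‖ * |⟪‖a‖⁻¹ • a, z⟫|
  rw [real_inner_smul_left, abs_mul, abs_of_nonneg (inv_nonneg.2 (norm_nonneg a)), ← mul_assoc,
    mul_inv_cancel₀ hn, one_mul]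

theorem kap_eq : kap = Real.sqrt (2 / Real.pi) := by
  rw [← kap_sq, Real.sqrt_sq]
  unfold kap; positivity

theorem cs_row {n : ℕ} {r q : Fin n → ℝ} (hr : 0 < ∑ i, r i ^ 2) :
    ∑ i, r i * |q i| ≤ Real.sqrt (∑ i, r i ^ 2) * Real.sqrt (∑ i, q i ^ 2) := by
  rw [← Real.sqrt_mul hr.le]
  refine Real.le_sqrt_of_sq_le ?_
  have h1 := Finset.sum_mul_sq_le_sq_mul_sq Finset.univ r (fun i => |q i|)
  simpa [sq_abs] using h1

/-- The constant is at least `√(2/π)` times the Frobenius norm. -/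
theorem meanInv_ge (B : Matrix (Fin n) (Fin n) ℝ) :
    Real.sqrt (2 / Real.pi) * Real.sqrt (∑ i, ∑ j, (B⁻¹ i j) ^ 2) ≤ meanInv B := by
  set F2 : ℝ := ∑ i, ∑ j, (B⁻¹ i j) ^ 2 with hF2
  have hF0 : 0 ≤ F2 := Finset.sum_nonneg fun i _ => Finset.sum_nonneg fun j _ => sq_nonneg _
  have hK : 0 ≤ meanInv B := integral_nonneg fun _ => Real.sqrt_nonneg _
  rcases hF0.eq_or_lt with h0 | hF
  · rw [← h0, Real.sqrt_zero, mul_zero]; exact hK
  set a : Fin n → EE n := fun i => WithLp.toLp 2 (B⁻¹ i) with ha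
  have han : ∀ i, ‖a i‖ ^ 2 = ∑ j, (B⁻¹ i j) ^ 2 := fun i => norm_toLp_sq _
  have hsum : ∑ i, ‖a i‖ ^ 2 = F2 := by
    rw [hF2]; exact Finset.sum_congr rfl fun i _ => han i
  have hop : ∀ (z : EE n) (i : Fin n), op B⁻¹ z i = ⟪a i, z⟫ := by
    intro z i
    rw [op_apply, Matrix.mulVec, dotProduct, PiLp.inner_apply]
    refine Finset.sum_congr rfl fun j _ => ?_
    simp [ha, mul_comm]
  have hpt : ∀ z : EE n, ∑ i, ‖a i‖ * |⟪a i, z⟫| ≤ Real.sqrt F2 * ‖op B⁻¹ z‖ := by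
    intro z
    have h1 := cs_row (r := fun i => ‖a i‖) (q := fun i => ⟪a i, z⟫) (by rw [hsum]; exact hF)
    rw [hsum] at h1
    have h2 : ‖op B⁻¹ z‖ = Real.sqrt (∑ i, ⟪a i, z⟫ ^ 2) := by
      rw [← Real.sqrt_sq (norm_nonneg (op B⁻¹ z)), EuclideanSpace.real_norm_sq_eq]
      simp only [hop]
    rw [h2]; exact h1
  have hint : ∀ i, Integrable (fun z : EE n => ‖a i‖ * |⟪a i, z⟫|) (stdGaussian (EE n)) :=
    fun i => (integrable_inner (a i)).abs.const_mul _
  have h3 : ∫ z, ∑ i, ‖a i‖ * |⟪a i, z⟫| ∂(stdGaussian (EE n)) ≤ Real.sqrt F2 * K0 (op B⁻¹) := by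
    rw [K0, ← integral_const_mul]
    exact integral_mono (integrable_finsetSum _ fun i _ => hint i)
      ((K0_integrable (op B⁻¹)).const_mul _) hpt
  have h4 : ∫ z, ∑ i, ‖a i‖ * |⟪a i, z⟫| ∂(stdGaussian (EE n)) = F2 * kap := by
    rw [integral_finsetSum _ fun i _ => hint i, ← hsum, Finset.sum_mul]
    refine Finset.sum_congr rfl fun i _ => ?_
    rw [integral_const_mul, integral_abs_inner']; ring
  rw [h4, K0_eq] at h3
  have hs : 0 < Real.sqrt F2 := Real.sqrt_pos.2 hF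
  have h5 : Real.sqrt F2 * (kap * Real.sqrt F2) ≤ Real.sqrt F2 * meanInv B := by
    calc Real.sqrt F2 * (kap * Real.sqrt F2) = (Real.sqrt F2 * Real.sqrt F2) * kap := by ring
      _ = F2 * kap := by rw [Real.mul_self_sqrt hF0]
      _ ≤ _ := h3
  rw [← kap_eq]
  exact le_of_mul_le_mul_left h5 hs

end Pool.Agent.SSTW
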