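import Pool.Agent.Lib.SSTW.Mat2

set_option autoImplicit false
set_option maxHeartbeats 1000000

namespace Pool.Agent.SSTW

open scoped RealInnerProductSpace InnerProduct ENNReal
open InnerProductSpace Set MeasureTheory ProbabilityTheory

section spec

variable {V : Type*} [NormedAddCommGroup V] [InnerProductSpace ℝ V] [CompleteSpace V]
  [FiniteDimensional ℝ V] [Nontrivial V]

theorem vol_upper (M : V →L[ℝ] V) {a b : ℝ} (ha : hs M a ≠ 0) (hb : hs M b ≠ 0) :
    ∃ ε₀ : ℝ, 0 < ε₀ ∧ ∀ ε : ℝ, 0 < ε → ε ≤ ε₀ →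
      volume {s | s ∈ Ioo a b ∧ 0 < hs M s ∧ hs M s < ε}
        ≤ ((Spec M ∩ Ioo a b).encard : ℝ≥0∞) * ENNReal.ofReal (2 * ε) := by
  classical
  have hfin : (Spec M ∩ Ioo a b).Finite := (Spec_finite M).inter_of_left _
  set F : Finset ℝ := hfin.toFinset with hF
  have hmemF : ∀ l, l ∈ F ↔ l ∈ Spec M ∧ l ∈ Ioo a b := by
    intro l; rw [hF, Set.Finite.mem_toFinset]; rfl
  have ha0 : 0 < hs M a := lt_of_le_of_ne (hs_nonneg M a) ha.symm
  have hb0 : 0 < hs M b := lt_of_le_of_ne (hs_nonneg M b) hb.symm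
  refine ⟨min (hs M a) (hs M b), lt_min ha0 hb0, fun ε hε hεD => ?_⟩
  have hsub : {s | s ∈ Ioo a b ∧ 0 < hs M s ∧ hs M s < ε} ⊆ ⋃ l ∈ F, Ioo (l - ε) (l + ε) := by
    rintro s ⟨hs1, _, hs2⟩
    obtain ⟨l, hl, hls⟩ := exists_mem_Spec M s
    have h1 : |l - s| < ε := by rw [hls]; exact hs2
    have h2 : ε ≤ |l - a| := (hεD.trans (min_le_left _ _)).trans (hs_le_of_mem_Spec hl a)
    have h3 : ε ≤ |l - b| := (hεD.trans (min_le_right _ _)).trans (hs_le_of_mem_Spec hl b)
    rw [abs_lt] at h1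
    have hla : a < l := by
      by_contra hcon
      push Not at hcon
      rw [abs_of_nonpos (by linarith)] at h2
      linarith [hs1.1]
    have hlb : l < b := by
      by_contra hcon
      push Not at hcon
      rw [abs_of_nonneg (by linarith)] at h3
      linarith [hs1.2]
    rw [mem_iUnion₂]
    exact ⟨l, (hmemF l).2 ⟨hl, hla, hlb⟩, by linarith, by linarith⟩
  refine (measure_mono hsub).trans ((measure_biUnion_finset_le F _).trans (le_of_eq ?_))
  have h1 : ∀ l ∈ F, volume (Ioo (l - ε) (l + ε)) = ENNReal.ofReal (2 * ε) := by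
    intro l _
    rw [Real.volume_Ioo]; congr 1; ring
  rw [Finset.sum_congr rfl h1, Finset.sum_const, nsmul_eq_mul]
  congr 1
  rw [Set.Finite.encard_eq_coe_toFinset_card hfin]
  rfl

end spec

variable {n : ℕ}

section mG

variable [NeZero n]

/-- A fixed level is almost surely not in the spectrum. -/
theorem ae_level (A B Binv : (EE n) →L[ℝ] (EE n)) (hB : ∀ z, B (Binv z) = z) (s : ℝ) :
    ∀ᵐ G ∂(muG n), hs (Mop A B G) s ≠ 0 := by
  have h1 := count_closed A B Binv hB s s
  rw [sub_self, ENNReal.ofReal_zero, mul_zero] at h1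
  set S : Set (Fin n → EE n) := {G | hs (Mop A B G) s = 0} with hS
  have hSm : MeasurableSet S := measurableSet_eq_fun (hs_Mop_measurable A B s) measurable_const
  have h2 : muG n S ≤ 0 := by
    refine le_trans ?_ h1
    rw [← lintegral_indicator_one hSm]
    refine lintegral_mono fun G => ?_
    by_cases hG : G ∈ S
    · rw [indicator_of_mem hG]
      have hne : (Spec (Mop A B G) ∩ Icc s s).Nonempty :=
        ⟨s, mem_Spec_of_hs_eq_zero hG, le_rfl, le_rfl⟩
      have h3 : (1 : ℕ∞) ≤ (Spec (Mop A B G) ∩ Icc s s).encard :=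
        Set.one_le_encard_iff_nonempty.2 hne
      have h4 := ENat.toENNReal_le.2 h3
      simpa using h4
    · rw [indicator_of_notMem hG]; exact zero_le
  rw [ae_iff]
  simpa [hS] using h2

/-- The counting function is almost everywhere measurable. -/
theorem aemeasurable_count (A B Binv : (EE n) →L[ℝ] (EE n)) (hB : ∀ z, B (Binv z) = z) (a b : ℝ) :
    AEMeasurable (fun G => ((Spec (Mop A B G) ∩ Icc a b).encard : ℝ≥0∞)) (muG n) := by
  set e : ℕ → ℝ := fun k => 1 / ((k : ℝ) + 1) with he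
  have he0 : ∀ k, 0 < e k := fun k => by positivity
  have hne : ∀ k, ENNReal.ofReal (2 * e k) ≠ 0 := fun k => by
    have := he0 k
    simp only [ne_eq, ENNReal.ofReal_eq_zero, not_le]; positivity
  set f : ℕ → (Fin n → EE n) → ℝ≥0∞ := fun k G =>
    (ENNReal.ofReal (2 * e k))⁻¹ * volume (Prod.mk G ⁻¹' DD A B a b (e k)) with hf
  have hfm : ∀ k, Measurable (f k) := fun k =>
    (measurable_measure_prodMk_left (DD_measurable A B a b (e k))).const_mul _
  refine aemeasurable_of_tendsto_metrizable_ae Filter.atTop (fun k => (hfm k).aemeasurable) ?_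
  filter_upwards [ae_level A B Binv hB a, ae_level A B Binv hB b] with G ha hb
  have hI : Spec (Mop A B G) ∩ Icc a b = Spec (Mop A B G) ∩ Ioo a b := by
    ext l
    constructor
    · rintro ⟨hl, h1, h2⟩
      have h0 : ∀ s, hs (Mop A B G) s ≠ 0 → l ≠ s := by
        intro s hs0 hls
        subst hls
        apply hs0
        have := hs_le_of_mem_Spec hl l
        rw [sub_self, abs_zero] at this
        exact le_antisymm this (hs_nonneg _ _)
      exact ⟨hl, lt_of_le_of_ne h1 (h0 a ha).symm, lt_of_le_of_ne h2 (h0 b hb)⟩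
    · rintro ⟨hl, h1, h2⟩
      exact ⟨hl, h1.le, h2.le⟩
  rw [hI]
  obtain ⟨ε₁, hε₁, hlow⟩ := vol_lower (Mop A B G) a b
  obtain ⟨ε₂, hε₂, hupp⟩ := vol_upper (Mop A B G) ha hb
  have hev : ∀ᶠ k : ℕ in Filter.atTop, e k ≤ min ε₁ ε₂ := by
    have : Filter.Tendsto e Filter.atTop (nhds 0) := tendsto_one_div_add_atTop_nhds_zero_nat
    filter_upwards [this.eventually (gt_mem_nhds (lt_min hε₁ hε₂))] with k hk using hk.le
  refine tendsto_const_nhds.congr' ?_
  filter_upwards [hev] with k hk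
  have h1 := hlow (e k) (he0 k) (hk.trans (min_le_left _ _))
  have h2 := hupp (e k) (he0 k) (hk.trans (min_le_right _ _))
  have h3 : volume (Prod.mk G ⁻¹' DD A B a b (e k))
      = ((Spec (Mop A B G) ∩ Ioo a b).encard : ℝ≥0∞) * ENNReal.ofReal (2 * e k) :=
    le_antisymm h2 h1
  show _ = (ENNReal.ofReal (2 * e k))⁻¹ * volume (Prod.mk G ⁻¹' DD A B a b (e k))
  rw [h3, mul_comm, mul_assoc, ENNReal.mul_inv_cancel (hne k) ENNReal.ofReal_ne_top, mul_one]

end mG

theorem isSingVal_of_mem_Spec {M : Matrix (Fin n) (Fin n) ℝ} {l : ℝ} (hl : 0 ≤ l)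
    (h : l ∈ Spec (op M)) : IsSingVal M l := by
  obtain ⟨x, y, hxy, h1, h2⟩ := h
  refine ⟨hl, ?_⟩
  have hMy : M.mulVec y.ofLp = l • x.ofLp := by
    funext i
    have := congrArg (fun w : EE n => w i) h1
    simp only [op_apply] at this
    rw [this]; rfl
  have hMx : M.transpose.mulVec x.ofLp = l • y.ofLp := by
    funext i
    rw [adjoint_op] at h2
    have := congrArg (fun w : EE n => w i) h2
    simp only [op_apply] at this
    rw [this]; rfl
  by_cases hy : y = 0
  · have hx : x ≠ 0 := by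
      rcases hxy with h | h
      · exact h
      · exact absurd hy h
    have hx' : x.ofLp ≠ 0 := fun h0 => hx (by
      apply WithLp.ofLp_injective; rw [h0]; rfl)
    rw [hy] at hMx hMy
    have hl0 : l = 0 := by
      by_contra hne
      apply hx'
      have h3 : l • x.ofLp = 0 := by
        rw [← hMy]
        show M.mulVec (0 : Fin n → ℝ) = 0
        exact Matrix.mulVec_zero M
      exact (smul_eq_zero.1 h3).resolve_left hne
    have h4 : M.transpose.det = 0 := by
      rw [← Matrix.exists_mulVec_eq_zero_iff]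
      refine ⟨x.ofLp, hx', ?_⟩
      rw [hMx]
      show l • (0 : Fin n → ℝ) = 0
      exact smul_zero l
    rw [hl0]
    simp [Matrix.det_mul, h4]
  · have hy' : y.ofLp ≠ 0 := fun h0 => hy (by
      apply WithLp.ofLp_injective; rw [h0]; rfl)
    rw [← Matrix.exists_mulVec_eq_zero_iff]
    refine ⟨y.ofLp, hy', ?_⟩
    rw [Matrix.sub_mulVec, ← Matrix.mulVec_mulVec, hMy, Matrix.mulVec_smul, hMx, smul_smul,
      Matrix.smul_mulVec, Matrix.one_mulVec, sq, sub_self]

theorem root_of_isSingVal {M : Matrix (Fin n) (Fin n) ℝ} {l : ℝ} (h : IsSingVal M l) :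
    l ^ 2 ∈ (M.transpose * M).charpoly.roots := by
  rw [Polynomial.mem_roots (Matrix.charpoly_monic _).ne_zero, Polynomial.IsRoot,
    Matrix.eval_charpoly]
  have h2 : Matrix.scalar (Fin n) (l ^ 2) - M.transpose * M
      = -(M.transpose * M - (l ^ 2) • (1 : Matrix (Fin n) (Fin n) ℝ)) := by
    rw [neg_sub]
    congr 1
    ext i j
    simp [Matrix.scalar_apply, Matrix.diagonal_apply, Matrix.one_apply]
  rw [h2, Matrix.det_neg, h.2, mul_zero]

theorem singCount_ge {M : Matrix (Fin n) (Fin n) ℝ} (a b : ℝ) :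
    {l : ℝ | l ∈ Icc a b ∧ IsSingVal M l}.encard ≤ (singCount M a b : ℕ∞) := by
  classical
  unfold singCount
  set R := (M.transpose * M).charpoly.roots.filter fun x => a ≤ Real.sqrt x ∧ Real.sqrt x ≤ b
    with hR
  have hinj : Set.InjOn (fun l : ℝ => l ^ 2) {l : ℝ | l ∈ Icc a b ∧ IsSingVal M l} := by
    intro x hx y hy hxy
    exact (pow_left_inj₀ hx.2.1 hy.2.1 two_ne_zero).1 hxy
  rw [← hinj.encard_image]
  have hsub : (fun l : ℝ => l ^ 2) '' {l : ℝ | l ∈ Icc a b ∧ IsSingVal M l}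
      ⊆ ((R.toFinset : Finset ℝ) : Set ℝ) := by
    rintro _ ⟨l, ⟨hl, hs⟩, rfl⟩
    rw [Finset.mem_coe, Multiset.mem_toFinset, hR, Multiset.mem_filter]
    refine ⟨root_of_isSingVal hs, ?_⟩
    rw [Real.sqrt_sq hs.1]
    exact hl
  refine (Set.encard_le_encard hsub).trans ?_
  rw [Set.encard_coe_eq_coe_finsetCard]
  exact_mod_cast Multiset.toFinset_card_le R

/-- The number of singular values in an interval is an almost everywhere measurable function. -/
theorem aemeasurable_singCount (A B : Matrix (Fin n) (Fin n) ℝ) (hB : B.det ≠ 0) (a b : ℝ) :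
    AEMeasurable (fun G => (singCount (A + B * Matrix.of G) a b : ℝ≥0∞)) (gaussMatrix n) := by
  rcases Nat.eq_zero_or_pos n with h0 | h0
  · subst h0
    exact measurable_of_finite _ |>.aemeasurable
  have : NeZero n := ⟨h0.ne'⟩
  have hBB : ∀ z, op B (op B⁻¹ z) = z := by
    intro z
    have h1 : op B (op B⁻¹ z) = (op B * op B⁻¹) z := rfl
    have h2 : op B * op B⁻¹ = 1 := by
      rw [op, op, ← map_mul, Matrix.mul_nonsing_inv _ (isUnit_iff_ne_zero.2 hB), map_one]
    rw [h1, h2]; rfl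
  have h1 := (aemeasurable_count (op A) (op B) (op B⁻¹) hBB (max a 0) b).comp_quasiMeasurePreserving
    rows_measurePreserving.quasiMeasurePreserving
  refine h1.congr ?_
  filter_upwards [ae_nodup A B hB] with G hG
  show ((Spec (Mop (op A) (op B) (rows G)) ∩ Icc (max a 0) b).encard : ℝ≥0∞)
    = (singCount (A + B * Matrix.of G) a b : ℝ≥0∞)
  rw [Mop_rows]
  have h2 : Spec (op (A + B * Matrix.of G)) ∩ Icc (max a 0) b
      = {l : ℝ | l ∈ Icc a b ∧ IsSingVal (A + B * Matrix.of G) l} := by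
    ext l
    constructor
    · rintro ⟨hl, h3, h4⟩
      exact ⟨⟨(le_max_left _ _).trans h3, h4⟩, isSingVal_of_mem_Spec ((le_max_right _ _).trans h3) hl⟩
    · rintro ⟨⟨h3, h4⟩, hs⟩
      exact ⟨mem_Spec_of_isSingVal hs, max_le h3 hs.1, h4⟩
  rw [h2]
  have h3 := le_antisymm (singCount_le hG a b) (singCount_ge a b)
  rw [← h3]
  simp

end Pool.Agent.SSTW
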