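import Pool.Agent.Lib.SSTW.Expect

set_option autoImplicit false
set_option maxHeartbeats 1000000

namespace Pool.Agent.SSTW

open scoped RealInnerProductSpace InnerProduct ENNReal
open InnerProductSpace Set MeasureTheory ProbabilityTheory

variable {n : ℕ}

/-- Variation along a grid is at least the variation through one intermediate point. -/
theorem grid_lower (φ : ℕ → ℝ) {m j : ℕ} (hj : j ≤ m) :
    φ 0 + φ m - 2 * φ j ≤ ∑ i ∈ Finset.range m, |φ (i + 1) - φ i| := by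
  have h1 := dist_le_range_sum_dist φ j
  have h2 := dist_le_Ico_sum_dist φ hj
  have h3 : ∑ i ∈ Finset.range m, |φ (i + 1) - φ i| = ∑ i ∈ Finset.range m, dist (φ i) (φ (i + 1)) :=
    Finset.sum_congr rfl fun i _ => by rw [dist_comm, Real.dist_eq]
  rw [h3, ← Finset.sum_range_add_sum_Ico _ hj]
  rw [Real.dist_eq] at h1 h2
  have h4 := le_abs_self (φ 0 - φ j)
  have h5 := neg_le_abs (φ j - φ m)
  linarith

theorem adjoint_Lop_apply (G : Fin n → EE n) (w : EE n) :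
    ContinuousLinearMap.adjoint (Lop G) w = ∑ i, w i • G i := by
  refine ext_inner_right ℝ fun v => ?_
  rw [ContinuousLinearMap.adjoint_inner_left, sum_inner, PiLp.inner_apply]
  refine Finset.sum_congr rfl fun i _ => ?_
  rw [Lop_apply, real_inner_smul_left]
  simp [mul_comm]

/-- Along half a turn the matrix becomes singular at some moment. -/
theorem exists_zero [NeZero n] (B : (EE n) →L[ℝ] (EE n)) {w : EE n} (hw : ‖w‖ = 1)
    (ω : (Fin n → EE n) × EE n) :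
    ∃ θ ∈ Icc (0 : ℝ) Real.pi, hs (Mop 0 B (rotL w θ ω).1) 0 = 0 := by
  set y : EE n := ∑ i, w i • ω.1 i with hy
  set L : EE n →L[ℝ] EE n := Lop ω.1 - rankOne ℝ w y with hL
  have hw0 : w ≠ 0 := by
    intro h; rw [h, norm_zero] at hw; exact one_ne_zero hw.symm
  have hadj : ContinuousLinearMap.adjoint L w = 0 := by
    rw [hL, map_sub, sub_apply, adjoint_Lop_apply, adjoint_rankOne, rankOne_apply,
      real_inner_self_eq_norm_sq, hw, one_pow, one_smul, hy, sub_self]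
  obtain ⟨k, hk0, hk⟩ := adjoint_ker_of_ker (ContinuousLinearMap.adjoint L) hw0 hadj
  rw [ContinuousLinearMap.adjoint_adjoint, hL, sub_apply, rankOne_apply, sub_eq_zero] at hk
  -- the crossing moment
  set f : ℝ → ℝ := fun θ => Real.cos θ * ⟪y, k⟫ + Real.sin θ * ⟪ω.2, k⟫ with hf
  have hfc : Continuous f := by fun_prop
  have hf0 : f 0 = ⟪y, k⟫ := by simp [hf]
  have hfpi : f Real.pi = -⟪y, k⟫ := by simp [hf]
  have hz : ∃ θ ∈ Icc (0 : ℝ) Real.pi, f θ = 0 := by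
    rcases le_total 0 ⟪y, k⟫ with h | h
    · have := intermediate_value_Icc' Real.pi_pos.le hfc.continuousOn
      have h0 : (0 : ℝ) ∈ Icc (f Real.pi) (f 0) := by
        rw [hf0, hfpi]; exact ⟨by linarith, h⟩
      obtain ⟨θ, hθ, hθ0⟩ := this h0
      exact ⟨θ, hθ, hθ0⟩
    · have := intermediate_value_Icc Real.pi_pos.le hfc.continuousOn
      have h0 : (0 : ℝ) ∈ Icc (f 0) (f Real.pi) := by
        rw [hf0, hfpi]; exact ⟨h, by linarith⟩
      obtain ⟨θ, hθ, hθ0⟩ := this h0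
      exact ⟨θ, hθ, hθ0⟩
  obtain ⟨θ, hθ, hθ0⟩ := hz
  refine ⟨θ, hθ, ?_⟩
  have hMk : Mop 0 B (rotL w θ ω).1 k = 0 := by
    rw [Mop_curve, curve, add_apply, sub_apply, rankOne_apply, rankOne_apply, ← hy]
    have h1 : Mop 0 B ω.1 k = ⟪y, k⟫ • B w := by
      rw [Mop, zero_add, ContinuousLinearMap.comp_apply, hk, map_smul]
    rw [h1, sub_self, zero_add, inner_add_left, real_inner_smul_left, real_inner_smul_left]
    have h2 : Real.cos θ * ⟪y, k⟫ + Real.sin θ * ⟪ω.2, k⟫ = 0 := hθ0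
    rw [h2, zero_smul]
  have hmem : (0 : ℝ) ∈ Spec (Mop 0 B (rotL w θ ω).1) := by
    refine ⟨0, k, Or.inr hk0, ?_, ?_⟩
    · rw [hMk, smul_zero]
    · rw [map_zero, zero_smul]
  have h3 := hs_le_of_mem_Spec hmem 0
  rw [sub_self, abs_zero] at h3
  exact le_antisymm h3 (hs_nonneg _ _)

theorem lip_real {r bw b y R g c d a : ℝ} (hr : 0 ≤ r) (hbw : 0 ≤ bw) (h2 : bw ≤ b)
    (hy : 0 ≤ y) (hg : 0 ≤ g) (hyR : y ≤ R) (h3 : r ≤ c * y + d * g) (hc : 0 ≤ c) (h4 : c ≤ a)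
    (hd : 0 ≤ d) (h5 : d ≤ a) : bw * r ≤ b * (R + g) * a := by
  have ha : 0 ≤ a := hc.trans h4
  have hR : 0 ≤ R := hy.trans hyR
  have e1 : c * y ≤ a * R := mul_le_mul h4 hyR hy ha
  have e2 : d * g ≤ a * g := mul_le_mul_of_nonneg_right h5 hg
  have e3 : r ≤ a * (R + g) := by linarith
  calc bw * r ≤ b * (a * (R + g)) := mul_le_mul h2 e3 hr (hbw.trans h2)
    _ = b * (R + g) * a := by ring

/-- Lipschitz bound along the rotation. -/
theorem hs_rot_lip [NeZero n] (A B : (EE n) →L[ℝ] (EE n)) {w : EE n} (hw : ‖w‖ = 1) (s θ θ' : ℝ)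
    (ω : (Fin n → EE n) × EE n) :
    hs (Mop A B (rotL w θ ω).1) s ≤ hs (Mop A B (rotL w θ' ω).1) s
      + ‖B‖ * (∑ i, ‖ω.1 i‖ + ‖ω.2‖) * |θ - θ'| := by
  set y : EE n := ∑ i, w i • ω.1 i with hy
  have hyn : ‖y‖ ≤ ∑ i, ‖ω.1 i‖ := norm_rowsum_le hw ω.1
  have h1 : Mop A B (rotL w θ ω).1 = Mop A B (rotL w θ' ω).1
      + rankOne ℝ (B w) ((Real.cos θ - Real.cos θ') • y + (Real.sin θ - Real.sin θ') • ω.2) := by
    rw [Mop_curve, Mop_curve, curve, curve, add_assoc, ← map_add, ← hy]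
    congr 2
    module
  rw [h1]
  refine (hs_add_le _ _ _).trans ?_
  refine add_le_add_right ?_ _
  rw [norm_rankOne]
  have h2 : ‖B w‖ ≤ ‖B‖ := by
    have := B.le_opNorm w; rwa [hw, mul_one] at this
  have h3 : ‖(Real.cos θ - Real.cos θ') • y + (Real.sin θ - Real.sin θ') • ω.2‖
      ≤ |Real.cos θ - Real.cos θ'| * ‖y‖ + |Real.sin θ - Real.sin θ'| * ‖ω.2‖ := by
    refine (norm_add_le _ _).trans (le_of_eq ?_)
    rw [norm_smul, norm_smul, Real.norm_eq_abs, Real.norm_eq_abs]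
  have h4 := Real.abs_cos_sub_cos_le θ θ'
  have h5 := Real.abs_sin_sub_sin_le θ θ'
  have hB0 : 0 ≤ ‖B‖ := norm_nonneg B
  have hBw0 : 0 ≤ ‖B w‖ := norm_nonneg _
  have hy0 : 0 ≤ ‖y‖ := norm_nonneg _
  have hg0 : 0 ≤ ‖ω.2‖ := norm_nonneg _
  have hR0 : 0 ≤ ‖(Real.cos θ - Real.cos θ') • y + (Real.sin θ - Real.sin θ') • ω.2‖ := norm_nonneg _
  exact lip_real hR0 hBw0 h2 hy0 hg0 hyn h3 (abs_nonneg _) h4 (abs_nonneg _) h5

/-- Pathwise lower bound for the variation over half a turn. -/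
theorem path_lower [NeZero n] (B : (EE n) →L[ℝ] (EE n)) {w : EE n} (hw : ‖w‖ = 1) {ε : ℝ}
    (hε : 0 ≤ ε) (ω : (Fin n → EE n) × EE n) {m : ℕ} (hm : 0 < m) :
    XX 0 B 0 ε ω.1 + XX 0 B 0 ε (rotL w Real.pi ω).1
      - 2 * (‖B‖ * (∑ i, ‖ω.1 i‖ + ‖ω.2‖) * (Real.pi / m))
    ≤ ∑ j ∈ Finset.range m, |XX 0 B 0 ε (rotL w (Real.pi / m * (j + 1 : ℕ)) ω).1
        - XX 0 B 0 ε (rotL w (Real.pi / m * j) ω).1| := by
  have hm' : (0 : ℝ) < m := by exact_mod_cast hm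
  set δ : ℝ := Real.pi / m with hδ
  have hδ0 : 0 < δ := by positivity
  obtain ⟨θ, hθ, hθ0⟩ := exists_zero B hw ω
  set j : ℕ := ⌊θ / δ⌋₊ with hj
  have hj1 : (j : ℝ) ≤ θ / δ := Nat.floor_le (div_nonneg hθ.1 hδ0.le)
  have hj2 : θ / δ < j + 1 := Nat.lt_floor_add_one _
  rw [le_div_iff₀ hδ0] at hj1
  rw [div_lt_iff₀ hδ0] at hj2
  have hjm : j ≤ m := by
    have : (j : ℝ) ≤ m := by
      have h1 : (j : ℝ) * δ ≤ m * δ := by
        calc (j : ℝ) * δ ≤ θ := hj1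
          _ ≤ Real.pi := hθ.2
          _ = m * δ := by rw [hδ]; field_simp
      exact le_of_mul_le_mul_right h1 hδ0
    exact_mod_cast this
  have hg := grid_lower (fun i : ℕ => XX 0 B 0 ε (rotL w (δ * i) ω).1) hjm
  have h0 : XX 0 B 0 ε (rotL w (δ * (0 : ℕ)) ω).1 = XX 0 B 0 ε ω.1 := by
    rw [Nat.cast_zero, mul_zero, rotL_zero]
  have hmm : δ * m = Real.pi := by rw [hδ]; field_simp
  have hjj : XX 0 B 0 ε (rotL w (δ * j) ω).1 ≤ ‖B‖ * (∑ i, ‖ω.1 i‖ + ‖ω.2‖) * δ := by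
    refine (min_le_left _ _).trans ?_
    refine (hs_rot_lip 0 B hw 0 (δ * j) θ ω).trans ?_
    rw [hθ0, zero_add]
    have : |δ * j - θ| ≤ δ := by
      rw [abs_le]; constructor <;> nlinarith
    refine mul_le_mul_of_nonneg_left this (mul_nonneg (norm_nonneg _) (add_nonneg ?_ (norm_nonneg _)))
    exact Finset.sum_nonneg fun _ _ => norm_nonneg _
  simp only [h0, hmm] at hg
  have hg' : XX 0 B 0 ε ω.1 + XX 0 B 0 ε (rotL w Real.pi ω).1
      - 2 * XX 0 B 0 ε (rotL w (δ * j) ω).1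
      ≤ ∑ j ∈ Finset.range m, |XX 0 B 0 ε (rotL w (δ * (j + 1 : ℕ)) ω).1
        - XX 0 B 0 ε (rotL w (δ * j) ω).1| := hg
  linarith

/-- Expected variation over half a turn, positive part. -/
theorem flow_lower_pos [NeZero n] (B : (EE n) →L[ℝ] (EE n)) {w : EE n} (hw : ‖w‖ = 1) {ε : ℝ}
    (hε : 0 ≤ ε) {m : ℕ} (hm : 0 < m) :
    ∫ ω, XX 0 B 0 ε ω.1 ∂(PP n)
      - ‖B‖ * (∫ ω, (∑ i, ‖ω.1 i‖ + ‖ω.2‖) ∂(PP n)) * (Real.pi / m)
    ≤ m * ∫ ω, max (XX 0 B 0 ε (rotL w (Real.pi / m) ω).1 - XX 0 B 0 ε ω.1) 0 ∂(PP n) := by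
  set δ : ℝ := Real.pi / m with hδ
  have hXc : Continuous fun ω : (Fin n → EE n) × EE n => XX 0 B 0 ε ω.1 :=
    (XX_continuous 0 B 0 ε).comp continuous_fst
  have hcont : ∀ θ : ℝ, Continuous fun ω : (Fin n → EE n) × EE n => XX 0 B 0 ε (rotL w θ ω).1 :=
    fun θ => hXc.comp (rotL w θ).continuous
  have hb1 : ∀ G : Fin n → EE n, |XX 0 B 0 ε G| ≤ ε := fun G => by
    rw [abs_of_nonneg (XX_nonneg 0 B 0 hε G)]; exact XX_le 0 B 0 ε G
  have hi : ∀ θ : ℝ, Integrable (fun ω : (Fin n → EE n) × EE n => XX 0 B 0 ε (rotL w θ ω).1) (PP n) :=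
    fun θ => integrable_of_bdd (hcont θ).aestronglyMeasurable (C := ε) fun ω => hb1 _
  have hi0 : Integrable (fun ω : (Fin n → EE n) × EE n => XX 0 B 0 ε ω.1) (PP n) :=
    integrable_of_bdd hXc.aestronglyMeasurable (C := ε) fun ω => hb1 _
  have hmean : ∀ θ : ℝ, ∫ ω, XX 0 B 0 ε (rotL w θ ω).1 ∂(PP n) = ∫ ω, XX 0 B 0 ε ω.1 ∂(PP n) := by
    intro θ
    have hmp := rotL_measurePreserving hw θ
    conv_rhs => rw [← hmp.map_eq]
    rw [integral_map hmp.measurable.aemeasurable hXc.aestronglyMeasurable]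
  have hstat : ∀ j : ℕ, ∫ ω, |XX 0 B 0 ε (rotL w (δ * (j + 1 : ℕ)) ω).1
      - XX 0 B 0 ε (rotL w (δ * j) ω).1| ∂(PP n)
      = ∫ ω, |XX 0 B 0 ε (rotL w δ ω).1 - XX 0 B 0 ε ω.1| ∂(PP n) := by
    intro j
    have hmp := rotL_measurePreserving hw (δ * j)
    have h1 : ∫ ω, |XX 0 B 0 ε (rotL w δ ω).1 - XX 0 B 0 ε ω.1| ∂(PP n)
        = ∫ ω, |XX 0 B 0 ε (rotL w δ ω).1 - XX 0 B 0 ε ω.1| ∂((PP n).map (rotL w (δ * j))) := by
      rw [hmp.map_eq]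
    have hc : Continuous fun ω : (Fin n → EE n) × EE n =>
        |XX 0 B 0 ε (rotL w δ ω).1 - XX 0 B 0 ε ω.1| := ((hcont δ).sub hXc).abs
    rw [h1, integral_map hmp.measurable.aemeasurable hc.aestronglyMeasurable]
    refine integral_congr_ae (Filter.Eventually.of_forall fun ω => ?_)
    show |XX 0 B 0 ε (rotL w (δ * (j + 1 : ℕ)) ω).1 - XX 0 B 0 ε (rotL w (δ * j) ω).1|
      = |XX 0 B 0 ε (rotL w δ (rotL w (δ * j) ω)).1 - XX 0 B 0 ε (rotL w (δ * j) ω).1|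
    rw [rotL_rotL hw]
    congr 5
    push_cast; ring_nf
  have hiabs : ∀ θ θ' : ℝ, Integrable (fun ω : (Fin n → EE n) × EE n =>
      |XX 0 B 0 ε (rotL w θ ω).1 - XX 0 B 0 ε (rotL w θ' ω).1|) (PP n) :=
    fun θ θ' => ((hi θ).sub (hi θ')).abs
  have hsum : ∫ ω, ∑ j ∈ Finset.range m, |XX 0 B 0 ε (rotL w (δ * (j + 1 : ℕ)) ω).1
      - XX 0 B 0 ε (rotL w (δ * j) ω).1| ∂(PP n)
      = m * ∫ ω, |XX 0 B 0 ε (rotL w δ ω).1 - XX 0 B 0 ε ω.1| ∂(PP n) := by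
    rw [integral_finsetSum _ fun j _ => hiabs _ _]
    simp_rw [hstat]
    simp
  have hR : Integrable (fun ω : (Fin n → EE n) × EE n => ∑ i, ‖ω.1 i‖ + ‖ω.2‖) (PP n) := by
    have h1 : Integrable (fun G : Fin n → EE n => ∑ i, ‖G i‖) (muG n) := by
      refine integrable_finsetSum _ fun i _ => ?_
      exact (measurePreserving_eval (fun _ : Fin n => stdGaussian (EE n)) i).integrable_comp_of_integrable
        integrable_norm_std
    exact (h1.comp_fst (stdGaussian (EE n))).add (integrable_norm_std.comp_snd (muG n))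
  have hlow : ∫ ω, (XX 0 B 0 ε ω.1 + XX 0 B 0 ε (rotL w Real.pi ω).1
      - 2 * (‖B‖ * (∑ i, ‖ω.1 i‖ + ‖ω.2‖) * δ)) ∂(PP n)
      ≤ m * ∫ ω, |XX 0 B 0 ε (rotL w δ ω).1 - XX 0 B 0 ε ω.1| ∂(PP n) := by
    rw [← hsum]
    refine integral_mono ?_ (integrable_finsetSum _ fun j _ => hiabs _ _) fun ω =>
      path_lower B hw hε ω hm
    exact (hi0.add (hi _)).sub (((hR.const_mul _).mul_const _).const_mul _)
  have hiA : Integrable (fun ω : (Fin n → EE n) × EE n => XX 0 B 0 ε ω.1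
      + XX 0 B 0 ε (rotL w Real.pi ω).1) (PP n) := hi0.add (hi _)
  have hiB : Integrable (fun ω : (Fin n → EE n) × EE n =>
      2 * (‖B‖ * (∑ i, ‖ω.1 i‖ + ‖ω.2‖) * δ)) (PP n) := ((hR.const_mul _).mul_const _).const_mul _
  have hL : ∫ ω, (XX 0 B 0 ε ω.1 + XX 0 B 0 ε (rotL w Real.pi ω).1
      - 2 * (‖B‖ * (∑ i, ‖ω.1 i‖ + ‖ω.2‖) * δ)) ∂(PP n)
      = 2 * ∫ ω, XX 0 B 0 ε ω.1 ∂(PP n)
        - 2 * (‖B‖ * (∫ ω, (∑ i, ‖ω.1 i‖ + ‖ω.2‖) ∂(PP n)) * δ) := by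
    rw [integral_sub hiA hiB, integral_add hi0 (hi _), hmean, integral_const_mul,
      integral_mul_const, integral_const_mul]
    ring
  have hmax : ∀ ω : (Fin n → EE n) × EE n,
      max (XX 0 B 0 ε (rotL w δ ω).1 - XX 0 B 0 ε ω.1) 0
      = (1 / 2) * |XX 0 B 0 ε (rotL w δ ω).1 - XX 0 B 0 ε ω.1|
        + (1 / 2) * (XX 0 B 0 ε (rotL w δ ω).1 - XX 0 B 0 ε ω.1) := by
    intro ω
    rcases le_total (XX 0 B 0 ε ω.1) (XX 0 B 0 ε (rotL w δ ω).1) with h1 | h1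
    · rw [max_eq_left (by linarith), abs_of_nonneg (by linarith)]; ring
    · rw [max_eq_right (by linarith), abs_of_nonpos (by linarith)]; ring
  have hpos : ∫ ω, max (XX 0 B 0 ε (rotL w δ ω).1 - XX 0 B 0 ε ω.1) 0 ∂(PP n)
      = 1 / 2 * ∫ ω, |XX 0 B 0 ε (rotL w δ ω).1 - XX 0 B 0 ε ω.1| ∂(PP n) := by
    have hiC : Integrable (fun ω : (Fin n → EE n) × EE n =>
        (1 / 2) * |XX 0 B 0 ε (rotL w δ ω).1 - XX 0 B 0 ε ω.1|) (PP n) :=
      ((hi δ).sub hi0).abs.const_mul _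
    have hiD : Integrable (fun ω : (Fin n → EE n) × EE n =>
        (1 / 2) * (XX 0 B 0 ε (rotL w δ ω).1 - XX 0 B 0 ε ω.1)) (PP n) :=
      ((hi δ).sub hi0).const_mul _
    simp_rw [hmax]
    rw [integral_add hiC hiD,
      integral_const_mul, integral_const_mul, integral_sub (hi δ) hi0, hmean, sub_self, mul_zero,
      add_zero]
  rw [hL] at hlow
  rw [hpos]
  linarith

end Pool.Agent.SSTW
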