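import Pool.Agent.Lib.SSTW.Lower

set_option autoImplicit false

namespace Pool.Agent.SSTW

open scoped RealInnerProductSpace InnerProduct
open InnerProductSpace Set MeasureTheory ProbabilityTheory

variable {n : ℕ}

/-- The law of the rows of the noise. -/
noncomputable abbrev muG (n : ℕ) : Measure (Fin n → EE n) :=
  Measure.pi fun _ : Fin n => stdGaussian (EE n)

/-- The mean of `‖B⁻¹ z‖`. -/
noncomputable def K0 (Binv : (EE n) →L[ℝ] (EE n)) : ℝ := ∫ z, ‖Binv z‖ ∂(stdGaussian (EE n))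

theorem K0_integrable (Binv : (EE n) →L[ℝ] (EE n)) :
    Integrable (fun z : EE n => ‖Binv z‖) (stdGaussian (EE n)) := by
  refine (integrable_norm_std.const_mul ‖Binv‖).mono'
    Binv.continuous.norm.aestronglyMeasurable ?_
  refine Filter.Eventually.of_forall fun z => ?_
  rw [norm_norm]
  exact Binv.le_opNorm z

theorem K0_nonneg (Binv : (EE n) →L[ℝ] (EE n)) : 0 ≤ K0 Binv :=
  integral_nonneg fun _ => norm_nonneg _

variable [NeZero n]

theorem phi_abs_le (A B Binv : (EE n) →L[ℝ] (EE n)) (s : ℝ) {ε : ℝ} (hε : 0 ≤ ε) (δ : ℝ)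
    (ω : (Fin n → EE n) × EE n) (z : EE n) : ‖Phi A B Binv s ε δ ω z‖ ≤ ‖Binv z‖ * ε := by
  rw [Real.norm_eq_abs, abs_of_nonneg (phi_nonneg _ _ _ _ _ _ _ _)]
  exact phi_le A B Binv s hε δ ω z

theorem phi_integrable (A B Binv : (EE n) →L[ℝ] (EE n)) (s : ℝ) {ε : ℝ} (hε : 0 ≤ ε) (δ : ℝ) :
    Integrable (fun p : ((Fin n → EE n) × EE n) × EE n => Phi A B Binv s ε δ p.1 p.2)
      ((PP n).prod (stdGaussian (EE n))) := by
  have h1 : Integrable (fun p : ((Fin n → EE n) × EE n) × EE n => ‖Binv p.2‖ * ε)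
      ((PP n).prod (stdGaussian (EE n))) := by
    have := (K0_integrable Binv).comp_snd (PP n)
    exact this.mul_const ε
  refine h1.mono' (phi_measurable A B Binv s ε δ).aestronglyMeasurable ?_
  exact Filter.Eventually.of_forall fun p => phi_abs_le A B Binv s hε δ p.1 p.2

attribute [local irreducible] Phi in
theorem phi_integrable' (A B Binv : (EE n) →L[ℝ] (EE n)) (s : ℝ) {ε : ℝ} (hε : 0 ≤ ε) (δ : ℝ)
    (G : Fin n → EE n) :
    Integrable (fun p : (EE n) × (EE n) => Phi A B Binv s ε δ (G, p.1) p.2)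
      ((stdGaussian (EE n)).prod (stdGaussian (EE n))) := by
  have h1 : Integrable (fun p : (EE n) × (EE n) => ‖Binv p.2‖ * ε)
      ((stdGaussian (EE n)).prod (stdGaussian (EE n))) := by
    have := (K0_integrable Binv).comp_snd (stdGaussian (EE n))
    exact this.mul_const ε
  have h2 : Measurable fun p : (EE n) × (EE n) => (((G, p.1), p.2) : ((Fin n → EE n) × EE n) × EE n) :=
    (measurable_const.prodMk measurable_fst).prodMk measurable_snd
  have h3 : Measurable fun p : (EE n) × (EE n) => Phi A B Binv s ε δ (G, p.1) p.2 := by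
    have h4 := Measurable.comp
      (g := fun p : ((Fin n → EE n) × EE n) × EE n => Phi A B Binv s ε δ p.1 p.2)
      (phi_measurable A B Binv s ε δ) h2
    exact h4
  refine h1.mono' h3.aestronglyMeasurable ?_
  exact Filter.Eventually.of_forall fun p => phi_abs_le A B Binv s hε δ (G, p.1) p.2

theorem phi_upper (A B Binv : (EE n) →L[ℝ] (EE n)) (hB : ∀ z, B (Binv z) = z) (s : ℝ) {ε : ℝ}
    (hε : 0 ≤ ε) {N : ℕ} (hN : 0 < N) :
    ∫ p, Phi A B Binv s ε (2 * Real.pi / N) p.1 p.2 ∂((PP n).prod (stdGaussian (EE n)))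
      ≤ 4 * ε / N * K0 Binv := by
  have hN' : (0 : ℝ) < N := by exact_mod_cast hN
  rw [integral_prod_symm _ (phi_integrable A B Binv s hε _)]
  have h1 : ∀ z : EE n, ∫ ω, Phi A B Binv s ε (2 * Real.pi / N) ω z ∂(PP n)
      ≤ 4 * ε / N * ‖Binv z‖ := by
    intro z
    unfold Phi
    rw [integral_const_mul, mul_comm (4 * ε / N)]
    by_cases hz : Binv z = 0
    · rw [hz, norm_zero]; simp
    refine mul_le_mul_of_nonneg_left ?_ (norm_nonneg _)
    have hρ : 0 < ‖Binv z‖ := norm_pos_iff.2 hz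
    have hwn : ‖wz Binv z‖ = 1 := by
      rw [wz, norm_smul, norm_inv, norm_norm, inv_mul_cancel₀ hρ.ne']
    have hBw : B (wz Binv z) ≠ 0 := by
      rw [wz, map_smul, hB]
      refine smul_ne_zero (inv_ne_zero hρ.ne') ?_
      intro h0
      rw [h0, map_zero] at hz
      exact hz rfl
    have h2 := flow_bound_pos A B hwn hBw s hε hN
    rw [le_div_iff₀ hN', mul_comm]
    exact h2
  calc ∫ z, ∫ ω, Phi A B Binv s ε (2 * Real.pi / N) ω z ∂(PP n) ∂(stdGaussian (EE n))
      ≤ ∫ z, 4 * ε / N * ‖Binv z‖ ∂(stdGaussian (EE n)) := by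
        refine integral_mono (phi_integrable A B Binv s hε _).integral_prod_right
          ((K0_integrable Binv).const_mul _) h1
    _ = 4 * ε / N * K0 Binv := by rw [integral_const_mul]; rfl

/-- The integral over the extra row and the direction, for a fixed matrix. -/
theorem phi_lower_int (A B Binv : (EE n) →L[ℝ] (EE n)) (hB : ∀ z, B (Binv z) = z) (s : ℝ) {η ε : ℝ}
    (hη : 0 < η) (hηε : η < ε) {δ : ℝ} (hδ0 : 0 ≤ δ) (hδ2 : δ ≤ 2) (G : Fin n → EE n) :
    {G | η < hs (Mop A B G) s ∧ hs (Mop A B G) s < ε}.indicator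
        (fun _ => Real.sin δ / Real.pi) G
      - δ ^ 2 * ((1 / 2 + ‖B‖ / (2 * η)) *
        (∫ p : (EE n) × (EE n), (1 + ‖p.1‖) ^ 2 * ‖p.2‖
          ∂((stdGaussian (EE n)).prod (stdGaussian (EE n))))) * (1 + ∑ i, ‖G i‖) ^ 2
      ≤ ∫ g, ∫ z, Phi A B Binv s ε δ (G, g) z ∂(stdGaussian (EE n)) ∂(stdGaussian (EE n)) := by
  classical
  set m : ℝ := ∫ p : (EE n) × (EE n), (1 + ‖p.1‖) ^ 2 * ‖p.2‖
    ∂((stdGaussian (EE n)).prod (stdGaussian (EE n))) with hm
  have hm0 : 0 ≤ m := integral_nonneg fun p => by positivity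
  have hC0 : 0 ≤ (1 / 2 + ‖B‖ / (2 * η)) :=
    add_nonneg (by norm_num) (div_nonneg (norm_nonneg _) (by linarith))
  have herr0 : 0 ≤ δ ^ 2 * ((1 / 2 + ‖B‖ / (2 * η)) * m) * (1 + ∑ i, ‖G i‖) ^ 2 :=
    mul_nonneg (mul_nonneg (sq_nonneg _) (mul_nonneg hC0 hm0)) (sq_nonneg _)
  by_cases hG : G ∈ {G | η < hs (Mop A B G) s ∧ hs (Mop A B G) s < ε}
  · rw [indicator_of_mem hG]
    obtain ⟨u, v, τ, hu, hv, hτ, hlow⟩ := phi_lower A B Binv hB s hη hG.1 hG.2
    have hsin : 0 ≤ Real.sin δ := by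
      have h2 : (2 : ℝ) ≤ Real.pi := by linarith [Real.pi_gt_three]
      exact Real.sin_nonneg_of_nonneg_of_le_pi hδ0 (hδ2.trans h2)
    -- integrability of the two pieces
    have hi0 : Integrable (fun p : (EE n) × (EE n) => ‖p.1‖ * ‖p.2‖)
        ((stdGaussian (EE n)).prod (stdGaussian (EE n))) :=
      integrable_norm_std.mul_prod integrable_norm_std
    have hc1 : Continuous fun p : (EE n) × (EE n) =>
        max (Real.sin δ * (-τ * (⟪u, p.2⟫ * ⟪p.1, v⟫))) 0 := by fun_prop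
    have hi1 : Integrable (fun p : (EE n) × (EE n) =>
        max (Real.sin δ * (-τ * (⟪u, p.2⟫ * ⟪p.1, v⟫))) 0)
        ((stdGaussian (EE n)).prod (stdGaussian (EE n))) := by
      refine (hi0.const_mul |Real.sin δ|).mono' hc1.aestronglyMeasurable ?_
      refine Filter.Eventually.of_forall fun p => ?_
      rw [Real.norm_eq_abs, abs_of_nonneg (le_max_right _ _)]
      refine max_le ?_ (by positivity)
      refine (le_abs_self _).trans ?_
      rw [abs_mul, abs_mul, abs_neg, hτ, one_mul, abs_mul]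
      have h4 : |⟪u, p.2⟫| ≤ ‖p.2‖ := by
        have := abs_real_inner_le_norm u p.2; rwa [hu, one_mul] at this
      have h5 : |⟪p.1, v⟫| ≤ ‖p.1‖ := by
        have := abs_real_inner_le_norm p.1 v; rwa [hv, mul_one] at this
      refine mul_le_mul_of_nonneg_left ?_ (abs_nonneg _)
      rw [mul_comm (‖p.1‖)]
      exact mul_le_mul h4 h5 (abs_nonneg _) (norm_nonneg _)
    have hi2 : Integrable (fun p : (EE n) × (EE n) => (1 + ‖p.1‖) ^ 2 * ‖p.2‖)
        ((stdGaussian (EE n)).prod (stdGaussian (EE n))) :=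
      integrable_sq_std.mul_prod integrable_norm_std
    have hi3 : Integrable (fun p : (EE n) × (EE n) =>
        δ ^ 2 * ((1 / 2 + ‖B‖ / (2 * η)) * (1 + ∑ i, ‖G i‖) ^ 2 * ((1 + ‖p.1‖) ^ 2 * ‖p.2‖)))
        ((stdGaussian (EE n)).prod (stdGaussian (EE n))) :=
      (hi2.const_mul _).const_mul _
    rw [← integral_prod (fun p : (EE n) × (EE n) => Phi A B Binv s ε δ (G, p.1) p.2)
      (phi_integrable' A B Binv s (hη.trans hηε).le δ G)]
    have h6 : ∫ p, (max (Real.sin δ * (-τ * (⟪u, p.2⟫ * ⟪p.1, v⟫))) 0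
        - δ ^ 2 * ((1 / 2 + ‖B‖ / (2 * η)) * (1 + ∑ i, ‖G i‖) ^ 2 * ((1 + ‖p.1‖) ^ 2 * ‖p.2‖)))
        ∂((stdGaussian (EE n)).prod (stdGaussian (EE n)))
        ≤ ∫ p, Phi A B Binv s ε δ (G, p.1) p.2 ∂((stdGaussian (EE n)).prod (stdGaussian (EE n))) :=
      integral_mono (hi1.sub hi3) (phi_integrable' A B Binv s (hη.trans hηε).le δ G)
        fun p => hlow δ hδ0 hδ2 p.1 p.2
    refine le_trans (le_of_eq ?_) h6
    rw [integral_sub hi1 hi3, integral_const_mul, integral_const_mul, ← hm,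
      integral_prod _ hi1]
    have h7 := integral_pos_part hu hv hτ hsin
    rw [h7]
    ring
  · rw [indicator_of_notMem hG, zero_sub]
    have h8 : 0 ≤ ∫ g, ∫ z, Phi A B Binv s ε δ (G, g) z ∂(stdGaussian (EE n)) ∂(stdGaussian (EE n)) :=
      integral_nonneg fun g => integral_nonneg fun z => phi_nonneg _ _ _ _ _ _ _ _
    linarith

theorem event_measurable (A B : (EE n) →L[ℝ] (EE n)) (s η ε : ℝ) :
    MeasurableSet {G : Fin n → EE n | η < hs (Mop A B G) s ∧ hs (Mop A B G) s < ε} := by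
  have h : Continuous fun G : Fin n → EE n => hs (Mop A B G) s :=
    (hs_continuous s).comp (Mop_continuous A B)
  exact (measurableSet_lt measurable_const h.measurable).inter
    (measurableSet_lt h.measurable measurable_const)

/-- The probability that the spectrum of the Hermitization comes close to `s`. -/
theorem prob_bound (A B Binv : (EE n) →L[ℝ] (EE n)) (hB : ∀ z, B (Binv z) = z) (s : ℝ) {η ε : ℝ}
    (hη : 0 < η) (hηε : η < ε) :
    (muG n).real {G | η < hs (Mop A B G) s ∧ hs (Mop A B G) s < ε} ≤ 2 * ε * K0 Binv := by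
  classical
  set S : Set (Fin n → EE n) := {G | η < hs (Mop A B G) s ∧ hs (Mop A B G) s < ε} with hS
  have hSm : MeasurableSet S := event_measurable A B s η ε
  have hε : 0 ≤ ε := (hη.trans hηε).le
  set m : ℝ := ∫ p : (EE n) × (EE n), (1 + ‖p.1‖) ^ 2 * ‖p.2‖
    ∂((stdGaussian (EE n)).prod (stdGaussian (EE n))) with hm
  set C : ℝ := (1 / 2 + ‖B‖ / (2 * η)) * m with hC
  set m3 : ℝ := ∫ G : Fin n → EE n, (1 + ∑ i, ‖G i‖) ^ 2 ∂(muG n) with hm3
  -- the inequality for every `N`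
  have key : ∀ N : ℕ, 7 ≤ N → (muG n).real S ≤ 2 * ε * K0 Binv
      + (2 * Real.pi ^ 2 * (C * m3) + Real.pi ^ 2) / N := by
    intro N hN
    have hN0 : 0 < N := by omega
    have hN' : (7 : ℝ) ≤ N := by exact_mod_cast hN
    have hNp : (0 : ℝ) < N := by linarith
    set δ : ℝ := 2 * Real.pi / N with hδ
    have hδ0 : 0 < δ := by positivity
    have hδ1 : δ ≤ 1 := by
      rw [hδ, div_le_one hNp]
      linarith [Real.pi_lt_d2]
    have hup := phi_upper A B Binv hB s hε hN0
    have hint := phi_integrable A B Binv s hε δ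
    rw [← hδ, integral_prod _ hint] at hup
    have hF : Integrable (fun ω : (Fin n → EE n) × EE n =>
        ∫ z, Phi A B Binv s ε δ ω z ∂(stdGaussian (EE n))) ((muG n).prod (stdGaussian (EE n))) :=
      hint.integral_prod_left
    have hlo : (muG n).real S * (Real.sin δ / Real.pi) - δ ^ 2 * C * m3
        ≤ 4 * ε / N * K0 Binv := by
      refine le_trans ?_ hup
      have h1 : ∫ ω, (∫ z, Phi A B Binv s ε δ ω z ∂(stdGaussian (EE n))) ∂(PP n)
          = ∫ G, ∫ g, ∫ z, Phi A B Binv s ε δ (G, g) z ∂(stdGaussian (EE n)) ∂(stdGaussian (EE n))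
            ∂(muG n) := integral_prod _ hF
      rw [h1]
      have h2 : Integrable (fun G : Fin n → EE n => S.indicator (fun _ => Real.sin δ / Real.pi) G
          - δ ^ 2 * C * (1 + ∑ i, ‖G i‖) ^ 2) (muG n) :=
        ((integrable_const _).indicator hSm).sub (integrable_sq_G.const_mul _)
      have h3 : ∫ G, (S.indicator (fun _ => Real.sin δ / Real.pi) G
          - δ ^ 2 * C * (1 + ∑ i, ‖G i‖) ^ 2) ∂(muG n)
          = (muG n).real S * (Real.sin δ / Real.pi) - δ ^ 2 * C * m3 := by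
        rw [integral_sub ((integrable_const _).indicator hSm) (integrable_sq_G.const_mul _),
          integral_indicator hSm, setIntegral_const, integral_const_mul, smul_eq_mul]
      rw [← h3]
      refine integral_mono h2 hF.integral_prod_left fun G => ?_
      exact phi_lower_int A B Binv hB s hη hηε hδ0.le (by linarith) G
    have hsin : δ - δ ^ 3 / 4 ≤ Real.sin δ := by
      have h0 := Real.sin_gt_sub_cube hδ0
      have h1 : 0 < δ ^ 3 := pow_pos hδ0 3
      linarith
    have hP0 : 0 ≤ (muG n).real S := measureReal_nonneg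
    have hP1 : (muG n).real S ≤ 1 := measureReal_le_one
    set P : ℝ := (muG n).real S with hP
    have hpi := Real.pi_pos
    -- multiply by `N / 2`
    have h4 : P * ((δ - δ ^ 3 / 4) / Real.pi) ≤ 4 * ε / N * K0 Binv + δ ^ 2 * C * m3 := by
      have h5 : P * ((δ - δ ^ 3 / 4) / Real.pi) ≤ P * (Real.sin δ / Real.pi) := by
        gcongr
      linarith
    have h6 : N / 2 * (P * ((δ - δ ^ 3 / 4) / Real.pi)) = P - P * (Real.pi ^ 2 / N ^ 2) := by
      rw [hδ]; field_simp; ring
    have h7 : N / 2 * (4 * ε / N * K0 Binv + δ ^ 2 * C * m3)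
        = 2 * ε * K0 Binv + 2 * Real.pi ^ 2 * (C * m3) / N := by
      rw [hδ]; field_simp; ring
    have h8 : N / 2 * (P * ((δ - δ ^ 3 / 4) / Real.pi))
        ≤ N / 2 * (4 * ε / N * K0 Binv + δ ^ 2 * C * m3) := by gcongr
    rw [h6, h7] at h8
    have h9 : P * (Real.pi ^ 2 / N ^ 2) ≤ Real.pi ^ 2 / N := by
      calc P * (Real.pi ^ 2 / N ^ 2) ≤ 1 * (Real.pi ^ 2 / N ^ 2) := by gcongr
        _ ≤ Real.pi ^ 2 / N := by
          rw [one_mul]
          gcongr
          nlinarith
    rw [add_div]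
    linarith
  -- limit
  have hlim : Filter.Tendsto (fun N : ℕ => 2 * ε * K0 Binv
      + (2 * Real.pi ^ 2 * (C * m3) + Real.pi ^ 2) / N) Filter.atTop (nhds (2 * ε * K0 Binv + 0)) :=
    tendsto_const_nhds.add (tendsto_const_div_atTop_nhds_zero_nat _)
  rw [add_zero] at hlim
  refine ge_of_tendsto hlim ?_
  filter_upwards [Filter.eventually_ge_atTop 7] with N hN using key N hN

end Pool.Agent.SSTW
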