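import Pool.Agent.Lib.SSTW.Path

set_option autoImplicit false
set_option maxHeartbeats 1000000

namespace Pool.Agent.SSTW

open scoped RealInnerProductSpace InnerProduct ENNReal
open InnerProductSpace Set MeasureTheory ProbabilityTheory

variable {n : ℕ}

/-- The weighted positive variation. -/
noncomputable def Psi (A B Binv : (EE n) →L[ℝ] (EE n)) (s ε δ : ℝ) (ω : (Fin n → EE n) × EE n)
    (z : EE n) : ℝ :=
  ‖Binv z‖ * max (XR A B s ε δ (wz Binv z) ω - XX A B s ε ω.1) 0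

/-- The elementary inequality behind `psi_upper`. -/
theorem key_real2 {ρ h η δ R gn zn Bn bw rn uz yv gv uB rv c1 si τ X X' : ℝ} (hρ : 0 < ρ)
    (hη : 0 < η) (hh : η < h) (hR : 0 ≤ R) (hgn : 0 ≤ gn) (hzn : 0 ≤ zn)
    (hbw : 0 ≤ bw) (hbB : bw ≤ Bn) (hρb : ρ * bw = zn) (hrn : 0 ≤ rn)
    (hrn' : rn ≤ δ * ((1 + R) * (1 + gn))) (huz : |uz| ≤ zn) (hyv : |yv| ≤ R) (hc : 0 ≤ c1)
    (hc' : c1 ≤ δ ^ 2 / 2) (hρu : ρ * uB = uz) (hrv : rv = -c1 * yv + si * gv) (hτ : |τ| = 1)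
    (hX : X = h) (hX' : X' ≤ h + τ * (uB * rv) + bw ^ 2 * rn ^ 2 / (2 * h)) :
    ρ * (X' - X) ≤ si * (τ * (uz * gv))
      + δ ^ 2 * ((1 / 2 + Bn / (2 * η)) * (1 + R) ^ 2 * ((1 + gn) ^ 2 * zn)) := by
  have hh0 : 0 < h := hη.trans hh
  have hBn : 0 ≤ Bn := hbw.trans hbB
  have hrn2 : rn ^ 2 ≤ δ ^ 2 * ((1 + R) ^ 2 * (1 + gn) ^ 2) := by
    have := pow_le_pow_left₀ hrn hrn' 2
    calc rn ^ 2 ≤ (δ * ((1 + R) * (1 + gn))) ^ 2 := this
      _ = _ := by ring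
  have e1 : ρ * (X' - X) ≤ ρ * (τ * (uB * rv) + bw ^ 2 * rn ^ 2 / (2 * h)) := by
    refine mul_le_mul_of_nonneg_left ?_ hρ.le
    rw [hX]; linarith
  have e2 : ρ * (τ * (uB * rv) + bw ^ 2 * rn ^ 2 / (2 * h))
      = si * (τ * (uz * gv)) + (-(τ * uz * (c1 * yv))) + zn * bw * rn ^ 2 / (2 * h) := by
    rw [hrv, ← hρu, ← hρb]; ring
  have e3 : -(τ * uz * (c1 * yv)) ≤ zn * (δ ^ 2 / 2 * R) := by
    have h3 : |τ * uz * (c1 * yv)| ≤ zn * (δ ^ 2 / 2 * R) := by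
      rw [abs_mul, abs_mul, abs_mul, hτ, one_mul, abs_of_nonneg hc]
      gcongr
    linarith [(abs_le.1 h3).1]
  have e4 : zn * bw * rn ^ 2 / (2 * h)
      ≤ zn * Bn * (δ ^ 2 * ((1 + R) ^ 2 * (1 + gn) ^ 2)) / (2 * η) := by
    gcongr
  have e5 : zn * (δ ^ 2 / 2 * R) ≤ δ ^ 2 * (1 / 2 * (1 + R) ^ 2 * ((1 + gn) ^ 2 * zn)) := by
    have h6 : R ≤ (1 + R) ^ 2 * (1 + gn) ^ 2 := by
      have h7 : 1 ≤ (1 + gn) ^ 2 := by nlinarith
      have h8 : R ≤ (1 + R) ^ 2 := by nlinarith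
      calc R ≤ (1 + R) ^ 2 * 1 := by linarith
        _ ≤ (1 + R) ^ 2 * (1 + gn) ^ 2 := by gcongr
    calc zn * (δ ^ 2 / 2 * R) ≤ zn * (δ ^ 2 / 2 * ((1 + R) ^ 2 * (1 + gn) ^ 2)) := by gcongr
      _ = _ := by ring
  have e6 : δ ^ 2 * ((1 / 2 + Bn / (2 * η)) * (1 + R) ^ 2 * ((1 + gn) ^ 2 * zn))
      = δ ^ 2 * (1 / 2 * (1 + R) ^ 2 * ((1 + gn) ^ 2 * zn))
      + zn * Bn * (δ ^ 2 * ((1 + R) ^ 2 * (1 + gn) ^ 2)) / (2 * η) := by
    ring
  refine e1.trans ?_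
  rw [e2, e6]
  linarith

theorem lip_real2 {ρ bw rn zn δ R gn h h' X X' ε : ℝ} (hρ : 0 < ρ) (hzn : 0 ≤ zn)
    (hρb : ρ * bw = zn) (hrn' : rn ≤ δ * ((1 + R) * (1 + gn))) (hh : h' ≤ h + bw * rn)
    (hbw : 0 ≤ bw) (hrn : 0 ≤ rn) (hX : X = min h ε) (hX' : X' = min h' ε) :
    ρ * (X' - X) ≤ δ * (1 + R) * ((1 + gn) * zn) := by
  have h1 : X' - X ≤ bw * rn := by
    have h0 : 0 ≤ bw * rn := mul_nonneg hbw hrn
    rw [hX, hX']
    rcases le_total h ε with h2 | h2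
    · rw [min_eq_left h2]
      have := min_le_left h' ε
      linarith
    · rw [min_eq_right h2]
      have := min_le_right h' ε
      linarith
  calc ρ * (X' - X) ≤ ρ * (bw * rn) := mul_le_mul_of_nonneg_left h1 hρ.le
    _ = zn * rn := by rw [← hρb]; ring
    _ ≤ zn * (δ * ((1 + R) * (1 + gn))) := mul_le_mul_of_nonneg_left hrn' hzn
    _ = _ := by ring

variable [NeZero n]

theorem psi_nonneg (A B Binv : (EE n) →L[ℝ] (EE n)) (s ε δ : ℝ) (ω : (Fin n → EE n) × EE n)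
    (z : EE n) : 0 ≤ Psi A B Binv s ε δ ω z :=
  mul_nonneg (norm_nonneg _) (le_max_right _ _)

theorem psi_le (A B Binv : (EE n) →L[ℝ] (EE n)) (s : ℝ) {ε : ℝ} (hε : 0 ≤ ε) (δ : ℝ)
    (ω : (Fin n → EE n) × EE n) (z : EE n) : Psi A B Binv s ε δ ω z ≤ ‖Binv z‖ * ε := by
  refine mul_le_mul_of_nonneg_left ?_ (norm_nonneg _)
  refine max_le ?_ hε
  have h1 : XR A B s ε δ (wz Binv z) ω ≤ ε := XX_le A B s ε (rotL (wz Binv z) δ ω).1
  have h2 := XX_nonneg A B s hε ω.1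
  linarith

theorem psi_measurable (A B Binv : (EE n) →L[ℝ] (EE n)) (s ε δ : ℝ) :
    Measurable fun p : ((Fin n → EE n) × EE n) × EE n => Psi A B Binv s ε δ p.1 p.2 := by
  unfold Psi
  have h7 := XR_measurable' A B Binv s ε δ
  have h6 : Measurable fun p : ((Fin n → EE n) × EE n) × EE n => XX A B s ε p.1.1 :=
    (XX_continuous A B s ε).measurable.comp (measurable_fst.comp measurable_fst)
  have h8 : Measurable fun p : ((Fin n → EE n) × EE n) × EE n => ‖Binv p.2‖ :=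
    (Binv.continuous.norm.measurable).comp measurable_snd
  exact h8.mul ((h7.sub h6).max measurable_const)

/-- The pointwise upper bounds. -/
theorem psi_upper (A B Binv : (EE n) →L[ℝ] (EE n)) (hB : ∀ z, B (Binv z) = z) (s ε : ℝ)
    (G : Fin n → EE n) (δ : ℝ) (hδ0 : 0 ≤ δ) (hδ2 : δ ≤ 2) :
    (ε ≤ hs (Mop A B G) s → ∀ g z : EE n, Psi A B Binv s ε δ (G, g) z = 0) ∧
    (∀ g z : EE n, Psi A B Binv s ε δ (G, g) z ≤ δ * (1 + ∑ i, ‖G i‖) * ((1 + ‖g‖) * ‖z‖)) ∧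
    (∀ η : ℝ, 0 < η → η < hs (Mop A B G) s → hs (Mop A B G) s < ε →
      ∃ (u v : EE n) (τ : ℝ), ‖u‖ = 1 ∧ ‖v‖ = 1 ∧ |τ| = 1 ∧ ∀ g z : EE n,
        Psi A B Binv s ε δ (G, g) z ≤ max (Real.sin δ * (τ * (⟪u, z⟫ * ⟪g, v⟫))) 0
        + δ ^ 2 * ((1 / 2 + ‖B‖ / (2 * η)) * (1 + ∑ i, ‖G i‖) ^ 2 * ((1 + ‖g‖) ^ 2 * ‖z‖))) := by
  have hR0 : 0 ≤ ∑ i, ‖G i‖ := Finset.sum_nonneg fun _ _ => norm_nonneg _
  have hB0 : 0 ≤ ‖B‖ := norm_nonneg B
  have hcos : 1 - Real.cos δ ≤ δ ^ 2 / 2 := by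
    have := Real.one_sub_sq_div_two_le_cos (x := δ); linarith
  have hcos0 : 0 ≤ 1 - Real.cos δ := by linarith [Real.cos_le_one δ]
  have hsin : |Real.sin δ| ≤ δ := by
    rw [abs_le]
    constructor
    · have h2 : (2 : ℝ) ≤ Real.pi := by linarith [Real.pi_gt_three]
      have := Real.sin_nonneg_of_nonneg_of_le_pi hδ0 (hδ2.trans h2); linarith
    · exact Real.sin_le hδ0
  have hrn : ∀ g z : EE n, ‖wz Binv z‖ = 1 →
      ‖incL (wz Binv z) δ (G, g)‖ ≤ δ * ((1 + ∑ i, ‖G i‖) * (1 + ‖g‖)) := by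
    intro g z hwn
    have hyR : ‖∑ i, (wz Binv z) i • G i‖ ≤ ∑ i, ‖G i‖ := norm_rowsum_le hwn G
    have hg0 : 0 ≤ ‖g‖ := norm_nonneg g
    have h5 : ‖(Real.cos δ - 1) • (∑ i, (wz Binv z) i • G i) + Real.sin δ • g‖
        ≤ (1 - Real.cos δ) * ‖∑ i, (wz Binv z) i • G i‖ + |Real.sin δ| * ‖g‖ := by
      refine (norm_add_le _ _).trans (le_of_eq ?_)
      rw [norm_smul, norm_smul, Real.norm_eq_abs, Real.norm_eq_abs, abs_sub_comm,
            abs_of_nonneg hcos0]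
    rw [incL_apply]
    refine h5.trans ?_
    generalize (∑ i, ‖G i‖) = R at hR0 hyR ⊢
    have hy0 : 0 ≤ ‖∑ i, (wz Binv z) i • G i‖ := norm_nonneg _
    generalize ‖∑ i, (wz Binv z) i • G i‖ = yn at hyR hy0 ⊢
    generalize ‖g‖ = gn at hg0 ⊢
    generalize Real.cos δ = c at hcos hcos0 ⊢
    generalize |Real.sin δ| = si at hsin ⊢
    have h6 : (1 - c) * yn ≤ δ * R := by
      have : 1 - c ≤ δ := by nlinarith
      exact mul_le_mul this hyR hy0 hδ0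
    have h7 : si * gn ≤ δ * gn := mul_le_mul_of_nonneg_right hsin hg0
    nlinarith [mul_nonneg hδ0 (mul_nonneg hR0 hg0)]
  have hunit : ∀ z : EE n, Binv z ≠ 0 → ‖wz Binv z‖ = 1 := by
    intro z hz
    rw [wz, norm_smul, norm_inv, norm_norm, inv_mul_cancel₀ (norm_ne_zero_iff.2 hz)]
  have hBwz : ∀ z : EE n, Binv z ≠ 0 → ‖Binv z‖ • B (wz Binv z) = z := by
    intro z hz
    rw [wz, map_smul, hB, smul_smul, mul_inv_cancel₀ (norm_ne_zero_iff.2 hz), one_smul]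
  have hzero : ∀ g z : EE n, Binv z = 0 → Psi A B Binv s ε δ (G, g) z = 0 := by
    intro g z hz
    rw [Psi, hz, norm_zero, zero_mul]
  have hmaxmul : ∀ g z : EE n, Psi A B Binv s ε δ (G, g) z
      = max (‖Binv z‖ * (XR A B s ε δ (wz Binv z) (G, g) - XX A B s ε G)) 0 := by
    intro g z
    rw [Psi, mul_max_of_nonneg _ _ (norm_nonneg _), mul_zero]
  refine ⟨?_, ?_, ?_⟩
  · intro hε g z
    have h1 : XX A B s ε G = ε := min_eq_right hε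
    have h2 : XR A B s ε δ (wz Binv z) (G, g) ≤ ε := XX_le A B s ε (rotL (wz Binv z) δ (G, g)).1
    rw [Psi]
    show ‖Binv z‖ * max (XR A B s ε δ (wz Binv z) (G, g) - XX A B s ε G) 0 = 0
    rw [h1, max_eq_right (by linarith), mul_zero]
  · intro g z
    have hg0 : 0 ≤ ‖g‖ := norm_nonneg g
    have hz0' : 0 ≤ ‖z‖ := norm_nonneg z
    have hnn : 0 ≤ δ * (1 + ∑ i, ‖G i‖) * ((1 + ‖g‖) * ‖z‖) :=
      mul_nonneg (mul_nonneg hδ0 (by linarith)) (mul_nonneg (by linarith) hz0')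
    by_cases hz0 : Binv z = 0
    · rw [hzero g z hz0]; exact hnn
    have hρ : 0 < ‖Binv z‖ := norm_pos_iff.2 hz0
    rw [hmaxmul]
    refine max_le ?_ hnn
    have hBwn : ‖Binv z‖ * ‖B (wz Binv z)‖ = ‖z‖ := by
      rw [← norm_norm (Binv z), ← norm_smul, hBwz z hz0]
    have h4 := Mop_rot A B (wz Binv z) δ (G, g)
    have hh : hs (Mop A B (rotL (wz Binv z) δ (G, g)).1) s
        ≤ hs (Mop A B G) s + ‖B (wz Binv z)‖ * ‖incL (wz Binv z) δ (G, g)‖ := by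
      rw [h4]
      refine (hs_add_le _ _ _).trans ?_
      rw [norm_rankOne]
    exact lip_real2 hρ hz0' hBwn (hrn g z (hunit z hz0)) hh (norm_nonneg _) (norm_nonneg _) rfl rfl
  · intro η hη h1 h2
    have hpos : 0 < hs (Mop A B G) s := hη.trans h1
    obtain ⟨u, v, τ, hu, hv, hτ, hup⟩ := hs_rankOne (Mop A B G) s hpos
    refine ⟨u, v, τ, hu, hv, hτ, ?_⟩
    intro g z
    have hg0 : 0 ≤ ‖g‖ := norm_nonneg g
    have hz0' : 0 ≤ ‖z‖ := norm_nonneg z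
    have herr : 0 ≤ δ ^ 2 * ((1 / 2 + ‖B‖ / (2 * η)) * (1 + ∑ i, ‖G i‖) ^ 2
        * ((1 + ‖g‖) ^ 2 * ‖z‖)) :=
      mul_nonneg (sq_nonneg _) (mul_nonneg (mul_nonneg (add_nonneg (by norm_num)
        (div_nonneg hB0 (by linarith))) (sq_nonneg _)) (mul_nonneg (sq_nonneg _) hz0'))
    by_cases hz0 : Binv z = 0
    · rw [hzero g z hz0]
      exact add_nonneg (le_max_right _ _) herr
    have hρ : 0 < ‖Binv z‖ := norm_pos_iff.2 hz0
    have hwn := hunit z hz0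
    rw [hmaxmul]
    refine max_le ?_ (add_nonneg (le_max_right _ _) herr)
    have hyR : ‖∑ i, (wz Binv z) i • G i‖ ≤ ∑ i, ‖G i‖ := norm_rowsum_le hwn G
    have hX : XX A B s ε G = hs (Mop A B G) s := min_eq_left h2.le
    have hX' : XR A B s ε δ (wz Binv z) (G, g) ≤ hs (Mop A B G) s
        + τ * (⟪u, B (wz Binv z)⟫ * ⟪incL (wz Binv z) δ (G, g), v⟫)
        + ‖B (wz Binv z)‖ ^ 2 * ‖incL (wz Binv z) δ (G, g)‖ ^ 2 / (2 * hs (Mop A B G) s) := by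
      have h3 := hup (B (wz Binv z)) (incL (wz Binv z) δ (G, g))
      have h4 := Mop_rot A B (wz Binv z) δ (G, g)
      calc XR A B s ε δ (wz Binv z) (G, g)
          ≤ hs (Mop A B (rotL (wz Binv z) δ (G, g)).1) s := min_le_left _ _
        _ = hs (Mop A B G + rankOne ℝ (B (wz Binv z)) (incL (wz Binv z) δ (G, g))) s := by rw [h4]
        _ ≤ _ := h3
    have hinner : ⟪incL (wz Binv z) δ (G, g), v⟫
        = -(1 - Real.cos δ) * ⟪∑ i, (wz Binv z) i • G i, v⟫ + Real.sin δ * ⟪g, v⟫ := by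
      rw [incL_apply, inner_add_left, real_inner_smul_left, real_inner_smul_left]
      ring
    have huz : ‖Binv z‖ * ⟪u, B (wz Binv z)⟫ = ⟪u, z⟫ := by
      rw [← real_inner_smul_right, hBwz z hz0]
    have hBwn : ‖Binv z‖ * ‖B (wz Binv z)‖ = ‖z‖ := by
      rw [← norm_norm (Binv z), ← norm_smul, hBwz z hz0]
    have hBwle : ‖B (wz Binv z)‖ ≤ ‖B‖ := by
      have := B.le_opNorm (wz Binv z); rwa [hwn, mul_one] at this
    have h4 : |⟪u, z⟫| ≤ ‖z‖ := by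
      have := abs_real_inner_le_norm u z; rwa [hu, one_mul] at this
    have h5 : |⟪∑ i, (wz Binv z) i • G i, v⟫| ≤ ∑ i, ‖G i‖ := by
      have := abs_real_inner_le_norm (∑ i, (wz Binv z) i • G i) v
      rw [hv, mul_one] at this
      exact this.trans hyR
    have hmain := key_real2 hρ hη h1 hR0 hg0 hz0' (norm_nonneg _) hBwle hBwn (norm_nonneg _)
      (hrn g z hwn) h4 h5 hcos0 hcos huz hinner hτ hX hX'
    refine hmain.trans ?_
    exact add_le_add_left (le_max_left _ _) _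

end Pool.Agent.SSTW
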