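import Pool.Agent.Lib.SSTW.Mat

set_option autoImplicit false
set_option maxHeartbeats 1000000

namespace Pool.Agent.SSTW

open MeasureTheory ProbabilityTheory Set

/-- Products of absolutely continuous measures. -/
theorem pi_ac {α : Type*} [MeasurableSpace α] (μ ν : Measure α) [SigmaFinite μ] [SigmaFinite ν]
    (h : μ ≪ ν) (n : ℕ) :
    Measure.pi (fun _ : Fin n => μ) ≪ Measure.pi (fun _ : Fin n => ν) := by
  induction n with
  | zero =>
    rw [Measure.pi_of_empty, Measure.pi_of_empty]
  | succ n ih =>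
    have h1 := (measurePreserving_piFinSuccAbove (fun _ : Fin (n + 1) => μ) 0).symm
    have h2 := (measurePreserving_piFinSuccAbove (fun _ : Fin (n + 1) => ν) 0).symm
    rw [← h1.map_eq, ← h2.map_eq]
    exact (h.prod ih).map (MeasurableEquiv.measurable _)

theorem gaussMatrix_ac (n : ℕ) : gaussMatrix n ≪ volume := by
  have h1 : gaussianReal 0 1 ≪ (volume : Measure ℝ) :=
    gaussianReal_absolutelyContinuous 0 one_ne_zero
  have h2 := pi_ac (gaussianReal 0 1) volume h1 n
  exact pi_ac _ _ h2 n

/-- A measurable set meeting every line through `p₀` in a countable set is null. -/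
theorem null_of_lines {E : Type*} [NormedAddCommGroup E] [NormedSpace ℝ E] [MeasurableSpace E]
    [BorelSpace E] [FiniteDimensional ℝ E] (μ : Measure E) [μ.IsAddHaarMeasure] {Z : Set E}
    (hZ : MeasurableSet Z) (p₀ : E)
    (h : ∀ x : E, {t : ℝ | p₀ + t • (x - p₀) ∈ Z}.Countable) : μ Z = 0 := by
  set W : Set (ℝ × E) := {q | p₀ + q.1 • (q.2 - p₀) ∈ Z} with hW
  have hWm : MeasurableSet W := by
    have hc : Continuous fun q : ℝ × E => p₀ + q.1 • (q.2 - p₀) := by fun_prop
    exact hc.measurable hZ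
  have h1 : ((volume : Measure ℝ).prod μ) W = 0 := by
    rw [← Measure.prod_swap, Measure.map_apply measurable_swap hWm]
    rw [Measure.measure_prod_null (measurable_swap hWm)]
    refine Filter.Eventually.of_forall fun x => ?_
    have : (Prod.mk x ⁻¹' (Prod.swap ⁻¹' W)) = {t : ℝ | p₀ + t • (x - p₀) ∈ Z} := by
      ext t; simp [hW]
    change volume (Prod.mk x ⁻¹' (Prod.swap ⁻¹' W)) = 0
    rw [this]
    exact (h x).measure_zero _
  have h2 := Measure.measure_ae_null_of_prod_null h1
  have h3 : ∀ᵐ t : ℝ ∂volume, t ≠ 0 := by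
    rw [ae_iff]; simp
  obtain ⟨t, ht, ht0⟩ := (h2.and h3).exists
  have ht' : μ (Prod.mk t ⁻¹' W) = 0 := ht
  have hset : Z ⊆ AffineMap.homothety p₀ t '' (Prod.mk t ⁻¹' W) := by
    intro z hz
    refine ⟨p₀ + t⁻¹ • (z - p₀), ?_, ?_⟩
    · simp only [hW, Set.mem_preimage, Set.mem_ofPred_eq, add_sub_cancel_left]
      rw [smul_inv_smul₀ ht0]; simpa using hz
    · simp only [AffineMap.homothety_apply, vsub_eq_sub, add_sub_cancel_left, vadd_eq_add]
      rw [smul_inv_smul₀ ht0]; simp
  refine measure_mono_null hset ?_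
  rw [Measure.addHaar_image_homothety, ht', mul_zero]

variable {n : ℕ}

/-- The Hankel determinant of the power sums of the eigenvalues of `Mᵀ M`. -/
noncomputable def hank {R : Type*} [CommRing R] (M : Matrix (Fin n) (Fin n) R) : R :=
  (Matrix.of fun i j : Fin n => Matrix.trace ((M.transpose * M) ^ (i.1 + j.1))).det

theorem trace_pow_herm (S : Matrix (Fin n) (Fin n) ℝ) (hS : S.IsHermitian) (k : ℕ) :
    (S ^ k).trace = ∑ i, hS.eigenvalues i ^ k := by
  have h1 := hS.spectral_theorem
  have h2 : S ^ k = Unitary.conjStarAlgAut ℝ _ hS.eigenvectorUnitary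
      (Matrix.diagonal (fun i => hS.eigenvalues i ^ k)) := by
    conv_lhs => rw [h1]
    rw [← map_pow, Matrix.diagonal_pow]
    rfl
  rw [h2, Unitary.conjStarAlgAut_apply, Matrix.trace_mul_comm, ← mul_assoc,
    Unitary.coe_star_mul_self, one_mul, Matrix.trace_diagonal]

theorem isHermitian_gram (M : Matrix (Fin n) (Fin n) ℝ) : (M.transpose * M).IsHermitian := by
  rw [Matrix.IsHermitian, Matrix.conjTranspose_eq_transpose_of_trivial, Matrix.transpose_mul,
    Matrix.transpose_transpose]

theorem hank_eq (M : Matrix (Fin n) (Fin n) ℝ) :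
    hank M = (Matrix.vandermonde (isHermitian_gram M).eigenvalues).det ^ 2 := by
  have h1 : (Matrix.of fun i j : Fin n => Matrix.trace ((M.transpose * M) ^ (i.1 + j.1)))
      = (Matrix.vandermonde (isHermitian_gram M).eigenvalues).transpose
        * Matrix.vandermonde (isHermitian_gram M).eigenvalues := by
    ext i j
    rw [Matrix.vandermonde_transpose_mul_vandermonde, Matrix.of_apply,
      trace_pow_herm _ (isHermitian_gram M)]
  rw [hank, h1, Matrix.det_mul, Matrix.det_transpose, sq]

theorem nodup_of_hank_ne_zero {M : Matrix (Fin n) (Fin n) ℝ} (h : hank M ≠ 0) :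
    (M.transpose * M).charpoly.roots.Nodup := by
  rw [hank_eq] at h
  have h1 : (Matrix.vandermonde (isHermitian_gram M).eigenvalues).det ≠ 0 := by
    intro h0; rw [h0] at h; simp at h
  rw [Matrix.det_vandermonde_ne_zero_iff] at h1
  rw [(isHermitian_gram M).roots_charpoly_eq_eigenvalues]
  refine Multiset.Nodup.map ?_ Finset.univ.nodup
  exact h1

theorem hank_map {R S : Type*} [CommRing R] [CommRing S] (f : R →+* S)
    (M : Matrix (Fin n) (Fin n) R) : hank (f.mapMatrix M) = f (hank M) := by
  have h1 : (f.mapMatrix M).transpose = f.mapMatrix M.transpose := rfl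
  have h2 : (Matrix.of fun i j : Fin n =>
      Matrix.trace (((f.mapMatrix M).transpose * f.mapMatrix M) ^ (i.1 + j.1)))
      = f.mapMatrix (Matrix.of fun i j : Fin n =>
        Matrix.trace ((M.transpose * M) ^ (i.1 + j.1))) := by
    ext i j
    show Matrix.trace (((f.mapMatrix M).transpose * f.mapMatrix M) ^ (i.1 + j.1))
      = f (Matrix.trace ((M.transpose * M) ^ (i.1 + j.1)))
    rw [h1, ← map_mul, ← map_pow, Matrix.trace, Matrix.trace, map_sum]
    rfl
  rw [hank, hank, h2, RingHom.map_det]

theorem hank_diagonal_ne_zero :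
    hank (Matrix.diagonal fun i : Fin n => ((i.1 : ℝ) + 1)) ≠ 0 := by
  have h1 : (Matrix.of fun i j : Fin n => Matrix.trace
      (((Matrix.diagonal fun i : Fin n => ((i.1 : ℝ) + 1)).transpose
        * (Matrix.diagonal fun i : Fin n => ((i.1 : ℝ) + 1))) ^ (i.1 + j.1)))
      = (Matrix.vandermonde (fun i : Fin n => ((i.1 : ℝ) + 1) * ((i.1 : ℝ) + 1))).transpose
        * Matrix.vandermonde (fun i : Fin n => ((i.1 : ℝ) + 1) * ((i.1 : ℝ) + 1)) := by
    ext i j
    rw [Matrix.vandermonde_transpose_mul_vandermonde, Matrix.of_apply, Matrix.diagonal_transpose,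
      Matrix.diagonal_mul_diagonal, Matrix.diagonal_pow, Matrix.trace_diagonal]
    rfl
  rw [hank, h1, Matrix.det_mul, Matrix.det_transpose]
  have h2 : (Matrix.vandermonde (fun i : Fin n => ((i.1 : ℝ) + 1) * ((i.1 : ℝ) + 1))).det ≠ 0 := by
    rw [Matrix.det_vandermonde_ne_zero_iff]
    intro i j hij
    have hi : (0 : ℝ) ≤ i.1 := Nat.cast_nonneg _
    have hj : (0 : ℝ) ≤ j.1 := Nat.cast_nonneg _
    have h3 : ((i.1 : ℝ) + 1) = (j.1 : ℝ) + 1 := by
      simp only at hij
      nlinarith
    have h4 : (i.1 : ℝ) = j.1 := by linarith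
    exact Fin.ext (by exact_mod_cast h4)
  exact mul_ne_zero h2 h2

theorem hank_continuous : Continuous fun M : Matrix (Fin n) (Fin n) ℝ => hank M := by
  unfold hank
  refine Continuous.matrix_det ?_
  refine continuous_matrix fun i j => ?_
  exact ((Continuous.matrix_mul (Continuous.matrix_transpose continuous_id) continuous_id).pow
    _).matrix_trace

/-- Almost surely the eigenvalues of the Gram matrix are simple. -/
theorem ae_nodup (A B : Matrix (Fin n) (Fin n) ℝ) (hB : B.det ≠ 0) :
    ∀ᵐ G ∂(gaussMatrix n),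
      ((A + B * Matrix.of G).transpose * (A + B * Matrix.of G)).charpoly.roots.Nodup := by
  set Z : Set (Fin n → Fin n → ℝ) := {G | hank (A + B * Matrix.of G) = 0} with hZ
  have hcont : Continuous fun G : Fin n → Fin n → ℝ => hank (A + B * Matrix.of G) := by
    refine hank_continuous.comp ?_
    refine continuous_const.add ?_
    exact Continuous.matrix_mul continuous_const continuous_id
  have hZc : IsClosed Z := isClosed_singleton.preimage hcont
  set D : Matrix (Fin n) (Fin n) ℝ := Matrix.diagonal fun i : Fin n => ((i.1 : ℝ) + 1) with hD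
  set p₀ : Fin n → Fin n → ℝ := B⁻¹ * (D - A) with hp₀
  have hBp : A + B * Matrix.of p₀ = D := by
    have : B * Matrix.of p₀ = D - A := by
      show B * (B⁻¹ * (D - A)) = D - A
      rw [← mul_assoc, Matrix.mul_nonsing_inv _ (isUnit_iff_ne_zero.2 hB), one_mul]
    rw [this]; abel
  have hnull : volume Z = 0 := by
    refine null_of_lines volume hZc.measurableSet p₀ fun x => ?_
    set N₁ : Matrix (Fin n) (Fin n) ℝ := B * Matrix.of (x - p₀) with hN₁
    set Q : Matrix (Fin n) (Fin n) (Polynomial ℝ) :=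
      D.map (fun r : ℝ => (Polynomial.C r : Polynomial ℝ))
        + (Polynomial.X : Polynomial ℝ) • N₁.map (fun r : ℝ => (Polynomial.C r : Polynomial ℝ))
    with hQ
    have hQt : ∀ t : ℝ, (Polynomial.evalRingHom t).mapMatrix Q
        = A + B * Matrix.of (p₀ + t • (x - p₀)) := by
      intro t
      have h1 : A + B * Matrix.of (p₀ + t • (x - p₀)) = D + t • N₁ := by
        rw [← hBp, hN₁]
        have h2 : Matrix.of (p₀ + t • (x - p₀)) = Matrix.of p₀ + t • Matrix.of (x - p₀) := rfl
        rw [h2, mul_add, Matrix.mul_smul, add_assoc]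
      rw [h1]
      ext i j
      simp only [hQ, RingHom.mapMatrix_apply, Matrix.map_apply, Matrix.add_apply,
        Matrix.smul_apply, Polynomial.coe_evalRingHom, smul_eq_mul, Polynomial.eval_add,
        Polynomial.eval_mul, Polynomial.eval_X, Polynomial.eval_C]
    have hev : ∀ t : ℝ, (hank Q).eval t = hank (A + B * Matrix.of (p₀ + t • (x - p₀))) := by
      intro t
      rw [← hQt, hank_map]
      rfl
    have hne : hank Q ≠ 0 := by
      intro h0
      have h1 := hev 0
      rw [h0, Polynomial.eval_zero, zero_smul, add_zero, hBp] at h1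
      exact hank_diagonal_ne_zero h1.symm
    refine Set.Finite.countable (Set.Finite.subset ((hank Q).roots.toFinset.finite_toSet) ?_)
    intro t ht
    rw [Finset.mem_coe, Multiset.mem_toFinset, Polynomial.mem_roots hne, Polynomial.IsRoot, hev]
    exact ht
  have h2 : gaussMatrix n Z = 0 := gaussMatrix_ac n hnull
  have h3 : ∀ᵐ G ∂(gaussMatrix n), G ∉ Z := by
    rw [ae_iff]; simpa using h2
  filter_upwards [h3] with G hG
  exact nodup_of_hank_ne_zero hG

theorem root_nonneg {M : Matrix (Fin n) (Fin n) ℝ} {x : ℝ}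
    (hx : x ∈ (M.transpose * M).charpoly.roots) : 0 ≤ x := by
  rw [(isHermitian_gram M).roots_charpoly_eq_eigenvalues] at hx
  obtain ⟨i, _, rfl⟩ := Multiset.mem_map.1 hx
  have h1 : (M.transpose * M).PosSemidef := by
    have := Matrix.posSemidef_conjTranspose_mul_self M
    rwa [Matrix.conjTranspose_eq_transpose_of_trivial] at this
  exact h1.eigenvalues_nonneg i

theorem isSingVal_of_root {M : Matrix (Fin n) (Fin n) ℝ} {x : ℝ}
    (hx : x ∈ (M.transpose * M).charpoly.roots) : IsSingVal M (Real.sqrt x) := by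
  have h0 := root_nonneg hx
  refine ⟨Real.sqrt_nonneg _, ?_⟩
  rw [Real.sq_sqrt h0]
  have h1 : (M.transpose * M).charpoly.eval x = 0 := by
    rw [Polynomial.mem_roots (Matrix.charpoly_monic _).ne_zero] at hx
    exact hx
  rw [Matrix.eval_charpoly] at h1
  have h2 : M.transpose * M - x • (1 : Matrix (Fin n) (Fin n) ℝ)
      = -(Matrix.scalar (Fin n) x - M.transpose * M) := by
    rw [neg_sub]
    congr 1
    ext i j
    simp [Matrix.scalar_apply, Matrix.diagonal_apply, Matrix.one_apply]
  rw [h2, Matrix.det_neg, h1, mul_zero]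

theorem singCount_le {M : Matrix (Fin n) (Fin n) ℝ}
    (h : (M.transpose * M).charpoly.roots.Nodup) (a b : ℝ) :
    (singCount M a b : ℕ∞) ≤ {l : ℝ | l ∈ Icc a b ∧ IsSingVal M l}.encard := by
  classical
  unfold singCount
  set R := (M.transpose * M).charpoly.roots.filter fun x => a ≤ Real.sqrt x ∧ Real.sqrt x ≤ b
    with hR
  have hnd : R.Nodup := h.filter _
  have h1 : (R.card : ℕ∞) = ((R.toFinset : Finset ℝ) : Set ℝ).encard := by
    rw [Set.encard_coe_eq_coe_finsetCard, Multiset.toFinset_card_of_nodup hnd]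
  rw [h1]
  have hmem : ∀ x ∈ ((R.toFinset : Finset ℝ) : Set ℝ),
      x ∈ (M.transpose * M).charpoly.roots ∧ a ≤ Real.sqrt x ∧ Real.sqrt x ≤ b := by
    intro x hx
    rw [Finset.mem_coe, Multiset.mem_toFinset, hR, Multiset.mem_filter] at hx
    exact hx
  have hinj : Set.InjOn (fun x : ℝ => Real.sqrt x) ((R.toFinset : Finset ℝ) : Set ℝ) := by
    intro x hx y hy hxy
    have hx0 := root_nonneg (hmem x hx).1
    have hy0 := root_nonneg (hmem y hy).1
    exact (Real.sqrt_inj hx0 hy0).1 hxy
  rw [← hinj.encard_image]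
  refine Set.encard_le_encard ?_
  rintro _ ⟨x, hx, rfl⟩
  exact ⟨(hmem x hx).2, isSingVal_of_root (hmem x hx).1⟩

end Pool.Agent.SSTW
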