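import Mathlib

set_option autoImplicit false

namespace Pool.Agent.SSTW

open Complex

/-- A trigonometric polynomial of degree at most two. -/
noncomputable def trig (p q r a b d θ : ℝ) : ℝ :=
  p + q * Real.cos θ + r * Real.sin θ + a * Real.cos θ ^ 2 + b * (Real.sin θ * Real.cos θ)
    + d * Real.sin θ ^ 2

/-- The algebraic polynomial attached to it. -/
noncomputable def trigP (p q r a b d : ℝ) : Polynomial ℂ :=
  Polynomial.C ((a : ℂ) - d - I * b) * Polynomial.X ^ 4
    + Polynomial.C (2 * (q : ℂ) - 2 * I * r) * Polynomial.X ^ 3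
    + Polynomial.C (4 * (p : ℂ) + 2 * a + 2 * d) * Polynomial.X ^ 2
    + Polynomial.C (2 * (q : ℂ) + 2 * I * r) * Polynomial.X
    + Polynomial.C ((a : ℂ) - d + I * b)

theorem trigP_eval (p q r a b d θ : ℝ) :
    (trigP p q r a b d).eval (exp (θ * I)) = 4 * exp (θ * I) ^ 2 * (trig p q r a b d θ : ℂ) := by
  have h1 : exp (θ * I) = Complex.cos θ + Complex.sin θ * I := Complex.exp_mul_I θ
  have h3 : Complex.cos θ ^ 2 + Complex.sin θ ^ 2 = 1 := Complex.cos_sq_add_sin_sq θ
  simp only [trigP, trig, Polynomial.eval_add, Polynomial.eval_mul, Polynomial.eval_C,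
    Polynomial.eval_pow, Polynomial.eval_X]
  push_cast
  set c : ℂ := Complex.cos θ with hc
  set s : ℂ := Complex.sin θ with hs
  set z : ℂ := exp (θ * I) with hz
  have hI : I ^ 2 = -1 := Complex.I_sq
  have k1 : z ^ 2 + 1 = 2 * c * z := by
    rw [h1]; linear_combination s ^ 2 * hI - h3
  have k2 : z ^ 2 - 1 = 2 * I * s * z := by
    rw [h1]; linear_combination (-s ^ 2) * hI + h3
  linear_combination
    (2 * (q : ℂ) * z + a * ((z ^ 2 + 1) + 2 * c * z) - b * I * (2 * I * s * z)) * k1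
    + (-2 * I * z * r - b * I * (z ^ 2 + 1) - d * ((z ^ 2 - 1) + 2 * I * s * z)) * k2
    + (-4 * r * z ^ 2 * s - 4 * b * s * c * z ^ 2 - 4 * d * s ^ 2 * z ^ 2) * hI

theorem trigP_natDegree (p q r a b d : ℝ) : (trigP p q r a b d).natDegree ≤ 4 := by
  unfold trigP
  compute_degree

theorem exp_inj {θ θ' : ℝ} (h : θ ∈ Set.Ico 0 (2 * Real.pi)) (h' : θ' ∈ Set.Ico 0 (2 * Real.pi))
    (he : exp (θ * I) = exp (θ' * I)) : θ = θ' := by
  obtain ⟨k, hk⟩ := Complex.exp_eq_exp_iff_exists_int.1 he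
  have h1 : θ = θ' + k * (2 * Real.pi) := by
    have := congrArg Complex.im hk
    simpa using this
  have hk0 : k = 0 := by
    by_contra hne
    rcases lt_or_gt_of_ne hne with h2 | h2
    · have h3 : (k : ℝ) ≤ -1 := by exact_mod_cast Int.le_sub_one_of_lt h2
      nlinarith [h.1, h'.2, Real.pi_pos]
    · have h3 : (1 : ℝ) ≤ k := by exact_mod_cast h2
      nlinarith [h.2, h'.1, Real.pi_pos]
  rw [h1, hk0]; simp

/-- A trigonometric polynomial of degree at most two which is not identically zero has at most four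
zeros in a period. -/
theorem trig_zeros (p q r a b d : ℝ) {θ₀ : ℝ} (h : trig p q r a b d θ₀ ≠ 0) :
    {θ ∈ Set.Ico (0 : ℝ) (2 * Real.pi) | trig p q r a b d θ = 0}.encard ≤ 4 := by
  classical
  have hP : trigP p q r a b d ≠ 0 := by
    intro h0
    have := trigP_eval p q r a b d θ₀
    rw [h0, Polynomial.eval_zero] at this
    have h2 : (4 : ℂ) * exp (θ₀ * I) ^ 2 * (trig p q r a b d θ₀ : ℂ) ≠ 0 := by
      refine mul_ne_zero (mul_ne_zero (by norm_num) (pow_ne_zero _ (Complex.exp_ne_zero _))) ?_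
      exact_mod_cast h
    exact h2 this.symm
  have hsub : (fun θ : ℝ => exp (θ * I)) ''
      {θ ∈ Set.Ico (0 : ℝ) (2 * Real.pi) | trig p q r a b d θ = 0}
        ⊆ ((trigP p q r a b d).roots.toFinset : Set ℂ) := by
    rintro z ⟨θ, ⟨_, hθ⟩, rfl⟩
    simp only [Multiset.mem_toFinset, Finset.mem_coe]
    rw [Polynomial.mem_roots hP, Polynomial.IsRoot.def, trigP_eval, hθ]
    simp
  have hinj : Set.InjOn (fun θ : ℝ => exp (θ * I))
      {θ ∈ Set.Ico (0 : ℝ) (2 * Real.pi) | trig p q r a b d θ = 0} := by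
    intro x hx y hy hxy
    exact exp_inj hx.1 hy.1 hxy
  rw [← hinj.encard_image]
  calc ((fun θ : ℝ => exp (θ * I)) ''
      {θ ∈ Set.Ico (0 : ℝ) (2 * Real.pi) | trig p q r a b d θ = 0}).encard
      ≤ ((trigP p q r a b d).roots.toFinset : Set ℂ).encard := Set.encard_le_encard hsub
    _ = ((trigP p q r a b d).roots.toFinset.card : ℕ∞) := Set.encard_coe_eq_coe_finsetCard _
    _ ≤ 4 := by
      have h1 : (trigP p q r a b d).roots.toFinset.card ≤ 4 :=
        (Multiset.toFinset_card_le _).trans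
          ((Polynomial.card_roots' _).trans (trigP_natDegree p q r a b d))
      exact_mod_cast h1

end Pool.Agent.SSTW
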